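import Pool.Agent.helper8.MC.Vec
import Pool.Agent.helper98.MC.Gam

/-!
# MC: the data (abstract form of the ambient space) and the maps
-/

open scoped Manifold ContDiff Topology InnerProductSpace

noncomputable section

namespace Pool.Agent.helper8.MC

/-- The linear algebra data of the construction: `H` contains `V ⊗ ℝᵇ ⊕ ℝⁿ`. -/
structure CDat (n : ℕ) (V W H : Type) [NormedAddCommGroup V] [InnerProductSpace ℝ V]
    [NormedAddCommGroup W] [InnerProductSpace ℝ W] [NormedAddCommGroup H]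
    [InnerProductSpace ℝ H] where
  /-- `y ↦ Ψ_y s₀` -/
  j : Eu (n + 1) →L[ℝ] V
  /-- `p ⊗ a` -/
  tens : V →L[ℝ] RB n →L[ℝ] H
  /-- the summand `ℝⁿ` -/
  incl : Eu n →L[ℝ] H
  /-- `Ψ_y ω` -/
  Ps : Eu (n + 1) →L[ℝ] W →L[ℝ] H
  inner_j : ∀ y y', ⟪j y, j y'⟫_ℝ = ⟪y, y'⟫_ℝ
  inner_tens : ∀ p p' a a', ⟪tens p a, tens p' a'⟫_ℝ = ⟪p, p'⟫_ℝ * ⟪a, a'⟫_ℝ
  inner_incl : ∀ c c', ⟪incl c, incl c'⟫_ℝ = ⟪c, c'⟫_ℝ
  tens_incl : ∀ p a c, ⟪tens p a, incl c⟫_ℝ = 0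
  inner_Ps : ∀ y w w', ⟪Ps y w, Ps y w'⟫_ℝ = ‖y‖ ^ 2 * ⟪w, w'⟫_ℝ
  Ps_tens : ∀ y w a, ⟪Ps y w, tens (j y) a⟫_ℝ = 0
  Ps_incl : ∀ y w c, ⟪Ps y w, incl c⟫_ℝ = 0
  complete : ∀ y, ‖y‖ = 1 → ∀ q : H, ∃ w a c, q = Ps y w + tens (j y) a + incl c

/-- The coordinate space `ℝⁿ⁺¹ × ℝⁿ × W × (ℝ × ℝⁿ)`; elements `(y, s, ω, z, w)`. -/
abbrev EE (n : ℕ) (W : Type) [NormedAddCommGroup W] [InnerProductSpace ℝ W] : Type :=
  PS n (Eu (n + 1)) W (ℝ × Eu n)

variable {n : ℕ} {V W H : Type} [NormedAddCommGroup V] [InnerProductSpace ℝ V]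
  [NormedAddCommGroup W] [InnerProductSpace ℝ W] [NormedAddCommGroup H] [InnerProductSpace ℝ H]

/-- The Euclidean inner product on the fibre `W × (ℝ × ℝⁿ)`. -/
def ip (v v' : W × (ℝ × Eu n)) : ℝ := ⟪v.1, v'.1⟫_ℝ + v.2.1 * v'.2.1 + ⟪v.2.2, v'.2.2⟫_ℝ

/-- The Euclidean norm on the fibre. -/
def nv (v : W × (ℝ × Eu n)) : ℝ := Real.sqrt (ip v v)

namespace CDat

variable (D : CDat n V W H)

/-- `φ(y, s)` -/
def phi (y : Eu (n + 1)) (s : Eu n) : H :=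
  D.tens (D.j y) (cat (Real.sqrt n • y) (sn (sinv s) 0)) + D.incl (cosv s)

/-- `Θ_{(y, s)} (v)` -/
def Th (y : Eu (n + 1)) (s : Eu n) (v : W × (ℝ × Eu n)) : H :=
  D.Ps y v.1 + D.tens (D.j y) (cat (v.2.1 • y) (sn (hm v.2.2 (sinv s)) 0)) +
    D.incl (hm v.2.2 (cosv s))

/-- `J_{(y, s)} (u, χ, c)` -/
def JJ (y : Eu (n + 1)) (s : Eu n) (u : Eu (n + 1)) (χ : Eu n) (c : ℝ) : H :=
  D.tens (D.j y) (cat u (sn (hm χ (cosv s)) c)) - D.incl (hm χ (sinv s))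

/-- the constant vector `D₁ = ∑ᵢ j(eᵢ) ⊗ (eᵢ, 0)` -/
def D1 : H := ∑ i : Fin (n + 1), D.tens (D.j (EuclideanSpace.single i (1 : ℝ)))
  (cat (EuclideanSpace.single i (1 : ℝ)) 0)

end CDat

/-! ### The fibre inner product -/

theorem ip_self (v : W × (ℝ × Eu n)) : ip v v = ‖v.1‖ ^ 2 + v.2.1 ^ 2 + ‖v.2.2‖ ^ 2 := by
  unfold ip
  rw [real_inner_self_eq_norm_sq, real_inner_self_eq_norm_sq]; ring

theorem ip_self_nonneg (v : W × (ℝ × Eu n)) : 0 ≤ ip v v := by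
  rw [ip_self]; positivity

theorem nv_sq (v : W × (ℝ × Eu n)) : nv v ^ 2 = ip v v := Real.sq_sqrt (ip_self_nonneg v)

theorem nv_nonneg (v : W × (ℝ × Eu n)) : 0 ≤ nv v := Real.sqrt_nonneg _

theorem ip_self_pos {v : W × (ℝ × Eu n)} (hv : v ≠ 0) : 0 < ip v v := by
  rw [ip_self]
  by_contra h
  apply hv
  have h1 : 0 ≤ ‖v.1‖ ^ 2 := by positivity
  have h2 : 0 ≤ v.2.1 ^ 2 := by positivity
  have h3 : 0 ≤ ‖v.2.2‖ ^ 2 := by positivity
  have e1 : ‖v.1‖ ^ 2 = 0 := by linarith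
  have e2 : v.2.1 ^ 2 = 0 := by linarith
  have e3 : ‖v.2.2‖ ^ 2 = 0 := by linarith
  simp only [ne_eq, OfNat.ofNat_ne_zero, not_false_eq_true, pow_eq_zero_iff, norm_eq_zero] at e1 e2 e3
  exact Prod.ext e1 (Prod.ext e2 e3)

theorem nv_pos {v : W × (ℝ × Eu n)} (hv : v ≠ 0) : 0 < nv v := Real.sqrt_pos.2 (ip_self_pos hv)

theorem ip_smul_left (r : ℝ) (v v' : W × (ℝ × Eu n)) : ip (r • v) v' = r * ip v v' := by
  unfold ip
  simp only [Prod.smul_fst, Prod.smul_snd, smul_eq_mul, real_inner_smul_left]; ring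

theorem ip_comm (v v' : W × (ℝ × Eu n)) : ip v v' = ip v' v := by
  unfold ip
  rw [real_inner_comm, real_inner_comm v'.2.2, mul_comm v.2.1]

theorem ip_smul_right (r : ℝ) (v v' : W × (ℝ × Eu n)) : ip v (r • v') = r * ip v v' := by
  rw [ip_comm, ip_smul_left, ip_comm]

theorem ip_add_left (u v v' : W × (ℝ × Eu n)) : ip (u + v) v' = ip u v' + ip v v' := by
  unfold ip
  simp only [Prod.fst_add, Prod.snd_add, inner_add_left]; ring

theorem ip_add_right (u v v' : W × (ℝ × Eu n)) : ip u (v + v') = ip u v + ip u v' := by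
  rw [ip_comm, ip_add_left, ip_comm v, ip_comm v']

theorem nv_smul (r : ℝ) (v : W × (ℝ × Eu n)) : nv (r • v) = |r| * nv v := by
  unfold nv
  rw [ip_smul_left, ip_smul_right, ← mul_assoc, Real.sqrt_mul (mul_self_nonneg r), ← Real.sqrt_sq_eq_abs]
  congr 2
  ring

theorem contDiff_ip : ContDiff ℝ ∞ (fun v : W × (ℝ × Eu n) => ip v v) := by
  unfold ip
  have h1 : ContDiff ℝ ∞ (fun v : W × (ℝ × Eu n) => v.1) := contDiff_fst
  have h2 : ContDiff ℝ ∞ (fun v : W × (ℝ × Eu n) => v.2.2) := contDiff_snd.comp contDiff_snd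
  have h3 : ContDiff ℝ ∞ (fun v : W × (ℝ × Eu n) => v.2.1) := contDiff_fst.comp contDiff_snd
  exact ((h1.inner ℝ h1).add (h3.mul h3)).add (h2.inner ℝ h2)

/-! ### E1: algebra of the maps -/

namespace CDat

variable (D : CDat n V W H)

theorem norm_j (y : Eu (n + 1)) : ‖D.j y‖ = ‖y‖ := by
  have h : ‖D.j y‖ ^ 2 = ‖y‖ ^ 2 := by
    rw [← real_inner_self_eq_norm_sq, D.inner_j, real_inner_self_eq_norm_sq]
  exact (sq_eq_sq₀ (norm_nonneg _) (norm_nonneg _)).1 h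

theorem norm_tens (p : V) (a : RB n) : ‖D.tens p a‖ = ‖p‖ * ‖a‖ := by
  have h : ‖D.tens p a‖ ^ 2 = (‖p‖ * ‖a‖) ^ 2 := by
    rw [← real_inner_self_eq_norm_sq, D.inner_tens, real_inner_self_eq_norm_sq,
      real_inner_self_eq_norm_sq, mul_pow]
  exact (sq_eq_sq₀ (norm_nonneg _) (by positivity)).1 h

theorem norm_incl (c : Eu n) : ‖D.incl c‖ = ‖c‖ := by
  have h : ‖D.incl c‖ ^ 2 = ‖c‖ ^ 2 := by
    rw [← real_inner_self_eq_norm_sq, D.inner_incl, real_inner_self_eq_norm_sq]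
  exact (sq_eq_sq₀ (norm_nonneg _) (norm_nonneg _)).1 h

theorem norm_Ps (y : Eu (n + 1)) (w : W) : ‖D.Ps y w‖ = ‖y‖ * ‖w‖ := by
  have h : ‖D.Ps y w‖ ^ 2 = (‖y‖ * ‖w‖) ^ 2 := by
    rw [← real_inner_self_eq_norm_sq, D.inner_Ps, real_inner_self_eq_norm_sq, mul_pow]
  exact (sq_eq_sq₀ (norm_nonneg _) (by positivity)).1 h

theorem incl_tens (p : V) (a : RB n) (c : Eu n) : ⟪D.incl c, D.tens p a⟫_ℝ = 0 := by
  rw [real_inner_comm, D.tens_incl]

theorem tens_Ps (y : Eu (n + 1)) (w : W) (a : RB n) : ⟪D.tens (D.j y) a, D.Ps y w⟫_ℝ = 0 := by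
  rw [real_inner_comm, D.Ps_tens]

theorem incl_Ps (y : Eu (n + 1)) (w : W) (c : Eu n) : ⟪D.incl c, D.Ps y w⟫_ℝ = 0 := by
  rw [real_inner_comm, D.Ps_incl]

/-- `Θ` is an isometry -/
theorem inner_Th {y : Eu (n + 1)} (hy : ‖y‖ = 1) (s : Eu n) (v v' : W × (ℝ × Eu n)) :
    ⟪D.Th y s v, D.Th y s v'⟫_ℝ = ip v v' := by
  unfold Th ip
  simp only [inner_add_left, inner_add_right, D.inner_Ps, D.Ps_tens, D.tens_Ps, D.Ps_incl,
    D.incl_Ps, D.tens_incl, D.incl_tens, D.inner_tens, D.inner_incl, D.inner_j, inner_cat,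
    inner_sn, real_inner_smul_left, real_inner_smul_right, real_inner_self_eq_norm_sq, hy]
  linear_combination inner_hm_sin_cos s v.2.2 v'.2.2

theorem norm_Th {y : Eu (n + 1)} (hy : ‖y‖ = 1) (s : Eu n) (v : W × (ℝ × Eu n)) :
    ‖D.Th y s v‖ = nv v := by
  rw [norm_eq_sqrt_real_inner, D.inner_Th hy, nv]

/-- `J` is an isometry -/
theorem inner_JJ {y : Eu (n + 1)} (hy : ‖y‖ = 1) (s : Eu n) (u u' : Eu (n + 1)) (χ χ' : Eu n)
    (c c' : ℝ) : ⟪D.JJ y s u χ c, D.JJ y s u' χ' c'⟫_ℝ = ⟪u, u'⟫_ℝ + ⟪χ, χ'⟫_ℝ + c * c' := by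
  unfold JJ
  simp only [inner_sub_left, inner_sub_right, D.tens_incl, D.incl_tens, D.inner_tens,
    D.inner_incl, D.inner_j, inner_cat, inner_sn, real_inner_self_eq_norm_sq, hy]
  linear_combination inner_hm_sin_cos s χ χ'

theorem norm_JJ {y : Eu (n + 1)} (hy : ‖y‖ = 1) (s : Eu n) (u : Eu (n + 1)) (χ : Eu n) (c : ℝ) :
    ‖D.JJ y s u χ c‖ ^ 2 = ‖u‖ ^ 2 + ‖χ‖ ^ 2 + c ^ 2 := by
  rw [← real_inner_self_eq_norm_sq, D.inner_JJ hy, real_inner_self_eq_norm_sq,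
    real_inner_self_eq_norm_sq]; ring

/-- The inner product of `Θ` and `J` -/
theorem inner_Th_JJ {y : Eu (n + 1)} (hy : ‖y‖ = 1) (s : Eu n) (v : W × (ℝ × Eu n))
    (u : Eu (n + 1)) (χ : Eu n) (c : ℝ) :
    ⟪D.Th y s v, D.JJ y s u χ c⟫_ℝ = v.2.1 * ⟪y, u⟫_ℝ := by
  unfold Th JJ
  simp only [inner_add_left, inner_sub_right, D.Ps_tens, D.Ps_incl, D.tens_incl, D.incl_tens,
    D.inner_tens, D.inner_incl, D.inner_j, inner_cat, inner_sn, real_inner_smul_left,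
    real_inner_self_eq_norm_sq, hy]
  linear_combination inner_hm_comm s v.2.2 χ

/-- Every vector is the sum of a value of `Θ` and a value of `J`. -/
theorem exists_Th_JJ {y : Eu (n + 1)} (hy : ‖y‖ = 1) (s : Eu n) (q : H) :
    ∃ (v : W × (ℝ × Eu n)) (u : Eu (n + 1)) (χ : Eu n) (c : ℝ), ⟪y, u⟫_ℝ = 0 ∧
      q = D.Th y s v + D.JJ y s u χ c := by
  obtain ⟨w, a, c, hq⟩ := D.complete y hy q
  set a1 : Eu (n + 1) := WithLp.toLp 2 (fun i => a (Sum.inl i)) with ha1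
  set a2 : Eu n := WithLp.toLp 2 (fun i => a (Sum.inr i.castSucc)) with ha2
  set z : ℝ := ⟪y, a1⟫_ℝ with hz
  refine ⟨(w, z, hm a2 (sinv s) + hm c (cosv s)), a1 - z • y,
    hm a2 (cosv s) - hm c (sinv s), a (Sum.inr (Fin.last n)), ?_, ?_⟩
  · rw [inner_sub_right, real_inner_smul_right, real_inner_self_eq_norm_sq, hy, ← hz]; ring
  · have e1 : hm (hm a2 (sinv s) + hm c (cosv s)) (cosv s) -
        hm (hm a2 (cosv s) - hm c (sinv s)) (sinv s) = c := by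
      ext i
      simp only [PiLp.sub_apply, PiLp.add_apply, hm_apply, sinv_apply, cosv_apply]
      linear_combination (c i) * (Real.sin_sq_add_cos_sq (s i))
    have e2 : cat (z • y) (sn (hm (hm a2 (sinv s) + hm c (cosv s)) (sinv s)) 0) +
        cat (a1 - z • y) (sn (hm (hm a2 (cosv s) - hm c (sinv s)) (cosv s))
          (a (Sum.inr (Fin.last n)))) = a := by
      ext i
      rcases i with i | i
      · simp [ha1]
      · refine Fin.lastCases ?_ (fun i => ?_) i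
        · simp
        · simp only [PiLp.sub_apply, PiLp.add_apply, cat_inr, sn_castSucc, hm_apply, sinv_apply,
            cosv_apply]
          have : a2 i = a (Sum.inr i.castSucc) := rfl
          rw [← this]
          linear_combination (a2 i) * (Real.sin_sq_add_cos_sq (s i))
    unfold Th JJ
    simp only
    rw [hq]
    nth_rw 1 [← e1, ← e2]
    rw [map_add, map_sub]
    abel

/-- behaviour under the sign change -/
theorem phi_neg (y : Eu (n + 1)) (s : Eu n) : D.phi (-y) (-s) = D.phi y s := by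
  unfold phi
  rw [map_neg, sinv_neg, cosv_neg]
  have h1 : cat (Real.sqrt n • -y) (sn (-sinv s) 0) = -cat (Real.sqrt n • y) (sn (sinv s) 0) := by
    rw [← neg_one_smul ℝ (cat _ _), ← cat_smul, ← sn_smul]; simp
  rw [h1, map_neg]
  simp

theorem Th_neg (y : Eu (n + 1)) (s : Eu n) (v : W × (ℝ × Eu n)) :
    D.Th (-y) (-s) (-v.1, v.2) = D.Th y s v := by
  unfold Th
  rw [map_neg, sinv_neg, cosv_neg]
  have h1 : cat (v.2.1 • -y) (sn (hm v.2.2 (-sinv s)) 0) =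
      -cat (v.2.1 • y) (sn (hm v.2.2 (sinv s)) 0) := by
    rw [← neg_one_smul ℝ (cat _ _), ← cat_smul, ← sn_smul]; simp
  simp only
  rw [h1, map_neg]
  simp

theorem phi_per (y : Eu (n + 1)) (s : Eu n) (k : Fin n → ℤ) :
    D.phi y (s + per k) = D.phi y s := by
  unfold phi
  rw [sinv_per, cosv_per]

theorem Th_per (y : Eu (n + 1)) (s : Eu n) (k : Fin n → ℤ) (v : W × (ℝ × Eu n)) :
    D.Th y (s + per k) v = D.Th y s v := by
  unfold Th
  rw [sinv_per, cosv_per]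

/-- `D₁` contracted -/
theorem inner_D1 (y : Eu (n + 1)) (a b : Eu (n + 1)) :
    ⟪D.D1, D.tens (D.j y) (cat a b)⟫_ℝ = ⟪y, a⟫_ℝ := by
  unfold D1
  rw [sum_inner]
  simp only [D.inner_tens, D.inner_j, inner_cat, inner_zero_left, add_zero]
  rw [inner_Eu]
  refine Finset.sum_congr rfl fun i _ => ?_
  rw [EuclideanSpace.inner_single_left, EuclideanSpace.inner_single_left]
  simp

end CDat

end Pool.Agent.helper8.MC
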