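import Pool.Agent.helper8.MC.Flat

/-!
# MC-C: orthogonal multiplications `ℝⁿ⁺¹ × ℝᵈ → ℝᵈ`
-/

open scoped Manifold ContDiff Topology InnerProductSpace

noncomputable section

namespace Pool.Agent.helper8.MC

namespace ClifAux

/-- the last coordinates of a vector of `Eu (n + 2)` -/
def tl (n : ℕ) (y : Eu (n + 1 + 1)) : Eu (n + 1) := WithLp.toLp 2 (fun i => y i.succ)

theorem tl_add (n : ℕ) (y z : Eu (n + 1 + 1)) : tl n (y + z) = tl n y + tl n z := by
  ext i; simp [tl]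

theorem tl_smul (n : ℕ) (c : ℝ) (y : Eu (n + 1 + 1)) : tl n (c • y) = c • tl n y := by
  ext i; simp [tl]

theorem norm_sq_tl (n : ℕ) (y : Eu (n + 1 + 1)) : ‖y‖ ^ 2 = y 0 ^ 2 + ‖tl n y‖ ^ 2 := by
  rw [EuclideanSpace.real_norm_sq_eq, EuclideanSpace.real_norm_sq_eq, Fin.sum_univ_succ]
  simp [tl]

section
variable {V : Type} [NormedAddCommGroup V] [InnerProductSpace ℝ V] [FiniteDimensional ℝ V]

/-- If `‖A v‖ = c ‖v‖` for all `v`, then the adjoint has the same property. -/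
theorem adj_norm (A : V →ₗ[ℝ] V) (c : ℝ) (hc : 0 ≤ c) (hA : ∀ v, ‖A v‖ = c * ‖v‖) (v : V) :
    ‖LinearMap.adjoint A v‖ = c * ‖v‖ := by
  have h1 : ∀ u w : V, ⟪A u, A w⟫_ℝ = c ^ 2 * ⟪u, w⟫_ℝ := by
    intro u w
    have e1 := @real_inner_eq_norm_add_mul_self_sub_norm_mul_self_sub_norm_mul_self_div_two V _ _ (A u) (A w)
    have e2 := @real_inner_eq_norm_add_mul_self_sub_norm_mul_self_sub_norm_mul_self_div_two V _ _ u w
    rw [← map_add, hA, hA, hA] at e1
    rw [e1, e2]; ring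
  have h2 : ∀ w : V, LinearMap.adjoint A (A w) = (c ^ 2) • w := by
    intro w
    apply ext_inner_left ℝ
    intro u
    rw [LinearMap.adjoint_inner_right, h1, inner_smul_right]
  rcases eq_or_lt_of_le hc with h0 | hpos
  · subst h0
    have hz : A = 0 := by
      ext w
      have := hA w
      rw [zero_mul] at this
      simpa using this
    simp [hz]
  · have hinj : Function.Injective A := by
      rw [injective_iff_map_eq_zero]
      intro w hw
      have := hA w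
      rw [hw, norm_zero] at this
      have h3 : ‖w‖ = 0 := by
        rcases mul_eq_zero.1 this.symm with h | h
        · exact absurd h hpos.ne'
        · exact h
      simpa using h3
    obtain ⟨w, hw⟩ := (LinearMap.injective_iff_surjective.1 hinj) v
    rw [← hw, h2, norm_smul, hA, Real.norm_of_nonneg (by positivity)]
    ring

end

/-- the abstract form of the statement -/
theorem abs_step (n : ℕ) (V : Type) [NormedAddCommGroup V] [InnerProductSpace ℝ V]
    [FiniteDimensional ℝ V] (Ψ : Eu (n + 1) →ₗ[ℝ] V →ₗ[ℝ] V)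
    (h : ∀ y v, ‖Ψ y v‖ = ‖y‖ * ‖v‖) :
    ∃ Φ : Eu (n + 1 + 1) →ₗ[ℝ] WithLp 2 (V × V) →ₗ[ℝ] WithLp 2 (V × V),
      ∀ y v, ‖Φ y v‖ = ‖y‖ * ‖v‖ := by
  refine ⟨LinearMap.mk₂ ℝ (fun y v => WithLp.toLp 2
    (Ψ (tl n y) v.fst - y 0 • v.snd, y 0 • v.fst + LinearMap.adjoint (Ψ (tl n y)) v.snd)) ?_ ?_ ?_ ?_, ?_⟩
  · intro y z v
    apply (WithLp.equiv 2 (V × V)).injective
    simp only [tl_add, map_add, LinearMap.add_apply, PiLp.add_apply, add_smul]
    ext
    · simp; abel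
    · simp; abel
  · intro c y v
    apply (WithLp.equiv 2 (V × V)).injective
    simp only [tl_smul, map_smul, LinearMap.smul_apply, PiLp.smul_apply, smul_eq_mul, mul_smul]
    ext
    · simp [smul_sub]
    · simp [smul_add]
  · intro y v w
    apply (WithLp.equiv 2 (V × V)).injective
    ext
    · simp; abel
    · simp; abel
  · intro c y v
    apply (WithLp.equiv 2 (V × V)).injective
    ext
    · simp [smul_sub, smul_comm c]
    · simp [smul_add, smul_comm c]
  · intro y v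
    have hy := norm_sq_tl n y
    have hv : ‖v‖ ^ 2 = ‖v.fst‖ ^ 2 + ‖v.snd‖ ^ 2 := WithLp.prod_norm_sq_eq_of_L2 v
    set t := y 0
    set p := v.fst
    set q := v.snd
    have key : ‖WithLp.toLp 2 (Ψ (tl n y) p - t • q, t • p + LinearMap.adjoint (Ψ (tl n y)) q)‖ ^ 2
        = (‖y‖ * ‖v‖) ^ 2 := by
      rw [WithLp.prod_norm_sq_eq_of_L2]
      show ‖Ψ (tl n y) p - t • q‖ ^ 2 + ‖t • p + LinearMap.adjoint (Ψ (tl n y)) q‖ ^ 2 = _
      rw [norm_sub_sq_real, norm_add_sq_real, h, adj_norm _ ‖tl n y‖ (norm_nonneg _) (h _),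
        inner_smul_right, inner_smul_left, LinearMap.adjoint_inner_right, norm_smul, norm_smul,
        mul_pow, mul_pow, mul_pow, mul_pow, mul_pow, hy, hv]
      simp only [Real.norm_eq_abs, sq_abs, conj_trivial]
      ring
    have := (pow_left_inj₀ (norm_nonneg _) (by positivity) two_ne_zero).1 key
    exact this

theorem abs_clifford (n : ℕ) :
    ∃ (V : Type) (_ : NormedAddCommGroup V) (_ : InnerProductSpace ℝ V) (_ : FiniteDimensional ℝ V)
      (_ : Nontrivial V) (Ψ : Eu (n + 1) →ₗ[ℝ] V →ₗ[ℝ] V), ∀ y v, ‖Ψ y v‖ = ‖y‖ * ‖v‖ := by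
  induction n with
  | zero =>
    refine ⟨ℝ, inferInstance, inferInstance, inferInstance, inferInstance,
      LinearMap.mk₂ ℝ (fun y v => y 0 * v) ?_ ?_ ?_ ?_, ?_⟩
    · intro y z v; simp [add_mul]
    · intro c y v; simp [mul_assoc]
    · intro y v w; simp [mul_add]
    · intro c y v; simp; ring
    · intro y v
      have : ‖y‖ = |y 0| := by
        rw [EuclideanSpace.norm_eq]
        simp [Real.sqrt_sq_eq_abs]
      simp [this]
  | succ n ih =>
    obtain ⟨V, i1, i2, i3, i4, Ψ, h⟩ := ih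
    obtain ⟨Φ, hΦ⟩ := abs_step n V Ψ h
    have : Nontrivial (WithLp 2 (V × V)) := (WithLp.equiv 2 (V × V)).nontrivial
    exact ⟨WithLp 2 (V × V), inferInstance, inferInstance, inferInstance, this, Φ, hΦ⟩

end ClifAux

/-- PROOF. By induction on `n`, first with an abstract finite-dimensional inner product space in place
of `Eu d` (for example `EuclideanSpace ℝ ι`, `ι` a non-empty finite type; in the end `Fin d`).
`n = 0`: `Ψ y = y 0 • id` on `Eu 1`. Step: on `V × V` (Euclidean norm), for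
`y' = (y, t)`: `Ψ' (y, t) (p, q) = (Ψ y p - t q, t p + (Ψ y)* q)` where `*` is the adjoint;
`‖(Ψ y)* q‖ = ‖y‖ ‖q‖` since `(Ψ y)* (Ψ y) = ‖y‖² id` and the space is finite-dimensional (so
`(Ψ y) (Ψ y)* = ‖y‖² id`). The cross terms cancel: `⟪Ψ y p, q⟫ = ⟪p, (Ψ y)* q⟫`. -/
theorem exists_clifford (n : ℕ) :
    ∃ (d : ℕ) (Ψ : Eu (n + 1) →ₗ[ℝ] Eu d →ₗ[ℝ] Eu d), 0 < d ∧
      ∀ (y : Eu (n + 1)) (v : Eu d), ‖Ψ y v‖ = ‖y‖ * ‖v‖ := by
  obtain ⟨V, i1, i2, i3, i4, Ψ, h⟩ := ClifAux.abs_clifford n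
  let e : V ≃ₗᵢ[ℝ] Eu (Module.finrank ℝ V) := (stdOrthonormalBasis ℝ V).repr
  refine ⟨Module.finrank ℝ V, LinearMap.mk₂ ℝ (fun y v => e (Ψ y (e.symm v))) ?_ ?_ ?_ ?_,
    Module.finrank_pos, ?_⟩
  · intro y z v; simp
  · intro c y v; simp
  · intro y v w; simp
  · intro c y v; simp
  · intro y v
    simp [h]

end Pool.Agent.helper8.MC
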