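import Pool.Agent.helper8.MC.CDat
import Pool.Agent.helper8.MC.Clif

/-!
# MC: the concrete spaces
-/

open scoped Manifold ContDiff Topology InnerProductSpace

noncomputable section

namespace Pool.Agent.helper8.MC

section Cliff

/-- dimension of the Clifford module -/
def dC (n : ℕ) : ℕ := (exists_clifford n).choose

/-- the orthogonal multiplication -/
def Psi (n : ℕ) : Eu (n + 1) →ₗ[ℝ] Eu (dC n) →ₗ[ℝ] Eu (dC n) :=
  (exists_clifford n).choose_spec.choose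

theorem dC_pos (n : ℕ) : 0 < dC n := (exists_clifford n).choose_spec.choose_spec.1

theorem norm_Psi {n : ℕ} (y : Eu (n + 1)) (v : Eu (dC n)) : ‖Psi n y v‖ = ‖y‖ * ‖v‖ :=
  (exists_clifford n).choose_spec.choose_spec.2 y v

variable (n : ℕ)

/-- the Clifford module -/
abbrev VV : Type := Eu (dC n)

/-- a unit vector of the Clifford module -/
def s0 : VV n := EuclideanSpace.single ⟨0, dC_pos n⟩ (1 : ℝ)

theorem norm_s0 : ‖s0 n‖ = 1 := by
  unfold s0; rw [PiLp.norm_single]; simp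

/-- the orthogonal complement of `s0` -/
abbrev V0 : Type := ↥((ℝ ∙ s0 n)ᗮ)

variable {n}

theorem inner_Psi (y : Eu (n + 1)) (p q : VV n) :
    ⟪Psi n y p, Psi n y q⟫_ℝ = ‖y‖ ^ 2 * ⟪p, q⟫_ℝ := by
  have h1 := norm_add_sq_real (Psi n y p) (Psi n y q)
  have h2 := norm_add_sq_real p q
  rw [← map_add, norm_Psi, norm_Psi, norm_Psi, mul_pow, mul_pow, mul_pow] at h1
  nlinarith [h1, h2]

theorem inner_Psi' (y y' : Eu (n + 1)) (p : VV n) :
    ⟪Psi n y p, Psi n y' p⟫_ℝ = ⟪y, y'⟫_ℝ * ‖p‖ ^ 2 := by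
  have h1 := norm_add_sq_real (Psi n y p) (Psi n y' p)
  have h2 := norm_add_sq_real y y'
  have h3 : Psi n y p + Psi n y' p = Psi n (y + y') p := by simp
  rw [h3, norm_Psi, norm_Psi, norm_Psi, mul_pow, mul_pow, mul_pow] at h1
  nlinarith [h1, h2]

/-- the isometric linear embedding `j(y) = Ψ_y s₀` -/
def jj : Eu (n + 1) →ₗ[ℝ] VV n := (Psi n).flip (s0 n)

theorem jj_apply (y : Eu (n + 1)) : jj y = Psi n y (s0 n) := rfl

theorem norm_jj (y : Eu (n + 1)) : ‖jj y‖ = ‖y‖ := by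
  rw [jj_apply, norm_Psi, norm_s0, mul_one]

theorem inner_jj (y y' : Eu (n + 1)) : ⟪jj y, jj y'⟫_ℝ = ⟪y, y'⟫_ℝ := by
  rw [jj_apply, jj_apply, inner_Psi', norm_s0]; ring

theorem inner_jj_Psi (y : Eu (n + 1)) (p : V0 n) : ⟪jj y, Psi n y (p : VV n)⟫_ℝ = 0 := by
  rw [jj_apply, inner_Psi]
  have h := p.2
  rw [Submodule.mem_orthogonal_singleton_iff_inner_right] at h
  rw [h, mul_zero]

end Cliff

section Spaces

variable (n : ℕ)

/-- the fibre space: triples `(ω, z, w)` -/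
abbrev FF : Type := WithLp 2 (PiLp 2 (fun _ : Bt n => V0 n) × WithLp 2 (ℝ × Eu n))

/-- the ambient space `Vᵇ ⊕ ℝⁿ` -/
abbrev HH : Type := WithLp 2 (PiLp 2 (fun _ : Bt n => VV n) × Eu n)

variable {n}

/-- element of the fibre space -/
def mkF (om : Bt n → V0 n) (z : ℝ) (w : Eu n) : FF n :=
  WithLp.toLp 2 (WithLp.toLp 2 om, WithLp.toLp 2 (z, w))

/-- the components -/
def omF (i : Bt n) (v : FF n) : V0 n := v.fst i
def zF (v : FF n) : ℝ := v.snd.fst
def wF (v : FF n) : Eu n := v.snd.snd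

/-- element of the ambient space -/
def mkH (p : Bt n → VV n) (c : Eu n) : HH n := WithLp.toLp 2 (WithLp.toLp 2 p, c)

def pH (i : Bt n) (q : HH n) : VV n := q.fst i
def cH (q : HH n) : Eu n := q.snd

@[simp] theorem omF_mkF (om : Bt n → V0 n) (z : ℝ) (w : Eu n) (i : Bt n) :
    omF i (mkF om z w) = om i := rfl
@[simp] theorem zF_mkF (om : Bt n → V0 n) (z : ℝ) (w : Eu n) : zF (mkF om z w) = z := rfl
@[simp] theorem wF_mkF (om : Bt n → V0 n) (z : ℝ) (w : Eu n) : wF (mkF om z w) = w := rfl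
@[simp] theorem pH_mkH (p : Bt n → VV n) (c : Eu n) (i : Bt n) : pH i (mkH p c) = p i := rfl
@[simp] theorem cH_mkH (p : Bt n → VV n) (c : Eu n) : cH (mkH p c) = c := rfl

theorem FF_ext {v v' : FF n} (h1 : ∀ i, omF i v = omF i v') (h2 : zF v = zF v')
    (h3 : wF v = wF v') : v = v' := by
  have a1 : v.fst = v'.fst := by ext1 i; exact h1 i
  have a2 : v.snd = v'.snd := by
    apply WithLp.ofLp_injective; exact Prod.ext h2 h3
  apply WithLp.ofLp_injective; exact Prod.ext a1 a2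

theorem HH_ext {q q' : HH n} (h1 : ∀ i, pH i q = pH i q') (h2 : cH q = cH q') : q = q' := by
  have a1 : q.fst = q'.fst := by ext1 i; exact h1 i
  apply WithLp.ofLp_injective; exact Prod.ext a1 h2

theorem inner_FF (v v' : FF n) : ⟪v, v'⟫_ℝ =
    ∑ i, ⟪(omF i v : VV n), (omF i v' : VV n)⟫_ℝ + zF v * zF v' + ⟪wF v, wF v'⟫_ℝ := by
  rw [WithLp.prod_inner_apply, WithLp.prod_inner_apply, PiLp.inner_apply, add_assoc]
  congr 1
  congr 1
  show ⟪v.snd.fst, v'.snd.fst⟫_ℝ = _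
  rw [real_inner_eq_re_inner, RCLike.inner_apply]
  simp [zF, mul_comm]

theorem norm_FF (v : FF n) : ‖v‖ ^ 2 = ∑ i, ‖omF i v‖ ^ 2 + zF v ^ 2 + ‖wF v‖ ^ 2 := by
  rw [← real_inner_self_eq_norm_sq, inner_FF, real_inner_self_eq_norm_sq]
  simp only [real_inner_self_eq_norm_sq, Submodule.coe_norm]
  ring

theorem inner_HH (q q' : HH n) : ⟪q, q'⟫_ℝ =
    ∑ i, ⟪pH i q, pH i q'⟫_ℝ + ⟪cH q, cH q'⟫_ℝ := by
  rw [WithLp.prod_inner_apply, PiLp.inner_apply]
  rfl

theorem norm_HH (q : HH n) : ‖q‖ ^ 2 = ∑ i, ‖pH i q‖ ^ 2 + ‖cH q‖ ^ 2 := by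
  rw [← real_inner_self_eq_norm_sq, inner_HH]
  simp only [real_inner_self_eq_norm_sq]

end Spaces

end Pool.Agent.helper8.MC
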