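import Pool.Agent.helper8.MC.CDat
import Pool.Agent.helper8.MC.Space

/-!
# MC: existence of the data
-/

open scoped Manifold ContDiff Topology InnerProductSpace

noncomputable section

namespace Pool.Agent.helper8.MC

/-- a bilinear map between finite-dimensional spaces as a continuous bilinear map -/
def toCB {A B C : Type} [NormedAddCommGroup A] [NormedSpace ℝ A] [FiniteDimensional ℝ A]
    [NormedAddCommGroup B] [NormedSpace ℝ B] [FiniteDimensional ℝ B]
    [NormedAddCommGroup C] [NormedSpace ℝ C] (f : A →ₗ[ℝ] B →ₗ[ℝ] C) : A →L[ℝ] B →L[ℝ] C :=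
  LinearMap.toContinuousLinearMap
    ((LinearMap.toContinuousLinearMap : (B →ₗ[ℝ] C) ≃ₗ[ℝ] (B →L[ℝ] C)).toLinearMap ∘ₗ f)

theorem toCB_apply {A B C : Type} [NormedAddCommGroup A] [NormedSpace ℝ A]
    [FiniteDimensional ℝ A] [NormedAddCommGroup B] [NormedSpace ℝ B] [FiniteDimensional ℝ B]
    [NormedAddCommGroup C] [NormedSpace ℝ C] (f : A →ₗ[ℝ] B →ₗ[ℝ] C) (a : A) (b : B) :
    toCB f a b = f a b := rfl

/-- the data, transported to isometric spaces -/
theorem CDat.transport {n : ℕ} {V W H W' H' : Type} [NormedAddCommGroup V]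
    [InnerProductSpace ℝ V] [NormedAddCommGroup W] [InnerProductSpace ℝ W]
    [NormedAddCommGroup H] [InnerProductSpace ℝ H] [NormedAddCommGroup W']
    [InnerProductSpace ℝ W'] [NormedAddCommGroup H'] [InnerProductSpace ℝ H']
    [FiniteDimensional ℝ V] [FiniteDimensional ℝ W']
    (j : Eu (n + 1) →ₗ[ℝ] V) (tens : V →ₗ[ℝ] RB n →ₗ[ℝ] H) (incl : Eu n →ₗ[ℝ] H)
    (Ps : Eu (n + 1) →ₗ[ℝ] W →ₗ[ℝ] H)
    (inner_j : ∀ y y', ⟪j y, j y'⟫_ℝ = ⟪y, y'⟫_ℝ)
    (inner_tens : ∀ p p' a a', ⟪tens p a, tens p' a'⟫_ℝ = ⟪p, p'⟫_ℝ * ⟪a, a'⟫_ℝ)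
    (inner_incl : ∀ c c', ⟪incl c, incl c'⟫_ℝ = ⟪c, c'⟫_ℝ)
    (tens_incl : ∀ p a c, ⟪tens p a, incl c⟫_ℝ = 0)
    (inner_Ps : ∀ y w w', ⟪Ps y w, Ps y w'⟫_ℝ = ‖y‖ ^ 2 * ⟪w, w'⟫_ℝ)
    (Ps_tens : ∀ y w a, ⟪Ps y w, tens (j y) a⟫_ℝ = 0)
    (Ps_incl : ∀ y w c, ⟪Ps y w, incl c⟫_ℝ = 0)
    (complete : ∀ y, ‖y‖ = 1 → ∀ q : H, ∃ w a c, q = Ps y w + tens (j y) a + incl c)
    (eW : W' ≃ₗᵢ[ℝ] W) (eH : H ≃ₗᵢ[ℝ] H') : Nonempty (CDat n V W' H') := by
  refine ⟨⟨LinearMap.toContinuousLinearMap j,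
    toCB (tens.compr₂ eH.toLinearEquiv.toLinearMap),
    LinearMap.toContinuousLinearMap (eH.toLinearEquiv.toLinearMap ∘ₗ incl),
    toCB ((Ps.compl₂ eW.toLinearEquiv.toLinearMap).compr₂ eH.toLinearEquiv.toLinearMap),
    ?_, ?_, ?_, ?_, ?_, ?_, ?_, ?_⟩⟩
  · intro y y'; exact inner_j y y'
  · intro p p' a a'
    show ⟪eH (tens p a), eH (tens p' a')⟫_ℝ = _
    rw [eH.inner_map_map, inner_tens]
  · intro c c'
    show ⟪eH (incl c), eH (incl c')⟫_ℝ = _
    rw [eH.inner_map_map, inner_incl]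
  · intro p a c
    show ⟪eH (tens p a), eH (incl c)⟫_ℝ = _
    rw [eH.inner_map_map, tens_incl]
  · intro y w w'
    show ⟪eH (Ps y (eW w)), eH (Ps y (eW w'))⟫_ℝ = _
    rw [eH.inner_map_map, inner_Ps, eW.inner_map_map]
  · intro y w a
    show ⟪eH (Ps y (eW w)), eH (tens (j y) a)⟫_ℝ = _
    rw [eH.inner_map_map, Ps_tens]
  · intro y w c
    show ⟪eH (Ps y (eW w)), eH (incl c)⟫_ℝ = _
    rw [eH.inner_map_map, Ps_incl]
  · intro y hy q
    obtain ⟨w, a, c, h⟩ := complete y hy (eH.symm q)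
    refine ⟨eW.symm w, a, c, ?_⟩
    show q = eH (Ps y (eW (eW.symm w))) + eH (tens (j y) a) + eH (incl c)
    rw [eW.apply_symm_apply, ← map_add, ← map_add, ← h, eH.apply_symm_apply]

section Inst

variable (n : ℕ)

/-- the space `(s₀ᗮ)ᵇ` -/
abbrev WW : Type := PiLp 2 (fun _ : Bt n => V0 n)

variable {n}

theorem mkH_add (p p' : Bt n → VV n) (c c' : Eu n) :
    mkH (p + p') (c + c') = mkH p c + mkH p' c' := rfl

theorem mkH_smul (r : ℝ) (p : Bt n → VV n) (c : Eu n) : mkH (r • p) (r • c) = r • mkH p c := rfl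

theorem inner_WW (w w' : WW n) : ⟪w, w'⟫_ℝ = ∑ i, ⟪(w i : VV n), (w' i : VV n)⟫_ℝ := by
  rw [PiLp.inner_apply]; rfl

/-- `p ⊗ a` -/
def tens0 (n : ℕ) : VV n →ₗ[ℝ] RB n →ₗ[ℝ] HH n :=
  LinearMap.mk₂ ℝ (fun p a => mkH (fun i => a i • p) 0)
    (fun p p' a => by
      rw [← mkH_add, add_zero]; congr 1; funext i; simp)
    (fun r p a => by
      rw [← mkH_smul, smul_zero]; congr 1; funext i
      show a i • r • p = r • a i • p
      rw [smul_comm])
    (fun p a a' => by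
      rw [← mkH_add, add_zero]; congr 1; funext i; simp [add_smul])
    (fun r p a => by
      rw [← mkH_smul, smul_zero]; congr 1; funext i; simp [mul_smul])

theorem tens0_apply (p : VV n) (a : RB n) : tens0 n p a = mkH (fun i => a i • p) 0 := rfl

/-- the summand `ℝⁿ` -/
def incl0 (n : ℕ) : Eu n →ₗ[ℝ] HH n where
  toFun c := mkH 0 c
  map_add' c c' := by rw [← mkH_add, add_zero]
  map_smul' r c := by rw [RingHom.id_apply, ← mkH_smul, smul_zero]

theorem incl0_apply (c : Eu n) : incl0 n c = mkH 0 c := rfl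

/-- `Ψ_y ω` -/
def Ps0 (n : ℕ) : Eu (n + 1) →ₗ[ℝ] WW n →ₗ[ℝ] HH n :=
  LinearMap.mk₂ ℝ (fun y w => mkH (fun i => Psi n y (w i : VV n)) 0)
    (fun y y' w => by
      rw [← mkH_add, add_zero]; congr 1; funext i; simp)
    (fun r y w => by
      rw [← mkH_smul, smul_zero]; congr 1; funext i; simp)
    (fun y w w' => by
      rw [← mkH_add, add_zero]; congr 1; funext i; simp)
    (fun r y w => by
      rw [← mkH_smul, smul_zero]; congr 1; funext i; simp)

theorem Ps0_apply (y : Eu (n + 1)) (w : WW n) :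
    Ps0 n y w = mkH (fun i => Psi n y (w i : VV n)) 0 := rfl

theorem finrank_V0 (n : ℕ) : Module.finrank ℝ (V0 n) = dC n - 1 := by
  have h := Submodule.finrank_add_finrank_orthogonal (ℝ ∙ s0 n)
  rw [finrank_span_singleton (by
    intro h0; have := norm_s0 n; rw [h0, norm_zero] at this; exact zero_ne_one this),
    finrank_euclideanSpace_fin] at h
  have h' : 1 + Module.finrank ℝ (V0 n) = dC n := h
  omega

theorem finrank_WW (n : ℕ) : Module.finrank ℝ (WW n) = 2 * (n + 1) * (dC n - 1) := by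
  have h : Module.finrank ℝ (WW n) = Module.finrank ℝ (Bt n → V0 n) :=
    LinearEquiv.finrank_eq (WithLp.linearEquiv 2 ℝ (Bt n → V0 n))
  rw [h, Module.finrank_pi_fintype]
  simp only [finrank_V0, Finset.sum_const, Finset.card_univ, Fintype.card_sum, Fintype.card_fin,
    smul_eq_mul]
  ring

theorem finrank_HH (n : ℕ) : Module.finrank ℝ (HH n) =
    2 * (n + 1) * (dC n - 1) + 3 * n + 2 := by
  have h : Module.finrank ℝ (HH n) =
      Module.finrank ℝ (PiLp 2 (fun _ : Bt n => VV n) × Eu n) :=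
    LinearEquiv.finrank_eq (WithLp.linearEquiv 2 ℝ _)
  have h' : Module.finrank ℝ (PiLp 2 (fun _ : Bt n => VV n)) =
      Module.finrank ℝ (Bt n → VV n) :=
    LinearEquiv.finrank_eq (WithLp.linearEquiv 2 ℝ (Bt n → VV n))
  rw [h, Module.finrank_prod, h', Module.finrank_pi_fintype]
  simp only [finrank_euclideanSpace_fin, Finset.sum_const, Finset.card_univ, Fintype.card_sum,
    Fintype.card_fin, smul_eq_mul]
  obtain ⟨d, hd⟩ : ∃ d, dC n = d + 1 := ⟨dC n - 1, by have := dC_pos n; omega⟩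
  rw [hd, Nat.add_sub_cancel]
  ring

/-- the orthogonal projection of `Ψ_y^{-1} p`: every vector is `Ψ_y ω + a j(y)` -/
theorem exists_V0 {y : Eu (n + 1)} (hy : ‖y‖ = 1) (p : VV n) :
    ∃ (w : V0 n) (a : ℝ), p = Psi n y (w : VV n) + a • jj y := by
  have hinj : Function.Injective (Psi n y) := by
    rw [injective_iff_map_eq_zero]
    intro v hv
    have := norm_Psi y v
    rw [hv, norm_zero, hy, one_mul] at this
    exact norm_eq_zero.1 this.symm
  have hsurj : Function.Surjective (Psi n y) := LinearMap.injective_iff_surjective.1 hinj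
  obtain ⟨q, hq⟩ := hsurj p
  have hw : q - ⟪s0 n, q⟫_ℝ • s0 n ∈ (ℝ ∙ s0 n)ᗮ := by
    rw [Submodule.mem_orthogonal_singleton_iff_inner_right, inner_sub_right,
      real_inner_smul_right, real_inner_self_eq_norm_sq, norm_s0]
    ring
  refine ⟨⟨_, hw⟩, ⟪s0 n, q⟫_ℝ, ?_⟩
  rw [jj_apply, ← hq, map_sub, map_smul, sub_add_cancel]

theorem complete0 (y : Eu (n + 1)) (hy : ‖y‖ = 1) (q : HH n) :
    ∃ w a c, q = Ps0 n y w + tens0 n (jj y) a + incl0 n c := by
  choose w a h using fun i => exists_V0 hy (pH i q)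
  refine ⟨WithLp.toLp 2 w, WithLp.toLp 2 a, cH q, ?_⟩
  rw [Ps0_apply, tens0_apply, incl0_apply, ← mkH_add, ← mkH_add]
  refine HH_ext (fun i => ?_) ?_
  · rw [h i, pH_mkH]
    simp
  · simp

end Inst

/-- With `V = ℝᵈ` the Clifford module, `s₀` a unit vector, `W = (s₀ᗮ)ᵇ`, `H = Vᵇ ⊕ ℝⁿ`, `b = 2 (n + 1)`. -/
theorem exists_CDat (n : ℕ) : ∃ d k : ℕ, Even k ∧
    Nonempty (CDat n (Eu d) (Eu k) (Eu (k + 3 * n + 2))) := by
  refine ⟨dC n, 2 * (n + 1) * (dC n - 1), ?_, ?_⟩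
  · rw [mul_assoc]; exact even_two_mul _
  · exact CDat.transport jj (tens0 n) (incl0 n) (Ps0 n) inner_jj
      (fun p p' a a' => by
        rw [tens0_apply, tens0_apply, inner_HH, inner_RB]
        simp only [pH_mkH, cH_mkH, inner_zero_left, add_zero, real_inner_smul_left,
          real_inner_smul_right]
        rw [Finset.mul_sum]
        exact Finset.sum_congr rfl fun i _ => by ring)
      (fun c c' => by
        rw [incl0_apply, incl0_apply, inner_HH]
        simp)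
      (fun p a c => by
        rw [tens0_apply, incl0_apply, inner_HH]
        simp)
      (fun y w w' => by
        rw [Ps0_apply, Ps0_apply, inner_HH, inner_WW, Finset.mul_sum]
        simp only [pH_mkH, cH_mkH, inner_zero_left, add_zero, inner_Psi])
      (fun y w a => by
        rw [Ps0_apply, tens0_apply, inner_HH]
        simp only [pH_mkH, cH_mkH, inner_zero_left, add_zero, real_inner_smul_right]
        refine Finset.sum_eq_zero fun i _ => ?_
        rw [real_inner_comm, inner_jj_Psi, mul_zero])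
      (fun y w c => by
        rw [Ps0_apply, incl0_apply, inner_HH]
        simp)
      complete0
      (((stdOrthonormalBasis ℝ (WW n)).reindex (finCongr (finrank_WW n))).repr.symm)
      (((stdOrthonormalBasis ℝ (HH n)).reindex (finCongr (finrank_HH n))).repr)

end Pool.Agent.helper8.MC
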