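import Pool.Agent.helper8.MC.CDat

/-!
# MC: the linear algebra of the immersion in codimension one
-/

open scoped Manifold ContDiff Topology InnerProductSpace

noncomputable section

namespace Pool.Agent.helper8.MC

variable {n : ℕ} {V W H : Type} [NormedAddCommGroup V] [InnerProductSpace ℝ V]
  [NormedAddCommGroup W] [InnerProductSpace ℝ W] [NormedAddCommGroup H] [InnerProductSpace ℝ H]

/-- the second step, when `y' = 0` -/
theorem codim_alg_aux (D : CDat n V W H) {y : Eu (n + 1)} (hy : ‖y‖ = 1)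
    {F' : Eu (n + 1)} {v v' : W × (ℝ × Eu n)} (hv : ip v v = 1)
    (hvv' : ip v v' = 0) {r r' : ℝ} (hr : 0 < r) (hr' : r' = ⟪F', y⟫_ℝ)
    {cc' : Eu (n + 1)}
    (hcc' : cc' = F' - r' • y + (r' * v.2.1 + r * v'.2.1) • y)
    {lam : ℝ}
    (h : (1 / 4 : ℝ) • ((r' • D.Ps y v.1 + r • D.Ps y v'.1) + D.tens (D.j y) (cat 0 cc') +
        (r' • D.incl v.2.2 + r • D.incl v'.2.2)) = lam • D.D1) :
    F' = 0 ∧ v' = 0 := by
  have hyy : ⟪y, y⟫_ℝ = 1 := by rw [real_inner_self_eq_norm_sq, hy]; norm_num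
  -- lam = 0
  have h1 := congrArg (fun q => ⟪q, D.tens (D.j y) (cat y 0)⟫_ℝ) h
  simp only [inner_add_left, real_inner_smul_left, D.Ps_tens, D.incl_tens, D.inner_tens,
    D.inner_j, inner_cat, inner_zero_left, inner_zero_right, D.inner_D1, hyy] at h1
  have hlam : lam = 0 := by linarith
  rw [hlam, zero_smul, smul_eq_zero] at h
  have h2 := h.resolve_left (by norm_num)
  have h3 : D.Ps y (r' • v.1 + r • v'.1) + D.tens (D.j y) (cat 0 cc') +
      D.incl (r' • v.2.2 + r • v'.2.2) = 0 := by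
    rw [← h2]; simp only [map_add, map_smul]
  have h4 := congrArg (fun q => ⟪q, q⟫_ℝ) h3
  rw [inner_zero_left] at h4
  have h5 : ⟪D.Ps y (r' • v.1 + r • v'.1) + D.tens (D.j y) (cat 0 cc') +
      D.incl (r' • v.2.2 + r • v'.2.2), D.Ps y (r' • v.1 + r • v'.1) +
      D.tens (D.j y) (cat 0 cc') + D.incl (r' • v.2.2 + r • v'.2.2)⟫_ℝ =
      ‖r' • v.1 + r • v'.1‖ ^ 2 + ‖cc'‖ ^ 2 + ‖r' • v.2.2 + r • v'.2.2‖ ^ 2 := by
    generalize r' • v.1 + r • v'.1 = a1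
    generalize r' • v.2.2 + r • v'.2.2 = a2
    simp only [inner_add_left, inner_add_right, D.inner_Ps, D.Ps_tens, D.tens_Ps, D.Ps_incl,
      D.incl_Ps, D.tens_incl, D.incl_tens, D.inner_tens, D.inner_incl, D.inner_j, hyy, hy,
      real_inner_self_eq_norm_sq, norm_cat, norm_zero]
    ring
  have h6 : ‖r' • v.1 + r • v'.1‖ ^ 2 + ‖cc'‖ ^ 2 + ‖r' • v.2.2 + r • v'.2.2‖ ^ 2 = 0 := by
    rw [← h5]; exact h4
  have e1 : r' • v.1 + r • v'.1 = 0 := by
    have : ‖r' • v.1 + r • v'.1‖ ^ 2 = 0 := by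
      have a := sq_nonneg ‖cc'‖
      have b := sq_nonneg ‖r' • v.2.2 + r • v'.2.2‖
      have c := sq_nonneg ‖r' • v.1 + r • v'.1‖
      linarith
    simpa using this
  have e2 : cc' = 0 := by
    have : ‖cc'‖ ^ 2 = 0 := by
      have a := sq_nonneg ‖cc'‖
      have b := sq_nonneg ‖r' • v.2.2 + r • v'.2.2‖
      have c := sq_nonneg ‖r' • v.1 + r • v'.1‖
      linarith
    simpa using this
  have e3 : r' • v.2.2 + r • v'.2.2 = 0 := by
    have : ‖r' • v.2.2 + r • v'.2.2‖ ^ 2 = 0 := by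
      have a := sq_nonneg ‖cc'‖
      have b := sq_nonneg ‖r' • v.2.2 + r • v'.2.2‖
      have c := sq_nonneg ‖r' • v.1 + r • v'.1‖
      linarith
    simpa using this
  -- the `z` component
  have e4 : r' * v.2.1 + r * v'.2.1 = 0 := by
    have := congrArg (fun q => ⟪q, y⟫_ℝ) (hcc'.symm.trans e2)
    simp only [inner_add_left, inner_sub_left, real_inner_smul_left, hyy, inner_zero_left,
      ← hr'] at this
    linarith
  -- `r' = 0`
  have e5 : r' = 0 := by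
    have a1 := congrArg (fun q => ⟪q, v.1⟫_ℝ) e1
    have a3 := congrArg (fun q => ⟪q, v.2.2⟫_ℝ) e3
    simp only [inner_add_left, real_inner_smul_left, inner_zero_left] at a1 a3
    have b1 := hv
    have b2 := hvv'
    unfold ip at b1 b2
    rw [real_inner_comm] at b2
    have b3 : ⟪v.2.2, v'.2.2⟫_ℝ = ⟪v'.2.2, v.2.2⟫_ℝ := real_inner_comm _ _
    rw [b3] at b2
    linear_combination a1 + a3 + v.2.1 * e4 - r' * b1 - r * b2
  rw [e5] at e1 e3 e4
  simp only [zero_smul, zero_add, zero_mul, smul_eq_zero, mul_eq_zero, hr.ne', false_or] at e1 e3 e4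
  refine ⟨?_, Prod.ext e1 (Prod.ext e4 e3)⟩
  rw [e2, e5, e4] at hcc'
  simpa using hcc'.symm

/-- L1: the linear algebra of the immersion. `F, F'` stand for `f(s)` and its derivative. -/
theorem codim_alg (D : CDat n V W H) {y y' : Eu (n + 1)} (hy : ‖y‖ = 1) (hyy' : ⟪y, y'⟫_ℝ = 0)
    {F F' : Eu (n + 1)} (hF : ‖F‖ ≤ 1 / 2) {v v' : W × (ℝ × Eu n)} (hv : ip v v = 1)
    (hvv' : ip v v' = 0) {r r' : ℝ} (hr : r = 1 + ⟪F, y⟫_ℝ) (hr' : r' = ⟪F', y⟫_ℝ + ⟪F, y'⟫_ℝ)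
    {cc cc' : Eu (n + 1)}
    (hcc' : cc' = F' - r' • y - ⟪F, y⟫_ℝ • y' + (r' * v.2.1 + r * v'.2.1) • y + (r * v.2.1) • y')
    {lam : ℝ}
    (h : D.tens (D.j y') (cat y 0) + D.tens (D.j y) (cat y' 0) + (1 / 4 : ℝ) •
      ((r' • D.Ps y v.1 + r • (D.Ps y' v.1 + D.Ps y v'.1)) +
        (D.tens (D.j y') (cat 0 cc) + D.tens (D.j y) (cat 0 cc')) +
        (r' • D.incl v.2.2 + r • D.incl v'.2.2)) = lam • D.D1) :
    y' = 0 ∧ F' = 0 ∧ v' = 0 := by
  have hyy : ⟪y, y⟫_ℝ = 1 := by rw [real_inner_self_eq_norm_sq, hy]; norm_num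
  have hy'y : ⟪y', y⟫_ℝ = 0 := by rw [real_inner_comm]; exact hyy'
  have hFy : |⟪F, y⟫_ℝ| ≤ 1 / 2 := by
    have := abs_real_inner_le_norm F y
    rw [hy, mul_one] at this
    exact this.trans hF
  have hr1 : 1 / 2 ≤ r := by rw [hr]; linarith [(abs_le.1 hFy).1]
  have hr2 : r ≤ 3 / 2 := by rw [hr]; linarith [(abs_le.1 hFy).2]
  -- y' = 0
  have h1 := congrArg (fun q => ⟪q, D.tens (D.j y) (cat y' 0)⟫_ℝ) h
  simp only [inner_add_left, real_inner_smul_left, D.Ps_tens, D.incl_tens, D.inner_tens,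
    D.inner_j, inner_cat, inner_zero_left, inner_zero_right, D.inner_D1, hyy, hyy', hy'y] at h1
  have hb : |⟪D.Ps y' v.1, D.tens (D.j y) (cat y' 0)⟫_ℝ| ≤ ‖y'‖ ^ 2 := by
    refine (abs_real_inner_le_norm _ _).trans ?_
    rw [D.norm_Ps, D.norm_tens, D.norm_j, hy, one_mul]
    have c1 : ‖cat y' 0‖ = ‖y'‖ := by
      have := norm_cat y' (0 : Eu (n + 1))
      rw [norm_zero] at this
      have h' : ‖cat y' 0‖ ^ 2 = ‖y'‖ ^ 2 := by rw [this]; ring
      exact (sq_eq_sq₀ (norm_nonneg _) (norm_nonneg _)).1 h'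
    have c2 : ‖v.1‖ ≤ 1 := by
      have := ip_self v
      rw [hv] at this
      nlinarith [sq_nonneg v.2.1, sq_nonneg ‖v.2.2‖, norm_nonneg v.1]
    rw [c1]
    nlinarith [norm_nonneg y', norm_nonneg v.1, mul_nonneg (norm_nonneg y') (norm_nonneg y')]
  have hy'0 : y' = 0 := by
    have e : ⟪y', y'⟫_ℝ = ‖y'‖ ^ 2 := real_inner_self_eq_norm_sq _
    rw [e] at h1
    have hb' := abs_le.1 hb
    have : ‖y'‖ ^ 2 ≤ 0 := by nlinarith [sq_nonneg ‖y'‖]
    have h0 : ‖y'‖ ^ 2 = 0 := le_antisymm this (sq_nonneg _)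
    simpa using h0
  subst hy'0
  refine ⟨rfl, ?_⟩
  have hr0 : 0 < r := by linarith
  refine codim_alg_aux D hy hv hvv' hr0 (r' := r') ?_ (cc' := cc') ?_ (lam := lam) ?_
  · rw [hr', inner_zero_right, add_zero]
  · rw [hcc']; simp
  · rw [← h]; simp

end Pool.Agent.helper8.MC
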