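import Pool.Agent.helper8.MC.F0Def

/-!
# MC: smoothness
-/

open scoped Manifold ContDiff Topology InnerProductSpace

noncomputable section

namespace Pool.Agent.helper8.MC

variable {n : ℕ} {V W H : Type} [NormedAddCommGroup V] [InnerProductSpace ℝ V]
  [NormedAddCommGroup W] [InnerProductSpace ℝ W] [NormedAddCommGroup H] [InnerProductSpace ℝ H]

theorem contDiffOn_yhat : ContDiffOn ℝ ∞ (fun p : EE n W => ‖p.1‖⁻¹ • p.1) (MM n W) := by
  sorry

theorem contDiffOn_vhat : ContDiffOn ℝ ∞ (fun p : EE n W => (nv p.2.2)⁻¹ • p.2.2) (MM n W) := by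
  sorry

theorem contDiffOn_F0 (D : CDat n V W H) : ContDiffOn ℝ ∞ D.F0 (MM n W) := by
  sorry

theorem contDiffOn_alY : ContDiffOn ℝ ∞ (alY : EE n W → ℝ) (MM n W) := by
  sorry

theorem contDiffOn_beV : ContDiffOn ℝ ∞ (beV : EE n W → ℝ) (MM n W) := by
  sorry

end Pool.Agent.helper8.MC
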