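import Pool.Agent.helper8.MC.CodDef
import Pool.Agent.helper8.MC.F0a

/-!
# MC: smoothness, invariance and size of `gg`
-/

open scoped Manifold ContDiff Topology InnerProductSpace

noncomputable section

namespace Pool.Agent.helper8.MC

variable {n : ℕ} {V W H : Type} [NormedAddCommGroup V] [InnerProductSpace ℝ V]
  [NormedAddCommGroup W] [InnerProductSpace ℝ W] [NormedAddCommGroup H] [InnerProductSpace ℝ H]

theorem contDiffOn_gg (D : CDat n V W H) {f : Eu n → Eu (n + 1)} (hf : ContDiff ℝ ∞ f) :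
    ContDiffOn ℝ ∞ (D.gg f) (MM n W) := by
  sorry

theorem gg_act (D : CDat n V W H) {f : Eu n → Eu (n + 1)} (hper : ∀ s k, f (s + per k) = f s)
    (hodd : ∀ s, f (-s) = -f s) (g : Gam n) {p : EE n W} (hp : p ∈ MM n W) :
    D.gg f (gamAct g p) = D.gg f p := by
  sorry

theorem norm_gg_le (D : CDat n V W H) {f : Eu n → Eu (n + 1)} (hb : ∀ s, ‖f s‖ ≤ 1 / 2)
    {p : EE n W} (hp : p ∈ MM n W) : ‖D.gg f p‖ ≤ 10 := by
  sorry

end Pool.Agent.helper8.MC
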