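import Pool.Agent.helper8.MC.F0a

/-!
# MC: invariance, size, derivatives of the logarithms
-/

open scoped Manifold ContDiff Topology InnerProductSpace

noncomputable section

namespace Pool.Agent.helper8.MC

variable {n : ℕ} {V W H : Type} [NormedAddCommGroup V] [InnerProductSpace ℝ V]
  [NormedAddCommGroup W] [InnerProductSpace ℝ W] [NormedAddCommGroup H] [InnerProductSpace ℝ H]

theorem F0_act (D : CDat n V W H) (g : Gam n) {p : EE n W} (hp : p ∈ MM n W) :
    D.F0 (gamAct g p) = D.F0 p := by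
  sorry

theorem norm_F0_le (D : CDat n V W H) {p : EE n W} (hp : p ∈ MM n W) :
    ‖D.F0 p‖ ≤ Real.sqrt (2 * n) + 1 := by
  sorry

theorem alY_act (g : Gam n) {p : EE n W} (hp : p ∈ MM n W) :
    alY (gamAct g p) = alY p + 2 * Real.pi * (g.i : ℝ) := by
  sorry

theorem beV_act (g : Gam n) {p : EE n W} (hp : p ∈ MM n W) :
    beV (gamAct g p) = beV p + 2 * Real.pi * (g.l : ℝ) := by
  sorry

theorem fderiv_alY {p : EE n W} (hp : p ∈ MM n W) (w : EE n W) :
    fderiv ℝ (alY : EE n W → ℝ) p w = ⟪p.1, w.1⟫_ℝ / ‖p.1‖ ^ 2 := by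
  sorry

theorem fderiv_beV {p : EE n W} (hp : p ∈ MM n W) (w : EE n W) :
    fderiv ℝ (beV : EE n W → ℝ) p w = ip p.2.2 w.2.2 / ip p.2.2 p.2.2 := by
  sorry

/-- radial directions -/
theorem fderiv_F0_y (D : CDat n V W H) {p : EE n W} (hp : p ∈ MM n W) :
    fderiv ℝ D.F0 p (p.1, 0) = 0 := by
  sorry

theorem fderiv_F0_v (D : CDat n V W H) {p : EE n W} (hp : p ∈ MM n W) :
    fderiv ℝ D.F0 p (0, 0, p.2.2) = 0 := by
  sorry

end Pool.Agent.helper8.MC
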