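import Pool.Agent.helper8.MC.CodB
import Pool.Agent.helper8.MC.CodA
import Pool.Agent.helper8.MC.F0b

/-!
# MC: the immersion property of `gg`
-/

open scoped Manifold ContDiff Topology InnerProductSpace

noncomputable section

namespace Pool.Agent.helper8.MC

variable {n : ℕ} {V W H : Type} [NormedAddCommGroup V] [InnerProductSpace ℝ V]
  [NormedAddCommGroup W] [InnerProductSpace ℝ W] [NormedAddCommGroup H] [InnerProductSpace ℝ H]

theorem codC_rho {A B : ℝ} (hA : 0 < A) :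
    HasDerivAt (fun t : ℝ => (Real.sqrt (A + t ^ 2 * B))⁻¹) 0 0 := by
  have h1 : HasDerivAt (fun t : ℝ => A + t ^ 2 * B) 0 0 := by
    have h := ((hasDerivAt_pow 2 (0 : ℝ)).mul_const B).const_add A
    simpa using h
  have hne : A + (0 : ℝ) ^ 2 * B ≠ 0 := by
    simp [hA.ne']
  have h2 := h1.sqrt hne
  have h3 : HasDerivAt (fun t : ℝ => Real.sqrt (A + t ^ 2 * B)) 0 0 := by
    simpa using h2
  have h4 : Real.sqrt (A + (0 : ℝ) ^ 2 * B) ≠ 0 := by
    have : 0 < Real.sqrt (A + (0 : ℝ) ^ 2 * B) := Real.sqrt_pos.2 (by simpa using hA)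
    exact this.ne'
  have h5 := h3.fun_inv h4
  rw [neg_zero, zero_div] at h5
  exact h5

theorem codC_line {X : Type*} [NormedAddCommGroup X] [NormedSpace ℝ X] {A B : ℝ} (hA : 0 < A)
    (x w : X) :
    HasDerivAt (fun t : ℝ => (Real.sqrt (A + t ^ 2 * B))⁻¹ • (x + t • w))
      ((Real.sqrt A)⁻¹ • w) 0 := by
  have h1 : HasDerivAt (fun t : ℝ => x + t • w) w 0 := by
    have h := ((hasDerivAt_id (0 : ℝ)).smul_const w).const_add x
    simpa using h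
  have h2 : HasDerivAt (fun t : ℝ => (Real.sqrt (A + t ^ 2 * B))⁻¹ • (x + t • w)) _ 0 :=
    (codC_rho (B := B) hA).smul h1
  convert h2 using 1
  simp

theorem codC_cat {a b : ℝ → Eu (n + 1)} {a' b' : Eu (n + 1)} {t : ℝ} (ha : HasDerivAt a a' t)
    (hb : HasDerivAt b b' t) : HasDerivAt (fun t => cat (a t) (b t)) (cat a' b') t := by
  have h := (catL n).hasFDerivAt.comp_hasDerivAt t (ha.prodMk hb)
  exact h

/-- the derivative of `g0` along a curve -/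
theorem hasDerivAt_g0 (D : CDat n V W H) (f : Eu n → Eu (n + 1)) {Y : ℝ → Eu (n + 1)}
    {S : ℝ → Eu n} {v : ℝ → W × (ℝ × Eu n)} {y' F' : Eu (n + 1)} {v' : W × (ℝ × Eu n)}
    (hY : HasDerivAt Y y' 0) (hF : HasDerivAt (fun t => f (S t)) F' 0) (hv : HasDerivAt v v' 0)
    {r' : ℝ} (hr' : r' = ⟪F', Y 0⟫_ℝ + ⟪f (S 0), y'⟫_ℝ) {cc' : Eu (n + 1)}
    (hcc' : cc' = F' - r' • Y 0 - ⟪f (S 0), Y 0⟫_ℝ • y' +
      (r' * (v 0).2.1 + rr f (Y 0) (S 0) * v'.2.1) • Y 0 + (rr f (Y 0) (S 0) * (v 0).2.1) • y') :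
    HasDerivAt (fun t => D.g0 f (Y t) (S t) (v t))
      (D.tens (D.j y') (cat (Y 0) 0) + D.tens (D.j (Y 0)) (cat y' 0) + (1 / 4 : ℝ) •
        ((r' • D.Ps (Y 0) (v 0).1 + rr f (Y 0) (S 0) • (D.Ps y' (v 0).1 + D.Ps (Y 0) v'.1)) +
          (D.tens (D.j y') (cat 0 (ccv f (Y 0) (S 0) (v 0).2.1)) + D.tens (D.j (Y 0)) (cat 0 cc')) +
          (r' • D.incl (v 0).2.2 + rr f (Y 0) (S 0) • D.incl v'.2.2))) 0 := by
  have hv1 : HasDerivAt (fun t => (v t).1) v'.1 0 :=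
    (ContinuousLinearMap.fst ℝ W (ℝ × Eu n)).hasFDerivAt.comp_hasDerivAt 0 hv
  have hv2 : HasDerivAt (fun t => (v t).2) v'.2 0 :=
    (ContinuousLinearMap.snd ℝ W (ℝ × Eu n)).hasFDerivAt.comp_hasDerivAt 0 hv
  have hv21 : HasDerivAt (fun t => (v t).2.1) v'.2.1 0 :=
    (ContinuousLinearMap.fst ℝ ℝ (Eu n)).hasFDerivAt.comp_hasDerivAt 0 hv2
  have hv22 : HasDerivAt (fun t => (v t).2.2) v'.2.2 0 :=
    (ContinuousLinearMap.snd ℝ ℝ (Eu n)).hasFDerivAt.comp_hasDerivAt 0 hv2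
  have hin : HasDerivAt (fun t => ⟪f (S t), Y t⟫_ℝ) r' 0 := by
    have h := hF.inner ℝ hY
    rw [hr', add_comm ⟪F', Y 0⟫_ℝ]
    exact h
  have hr : HasDerivAt (fun t => rr f (Y t) (S t)) r' 0 := by
    have h := hin.const_add 1
    exact h
  have hj : HasDerivAt (fun t => D.j (Y t)) (D.j y') 0 := D.j.hasFDerivAt.comp_hasDerivAt 0 hY
  have htj : HasDerivAt (fun t => D.tens (D.j (Y t))) (D.tens (D.j y')) 0 :=
    D.tens.hasFDerivAt.comp_hasDerivAt 0 hj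
  have h0 : HasDerivAt (fun _ : ℝ => (0 : Eu (n + 1))) 0 0 := hasDerivAt_const _ _
  have hcc : HasDerivAt (fun t => ccv f (Y t) (S t) (v t).2.1) cc' 0 := by
    have h1 := (hF.sub (hin.smul hY)).add ((hr.mul hv21).smul hY)
    have h2 : HasDerivAt (fun t => ccv f (Y t) (S t) (v t).2.1) _ 0 := h1
    rw [hcc']
    convert h2 using 1
    abel
  have hPs : HasDerivAt (fun t => D.Ps (Y t)) (D.Ps y') 0 := D.Ps.hasFDerivAt.comp_hasDerivAt 0 hY
  have t1 := htj.clm_apply (codC_cat hY h0)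
  have t2 := hr.smul (hPs.clm_apply hv1)
  have t3 := htj.clm_apply (codC_cat h0 hcc)
  have t4 := hr.smul (D.incl.hasFDerivAt.comp_hasDerivAt 0 hv22)
  have h := t1.add (((t2.add t3).add t4).const_smul (1 / 4 : ℝ))
  have h' : HasDerivAt (fun t => D.g0 f (Y t) (S t) (v t)) _ 0 := h
  convert h' using 1
  have e : (⇑D.incl ∘ fun t => (v t).2.2) 0 = D.incl (v 0).2.2 := rfl
  rw [e, add_comm (r' • D.Ps (Y 0) (v 0).1), add_comm (r' • D.incl (v 0).2.2)]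

/-- L2: the immersion property modulo `D₁` -/
theorem gg_inj (D : CDat n V W H) {f : Eu n → Eu (n + 1)} (hf : ContDiff ℝ ∞ f)
    (hb : ∀ s, ‖f s‖ ≤ 1 / 2) (hinj : ∀ s, Function.Injective (fderiv ℝ f s)) {p : EE n W}
    (hp : p ∈ MM n W) (w : EE n W) {lam : ℝ} (h : fderiv ℝ (D.gg f) p w = lam • D.D1)
    (h1 : ⟪p.1, w.1⟫_ℝ = 0) (h2 : ip p.2.2 w.2.2 = 0) : w = 0 := by
  have hp1 : p.1 ≠ 0 := hp.1
  have hp2 : p.2.2 ≠ 0 := hp.2
  have hN : 0 < ‖p.1‖ := norm_pos_iff.2 hp1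
  have hM : 0 < nv p.2.2 := nv_pos hp2
  -- the derivative along the line
  have hY : HasDerivAt (fun t : ℝ => ‖p.1 + t • w.1‖⁻¹ • (p.1 + t • w.1)) (‖p.1‖⁻¹ • w.1) 0 := by
    have h := codC_line (B := ‖w.1‖ ^ 2) (pow_pos hN 2) p.1 w.1
    rw [Real.sqrt_sq hN.le] at h
    have he : ∀ t : ℝ, ‖p.1 + t • w.1‖ = Real.sqrt (‖p.1‖ ^ 2 + t ^ 2 * ‖w.1‖ ^ 2) := by
      intro t
      rw [eq_comm, Real.sqrt_eq_iff_mul_self_eq (by positivity) (norm_nonneg _), ← sq,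
        norm_add_sq_real, real_inner_smul_right, h1, norm_smul, mul_pow, Real.norm_eq_abs, sq_abs]
      ring
    simp only [he]
    exact h
  have hV : HasDerivAt (fun t : ℝ => (nv (p.2.2 + t • w.2.2))⁻¹ • (p.2.2 + t • w.2.2))
      ((nv p.2.2)⁻¹ • w.2.2) 0 := by
    have h := codC_line (B := ip w.2.2 w.2.2) (pow_pos hM 2) p.2.2 w.2.2
    rw [Real.sqrt_sq hM.le] at h
    have he : ∀ t : ℝ, nv (p.2.2 + t • w.2.2) =
        Real.sqrt (nv p.2.2 ^ 2 + t ^ 2 * ip w.2.2 w.2.2) := by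
      intro t
      rw [nv_sq, nv]
      congr 1
      rw [ip_add_left, ip_add_right, ip_add_right, ip_smul_left, ip_smul_left, ip_smul_right,
        ip_smul_right, ip_comm w.2.2 p.2.2, h2]
      ring
    simp only [he]
    exact h
  have hS : HasDerivAt (fun t : ℝ => p.2.1 + t • w.2.1) w.2.1 0 := by
    have h := ((hasDerivAt_id (0 : ℝ)).smul_const w.2.1).const_add p.2.1
    simpa using h
  have hF : HasDerivAt (fun t : ℝ => f (p.2.1 + t • w.2.1)) (fderiv ℝ f p.2.1 w.2.1) 0 := by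
    have hd : HasFDerivAt f (fderiv ℝ f p.2.1) (p.2.1 + (0 : ℝ) • w.2.1) := by
      rw [zero_smul, add_zero]
      exact ((hf.differentiable (by simp)) _).hasFDerivAt
    exact hd.comp_hasDerivAt 0 hS
  have key := hasDerivAt_g0 D f (S := fun t => p.2.1 + t • w.2.1) hY hF hV rfl rfl
  simp only [zero_smul, add_zero] at key
  have hline : HasDerivAt (fun t : ℝ => p + t • w) w 0 := by
    have h := ((hasDerivAt_id (0 : ℝ)).smul_const w).const_add p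
    simpa using h
  have hd : HasFDerivAt (D.gg f) (fderiv ℝ (D.gg f) p) (p + (0 : ℝ) • w) := by
    rw [zero_smul, add_zero]
    have hopen : MM n W ∈ 𝓝 p := isOpen_gamOpen.mem_nhds hp
    exact (((contDiffOn_gg D hf).contDiffAt hopen).differentiableAt (by simp)).hasFDerivAt
  have hc := hd.comp_hasDerivAt 0 hline
  have huniq := hc.unique key
  rw [h] at huniq
  have hy1 : ‖(‖p.1‖⁻¹ • p.1)‖ = 1 := by
    rw [norm_smul, norm_inv, norm_norm, inv_mul_cancel₀ hN.ne']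
  have hyy : ⟪‖p.1‖⁻¹ • p.1, ‖p.1‖⁻¹ • w.1⟫_ℝ = 0 := by
    rw [real_inner_smul_left, real_inner_smul_right, h1]; simp
  have hv1 : ip ((nv p.2.2)⁻¹ • p.2.2) ((nv p.2.2)⁻¹ • p.2.2) = 1 := by
    rw [ip_smul_left, ip_smul_right, ← nv_sq]
    field_simp
  have hvv : ip ((nv p.2.2)⁻¹ • p.2.2) ((nv p.2.2)⁻¹ • w.2.2) = 0 := by
    rw [ip_smul_left, ip_smul_right, h2]; simp
  obtain ⟨a1, a2, a3⟩ := codim_alg D hy1 hyy (hb p.2.1) hv1 hvv
    (r := rr f (‖p.1‖⁻¹ • p.1) p.2.1) rfl rfl rfl huniq.symm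
  have b1 : w.1 = 0 := by
    rcases smul_eq_zero.1 a1 with h | h
    · exact absurd h (inv_ne_zero hN.ne')
    · exact h
  have b3 : w.2.2 = 0 := by
    rcases smul_eq_zero.1 a3 with h | h
    · exact absurd h (inv_ne_zero hM.ne')
    · exact h
  have b2 : w.2.1 = 0 := by
    apply hinj p.2.1
    rw [a2, map_zero]
  exact Prod.ext b1 (Prod.ext b2 b3)

end Pool.Agent.helper8.MC
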