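import Pool.Agent.helper8.MC.CDat

/-!
# MC: the projection along `D₁`
-/


open scoped Manifold ContDiff Topology InnerProductSpace

noncomputable section

namespace Pool.Agent.helper8.MC

variable {n : ℕ} {V W H : Type} [NormedAddCommGroup V] [InnerProductSpace ℝ V]
  [NormedAddCommGroup W] [InnerProductSpace ℝ W] [NormedAddCommGroup H] [InnerProductSpace ℝ H]

/-- L3: a linear projection whose kernel is a given line -/
theorem exists_proj {N : ℕ} (d : Eu (N + 1)) (hd : d ≠ 0) :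
    ∃ P : Eu (N + 1) →L[ℝ] Eu N, ∀ q, P q = 0 ↔ ∃ lam : ℝ, q = lam • d := by
  have h1 := Submodule.finrank_add_finrank_orthogonal (ℝ ∙ d)
  rw [finrank_span_singleton hd, finrank_euclideanSpace_fin] at h1
  have h2 : Module.finrank ℝ (ℝ ∙ d)ᗮ = Module.finrank ℝ (Eu N) := by
    rw [finrank_euclideanSpace_fin]
    omega
  obtain ⟨e⟩ : Nonempty ((ℝ ∙ d)ᗮ ≃L[ℝ] Eu N) := ⟨ContinuousLinearEquiv.ofFinrankEq h2⟩
  refine ⟨(e : (ℝ ∙ d)ᗮ →L[ℝ] Eu N).comp ((ℝ ∙ d)ᗮ).orthogonalProjectionOnto, fun q => ?_⟩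
  rw [ContinuousLinearMap.comp_apply]
  constructor
  · intro h
    have h3 : ((ℝ ∙ d)ᗮ).orthogonalProjectionOnto q = 0 := by
      apply e.injective
      rw [map_zero]
      exact h
    rw [Submodule.orthogonalProjectionOnto_eq_zero_iff, Submodule.orthogonal_orthogonal] at h3
    obtain ⟨lam, h4⟩ := Submodule.mem_span_singleton.1 h3
    exact ⟨lam, h4.symm⟩
  · rintro ⟨lam, rfl⟩
    have h3 : ((ℝ ∙ d)ᗮ).orthogonalProjectionOnto (lam • d) = 0 := by
      rw [Submodule.orthogonalProjectionOnto_eq_zero_iff, Submodule.orthogonal_orthogonal]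
      exact Submodule.smul_mem _ _ (Submodule.mem_span_singleton_self d)
    rw [h3, map_zero]

theorem D1_ne_zero (D : CDat n V W H) : D.D1 ≠ 0 := by
  intro h
  have h1 := D.inner_D1 (EuclideanSpace.single (0 : Fin (n + 1)) (1 : ℝ))
    (EuclideanSpace.single (0 : Fin (n + 1)) (1 : ℝ)) 0
  rw [h, inner_zero_left, real_inner_self_eq_norm_sq, EuclideanSpace.norm_single] at h1
  norm_num at h1

end Pool.Agent.helper8.MC
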