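import Pool.Agent.helper8.MC.F0Def

/-!
# MC: the immersion in codimension one, definitions
-/

open scoped Manifold ContDiff Topology InnerProductSpace

noncomputable section

namespace Pool.Agent.helper8.MC

variable {n : ℕ} {V W H : Type} [NormedAddCommGroup V] [InnerProductSpace ℝ V]
  [NormedAddCommGroup W] [InnerProductSpace ℝ W] [NormedAddCommGroup H] [InnerProductSpace ℝ H]

/-- `r = 1 + ⟪f(s), y⟫` -/
def rr (f : Eu n → Eu (n + 1)) (y : Eu (n + 1)) (s : Eu n) : ℝ := 1 + ⟪f s, y⟫_ℝ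

/-- the vector in the second block -/
def ccv (f : Eu n → Eu (n + 1)) (y : Eu (n + 1)) (s : Eu n) (z : ℝ) : Eu (n + 1) :=
  f s - ⟪f s, y⟫_ℝ • y + (rr f y s * z) • y

/-- `G₀` before the projection along `D₁`, at unit vectors -/
def CDat.g0 (D : CDat n V W H) (f : Eu n → Eu (n + 1)) (y : Eu (n + 1)) (s : Eu n)
    (v : W × (ℝ × Eu n)) : H :=
  D.tens (D.j y) (cat y 0) + (1 / 4 : ℝ) • (rr f y s • D.Ps y v.1 +
    D.tens (D.j y) (cat 0 (ccv f y s v.2.1)) + rr f y s • D.incl v.2.2)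

/-- `G₀` on the whole space -/
def CDat.gg (D : CDat n V W H) (f : Eu n → Eu (n + 1)) (p : EE n W) : H :=
  D.g0 f (‖p.1‖⁻¹ • p.1) p.2.1 ((nv p.2.2)⁻¹ • p.2.2)

end Pool.Agent.helper8.MC
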