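import Mathlib

/-!
# Minimal curvature of immersions in the unit ball: definitions

`X` is a manifold of dimension `m` (charts in `EuclideanSpace ℝ (Fin m)`), maps go to
`EuclideanSpace ℝ (Fin N)`.
-/

open scoped Manifold ContDiff ENNReal

noncomputable section

namespace Pool.Agent.helper8.MC

/-- Euclidean space of dimension `m`. -/
abbrev Eu (m : ℕ) : Type := EuclideanSpace ℝ (Fin m)

variable (m : ℕ) {N : ℕ} {X : Type*} [TopologicalSpace X] [ChartedSpace (Eu m) X]

/-- The derivative of `f : X → Eu N` at `x`, a linear map from the tangent space of `X` at `x` (which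
Mathlib identifies with `Eu m`) to `Eu N`. -/
abbrev dAt (f : X → Eu N) (x : X) : Eu m →L[ℝ] Eu N :=
  mfderiv (𝓡 m) 𝓘(ℝ, Eu N) f x

/-- `f` is a smooth immersion of the `m`-manifold `X` in the Euclidean space of dimension `N`. -/
structure IsImm (f : X → Eu N) : Prop where
  smooth : ContMDiff (𝓡 m) 𝓘(ℝ, Eu N) ∞ f
  inj : ∀ x : X, Function.Injective (dAt m f x)

/-- The tangent space `df_x(T_x X)` of the immersion `f` at `x`, a subspace of the Euclidean
space. -/
def tanSp (f : X → Eu N) (x : X) : Submodule ℝ (Eu N) :=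
  LinearMap.range (dAt m f x).toLinearMap

/-- The component of the acceleration of the curve `f ∘ γ` at time `0` that is orthogonal to the
tangent space of `f` at `γ 0`. It depends only on `v = γ'(0)` and is `II_f(v, v)`, where `II_f` is the
second fundamental form of `f` (with respect to the induced metric). -/
def normAcc (f : X → Eu N) (γ : ℝ → X) : Eu N :=
  ((tanSp m f (γ 0))ᗮ).starProjection (iteratedDeriv 2 (f ∘ γ) 0)

/-- The curvature of `f`: the supremum of `‖II_f(v, v)‖` over all points and all tangent vectors `v`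
of length one (in the induced metric); the vectors `v` are the velocities at time `0` of the smooth
curves `γ` in `X` for which `f ∘ γ` has speed one at time `0`. -/
def curv (f : X → Eu N) : ℝ≥0∞ :=
  ⨆ (γ : ℝ → X) (_ : ContMDiff 𝓘(ℝ, ℝ) (𝓡 m) ∞ γ) (_ : ‖deriv (f ∘ γ) 0‖ = 1),
    ENNReal.ofReal ‖normAcc m f γ‖

variable (X)

/-- The infimum of the curvatures of the immersions of `X` in the closed unit ball of dimension `N`
(`⊤` if there is none). -/
def minCurv (N : ℕ) : ℝ≥0∞ :=
  ⨅ (f : X → Eu N) (_ : IsImm m f) (_ : ∀ x, ‖f x‖ ≤ 1), curv m f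

/-- The ratio `ρ(X, M)`. -/
def rho (M : ℕ) : ℝ≥0∞ := minCurv m X M / minCurv m X (M + 1)

end Pool.Agent.helper8.MC
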