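import Pool.Agent.helper8.MC.CDat

/-!
# MC: the map `F₀`
-/

open scoped Manifold ContDiff Topology InnerProductSpace

noncomputable section

namespace Pool.Agent.helper8.MC

variable {n : ℕ} {V W H : Type} [NormedAddCommGroup V] [InnerProductSpace ℝ V]
  [NormedAddCommGroup W] [InnerProductSpace ℝ W] [NormedAddCommGroup H] [InnerProductSpace ℝ H]

/-- the open set of all `(y, s, v)` with `y ≠ 0` and `v ≠ 0` -/
abbrev MM (n : ℕ) (W : Type) [NormedAddCommGroup W] [InnerProductSpace ℝ W] : Set (EE n W) :=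
  gamOpen n (Eu (n + 1)) W (ℝ × Eu n)

/-- `F₀ = φ(ŷ, s) + (1 / 10) Θ_{(ŷ, s)} (v̂)` -/
def CDat.F0 (D : CDat n V W H) (p : EE n W) : H :=
  D.phi (‖p.1‖⁻¹ • p.1) p.2.1 + (1 / 10 : ℝ) • D.Th (‖p.1‖⁻¹ • p.1) p.2.1 ((nv p.2.2)⁻¹ • p.2.2)

/-- the two logarithms -/
def alY (p : EE n W) : ℝ := Real.log ‖p.1‖
def beV (p : EE n W) : ℝ := Real.log (nv p.2.2)

end Pool.Agent.helper8.MC
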