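import Pool.Agent.helper8.MC.Defs

/-!
# Auxiliary definitions on open sets of Euclidean spaces
-/

open scoped Manifold ContDiff ENNReal

noncomputable section

namespace Pool.Agent.helper8.MC

/-- The map `f` written in the preferred chart at `x`. -/
def inChart (m : ℕ) {N : ℕ} {X : Type*} [TopologicalSpace X] [ChartedSpace (Eu m) X]
    (f : X → Eu N) (x : X) : Eu m → Eu N :=
  fun z => f ((extChartAt (𝓡 m) x).symm z)

variable {m N : ℕ}

/-- The normal component of `D²g(v, v)` at `z`, for a map `g` between Euclidean spaces. -/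
def nII (g : Eu m → Eu N) (z v : Eu m) : Eu N :=
  ((LinearMap.range (fderiv ℝ g z).toLinearMap)ᗮ).starProjection
    (fderiv ℝ (fun z' => fderiv ℝ g z' v) z v)

/-- The curvature of `g` on `Ω` is at most `c`. -/
def CurvLE (g : Eu m → Eu N) (Ω : Set (Eu m)) (c : ℝ) : Prop :=
  ∀ z ∈ Ω, ∀ v : Eu m, ‖nII g z v‖ ≤ c * ‖fderiv ℝ g z v‖ ^ 2

/-- `g` is a smooth immersion on `Ω`. -/
structure FlatImm (g : Eu m → Eu N) (Ω : Set (Eu m)) : Prop where
  smooth : ContDiffOn ℝ ∞ g Ω
  inj : ∀ z ∈ Ω, Function.Injective (fderiv ℝ g z)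

/-- The action of the group `G` on the open set `Ω` is by restrictions of affine isomorphisms of the
Euclidean space. -/
structure AffAct (m : ℕ) (G : Type) [Group G] (Ω : TopologicalSpace.Opens (Eu m))
    [MulAction G Ω] where
  /-- the linear part -/
  A : G → (Eu m ≃L[ℝ] Eu m)
  /-- the translation part -/
  c : G → Eu m
  smul_eq : ∀ (g : G) (x : Ω), ((g • x : Ω) : Eu m) = A g x + c g

end Pool.Agent.helper8.MC
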