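import Pool.Agent.helper8.MC.Flat

/-!
# MC-G: the gradient field of a linear function on an immersed hypersurface
-/

open scoped Manifold ContDiff Topology InnerProductSpace

noncomputable section

namespace Pool.Agent.helper8.MC

variable {m : ℕ} {G : Type} [Group G] {Ω : TopologicalSpace.Opens (Eu m)} [MulAction G Ω]

/-- The adjoint as a continuous linear map (real scalars). -/
def Grad_adj (m n : ℕ) : (Eu m →L[ℝ] Eu n) →L[ℝ] (Eu n →L[ℝ] Eu m) :=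
  LinearMap.mkContinuous
    { toFun := fun L => ContinuousLinearMap.adjoint L
      map_add' := fun L M => map_add _ L M
      map_smul' := fun r L => by
        rw [map_smulₛₗ]; simp } 1 (fun L => by
        simp)

theorem Grad_adj_apply (m n : ℕ) (L : Eu m →L[ℝ] Eu n) :
    Grad_adj m n L = ContinuousLinearMap.adjoint L := rfl

theorem Grad_adj_inner (m n : ℕ) (L : Eu m →L[ℝ] Eu n) (w : Eu n) (v : Eu m) :
    ⟪Grad_adj m n L w, v⟫_ℝ = ⟪w, L v⟫_ℝ := by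
  rw [Grad_adj_apply, ContinuousLinearMap.adjoint_inner_left]

theorem Grad_gram_inj (m n : ℕ) (L : Eu m →L[ℝ] Eu n) (hL : Function.Injective L) :
    Function.Injective ((Grad_adj m n L).comp L) := by
  rw [injective_iff_map_eq_zero]
  intro v hv
  have h1 : ⟪Grad_adj m n L (L v), v⟫_ℝ = 0 := by
    have : Grad_adj m n L (L v) = 0 := hv
    rw [this, inner_zero_left]
  rw [Grad_adj_inner, real_inner_self_eq_norm_sq] at h1
  have h2 : L v = 0 := by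
    rw [← norm_eq_zero]; exact pow_eq_zero_iff (two_ne_zero) |>.1 h1
  exact hL (by rw [h2, map_zero])

/-- The Gram operator as a continuous linear equivalence. -/
def Grad_gram (m n : ℕ) (L : Eu m →L[ℝ] Eu n) (hL : Function.Injective L) : Eu m ≃L[ℝ] Eu m :=
  (LinearEquiv.ofInjectiveEndo (((Grad_adj m n L).comp L : Eu m →L[ℝ] Eu m) : Eu m →ₗ[ℝ] Eu m)
    (Grad_gram_inj m n L hL)).toContinuousLinearEquiv

theorem Grad_gram_coe (m n : ℕ) (L : Eu m →L[ℝ] Eu n) (hL : Function.Injective L) :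
    (Grad_gram m n L hL : Eu m →L[ℝ] Eu m) = (Grad_adj m n L).comp L := by
  ext v : 1
  rfl

/-- A unit normal decomposes the ambient space. -/
theorem Grad_mem_range (L : Eu m →L[ℝ] Eu (m + 1)) (hL : Function.Injective L)
    (ν : Eu (m + 1)) (h1 : ‖ν‖ = 1) (h2 : ∀ v, ⟪ν, L v⟫_ℝ = 0) (e : Eu (m + 1)) :
    ∃ u, L u = e - ⟪ν, e⟫_ℝ • ν := by
  set R : Submodule ℝ (Eu (m + 1)) := LinearMap.range (L : Eu m →ₗ[ℝ] Eu (m + 1)) with hR
  have hνR : ν ∈ Rᗮ := by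
    rw [Submodule.mem_orthogonal']
    rintro _ ⟨v, rfl⟩
    exact h2 v
  have hfin : Module.finrank ℝ R = m := by
    rw [hR, LinearMap.finrank_range_of_inj (by exact hL)]
    simp
  have hsum := Submodule.finrank_add_finrank_orthogonal R
  rw [finrank_euclideanSpace_fin, hfin] at hsum
  have hone : Module.finrank ℝ Rᗮ = 1 := by omega
  have hν0 : ν ≠ 0 := by
    intro h; rw [h, norm_zero] at h1; exact zero_ne_one h1
  have hspan : ∀ w ∈ Rᗮ, ∃ c : ℝ, c • ν = w := by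
    intro w hw
    have h3 : (⟨ν, hνR⟩ : Rᗮ) ≠ 0 := by
      intro h; exact hν0 (congrArg Subtype.val h)
    obtain ⟨c, hc⟩ := (finrank_eq_one_iff_of_nonzero' (⟨ν, hνR⟩ : Rᗮ) h3).1 hone ⟨w, hw⟩
    exact ⟨c, congrArg Subtype.val hc⟩
  have hmem : e - ⟪ν, e⟫_ℝ • ν ∈ Rᗮᗮ := by
    rw [Submodule.mem_orthogonal]
    intro w hw
    obtain ⟨c, rfl⟩ := hspan w hw
    rw [inner_smul_left, inner_sub_right, inner_smul_right, real_inner_self_eq_norm_sq, h1]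
    simp
  rw [Submodule.orthogonal_orthogonal] at hmem
  obtain ⟨u, hu⟩ := hmem
  exact ⟨u, hu⟩

/-- PROOF. Let `L z = fderiv ℝ g z` (injective, `z ∈ Ω`), `U z = (L* L)⁻¹ (L* e)` with `L*` the
adjoint (`ContinuousLinearMap.adjoint`), inverse as in `ContinuousLinearMap.inverse` (smooth at
invertible maps: `ContDiffAt.inverse` / `contDiffAt_map_inverse`); `L* L` is invertible as `L` is
injective. So `U` is smooth on `Ω`. `w := e - ⟪ν, e⟫ ν` is orthogonal to `ν`, the range of `L` has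
dimension `m` and is orthogonal to the unit vector `ν`, so it is the orthogonal complement of `ν` in
the space of dimension `m + 1`, and `w = L u` for some `u`; `L* e = L* w` as `L* ν = 0`, so
`U = u`. -/
theorem exists_grad (g : Eu m → Eu (m + 1)) (hg : FlatImm g (Ω : Set (Eu m)))
    (ν : Eu m → Eu (m + 1)) (hν1 : ∀ z ∈ Ω, ‖ν z‖ = 1)
    (hν2 : ∀ z ∈ Ω, ∀ v : Eu m, ⟪ν z, fderiv ℝ g z v⟫_ℝ = 0) (e : Eu (m + 1)) :
    ∃ U : Eu m → Eu m, ContDiffOn ℝ ∞ U (Ω : Set (Eu m)) ∧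
      ∀ z ∈ Ω, fderiv ℝ g z (U z) = e - ⟪ν z, e⟫_ℝ • ν z := by
  refine ⟨fun z => (ContinuousLinearMap.inverse ((Grad_adj m (m + 1) (fderiv ℝ g z)).comp
    (fderiv ℝ g z))) (Grad_adj m (m + 1) (fderiv ℝ g z) e), ?_, ?_⟩
  · have hL : ContDiffOn ℝ ∞ (fderiv ℝ g) (Ω : Set (Eu m)) :=
      hg.smooth.fderiv_of_isOpen Ω.isOpen (by simp)
    have hA : ContDiffOn ℝ ∞ (fun z => Grad_adj m (m + 1) (fderiv ℝ g z)) (Ω : Set (Eu m)) :=
      (Grad_adj m (m + 1)).contDiff.comp_contDiffOn hL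
    have hT : ContDiffOn ℝ ∞ (fun z => (Grad_adj m (m + 1) (fderiv ℝ g z)).comp
        (fderiv ℝ g z)) (Ω : Set (Eu m)) := hA.clm_comp hL
    refine ContDiffOn.clm_apply ?_ (hA.clm_apply contDiffOn_const)
    intro z hz
    have h1 : ContDiffAt ℝ ∞ (ContinuousLinearMap.inverse : (Eu m →L[ℝ] Eu m) → _)
        ((Grad_adj m (m + 1) (fderiv ℝ g z)).comp (fderiv ℝ g z)) := by
      rw [← Grad_gram_coe m (m + 1) _ (hg.inj z hz)]
      exact contDiffAt_map_inverse _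
    exact h1.comp_contDiffWithinAt z (hT z hz)
  · intro z hz
    obtain ⟨u, hu⟩ := Grad_mem_range (fderiv ℝ g z) (hg.inj z hz) (ν z) (hν1 z hz) (hν2 z hz) e
    have h0 : Grad_adj m (m + 1) (fderiv ℝ g z) (ν z) = 0 := by
      refine ext_inner_right ℝ fun v => ?_
      rw [Grad_adj_inner, hν2 z hz v, inner_zero_left]
    have h1 : Grad_adj m (m + 1) (fderiv ℝ g z) e =
        Grad_gram m (m + 1) _ (hg.inj z hz) u := by
      show _ = Grad_adj m (m + 1) (fderiv ℝ g z) (fderiv ℝ g z u)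
      rw [hu, map_sub, map_smul, h0, smul_zero, sub_zero]
    show fderiv ℝ g z ((ContinuousLinearMap.inverse ((Grad_adj m (m + 1) (fderiv ℝ g z)).comp
      (fderiv ℝ g z))) (Grad_adj m (m + 1) (fderiv ℝ g z) e)) = _
    rw [← Grad_gram_coe m (m + 1) _ (hg.inj z hz), ContinuousLinearMap.inverse_equiv, h1,
      ← hu]
    congr 1
    exact (Grad_gram m (m + 1) _ (hg.inj z hz)).symm_apply_apply u

/-- Equivariance of the gradient field.
PROOF. `fderiv g (γ x) ∘ A γ = fderiv g x` (differentiate `g (A γ z + c γ) = g z` at `z = x`), so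
`fderiv g (γ x) (A γ (U x)) = fderiv g x (U x) = e - ⟪ν x, e⟫ ν x = e - ⟪ν (γ x), e⟫ ν (γ x)`
(as `χ γ ^ 2 = 1`) `= fderiv g (γ x) (U (γ x))`; injectivity. -/
theorem grad_smul (a : AffAct m G Ω) (g : Eu m → Eu (m + 1)) (hg : FlatImm g (Ω : Set (Eu m)))
    (hinv : ∀ (γ : G) (x : Ω), g ((γ • x : Ω) : Eu m) = g (x : Eu m))
    (ν : Eu m → Eu (m + 1)) (χ : G → ℝ) (hχ : ∀ γ, |χ γ| = 1)
    (hν : ∀ (γ : G) (x : Ω), ν ((γ • x : Ω) : Eu m) = χ γ • ν (x : Eu m))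
    (e : Eu (m + 1)) (U : Eu m → Eu m)
    (hU : ∀ z ∈ Ω, fderiv ℝ g z (U z) = e - ⟪ν z, e⟫_ℝ • ν z) :
    ∀ (γ : G) (x : Ω), U ((γ • x : Ω) : Eu m) = a.A γ (U (x : Eu m)) := by
  intro γ x
  have hd : ∀ z ∈ Ω, DifferentiableAt ℝ g z := fun z hz =>
    (hg.smooth.contDiffAt (Ω.isOpen.mem_nhds hz)).differentiableAt (by simp)
  have h1 : HasFDerivAt (fun z : Eu m => g (a.A γ z + a.c γ))
      ((fderiv ℝ g ((γ • x : Ω) : Eu m)).comp (a.A γ : Eu m →L[ℝ] Eu m)) (x : Eu m) := by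
    have e1 : HasFDerivAt (fun y : Eu m => a.A γ y + a.c γ) (a.A γ : Eu m →L[ℝ] Eu m)
        (x : Eu m) := (a.A γ : Eu m →L[ℝ] Eu m).hasFDerivAt.add_const _
    have e2 : HasFDerivAt g (fderiv ℝ g ((γ • x : Ω) : Eu m)) (a.A γ (x : Eu m) + a.c γ) := by
      rw [← a.smul_eq]
      exact (hd _ (γ • x).2).hasFDerivAt
    exact HasFDerivAt.comp (g := g) (f := fun y : Eu m => a.A γ y + a.c γ) (x : Eu m) e2 e1
  have h2 : HasFDerivAt (fun z : Eu m => g (a.A γ z + a.c γ)) (fderiv ℝ g (x : Eu m))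
      (x : Eu m) := by
    refine (hd _ x.2).hasFDerivAt.congr_of_eventuallyEq ?_
    filter_upwards [Ω.isOpen.mem_nhds x.2] with y hy
    have := hinv γ ⟨y, hy⟩
    rw [a.smul_eq] at this
    exact this
  have h3 := h1.unique h2
  have h4 : ∀ v, fderiv ℝ g ((γ • x : Ω) : Eu m) (a.A γ v) = fderiv ℝ g (x : Eu m) v := by
    intro v
    have := congrArg (fun L : Eu m →L[ℝ] Eu (m + 1) => L v) h3
    simpa using this
  have hχ2 : χ γ * χ γ = 1 := by
    have := hχ γ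
    rw [← abs_mul_abs_self, this, one_mul]
  apply hg.inj _ (γ • x).2
  rw [h4, hU _ x.2, hU _ (γ • x).2, hν, inner_smul_left, smul_smul]
  congr 2
  simp only [RCLike.conj_to_real]
  rw [mul_right_comm, hχ2, one_mul]

/-- The two derivative estimates.
PROOF. First: `fderiv (⟪g ·, e⟫) z (U z) = ⟪fderiv g z (U z), e⟫ = ⟪e, e⟫ - ⟪ν, e⟫ ^ 2`.
Second: differentiate `⟪ν z, fderiv g z V⟫ = 0` (constant `V = U z₀`) at `z₀` in the direction
`U z₀`: `⟪Dν(U), Dg(U)⟫ = - ⟪ν, D²g(U, U)⟫`, and `⟪Dν(U), ν⟫ = 0`. So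
`fderiv (⟪ν ·, e⟫) z (U z) = ⟪Dν(U), e⟫ = ⟪Dν(U), Dg(U) + ⟪ν, e⟫ ν⟫ = - ⟪ν, D²g(U,U)⟫`.
`ν` is orthogonal to the range of `fderiv g z`, so this is `- ⟪ν, nII g z (U z)⟫`, of modulus at
most `‖nII g z (U z)‖ ≤ c ‖Dg(U)‖ ^ 2 = c (1 - ⟪ν, e⟫ ^ 2) ≤ c`. -/
theorem grad_bounds (g : Eu m → Eu (m + 1)) (hg : FlatImm g (Ω : Set (Eu m)))
    (ν : Eu m → Eu (m + 1)) (hν : ContDiffOn ℝ ∞ ν (Ω : Set (Eu m)))
    (hν1 : ∀ z ∈ Ω, ‖ν z‖ = 1)
    (hν2 : ∀ z ∈ Ω, ∀ v : Eu m, ⟪ν z, fderiv ℝ g z v⟫_ℝ = 0)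
    (e : Eu (m + 1)) (he : ‖e‖ = 1) (U : Eu m → Eu m)
    (hU : ∀ z ∈ Ω, fderiv ℝ g z (U z) = e - ⟪ν z, e⟫_ℝ • ν z)
    {c : ℝ} (hc : 0 ≤ c) (hcurv : CurvLE g (Ω : Set (Eu m)) c) :
    ∀ z ∈ Ω, fderiv ℝ (fun w => ⟪g w, e⟫_ℝ) z (U z) = 1 - ⟪ν z, e⟫_ℝ ^ 2 ∧
      |fderiv ℝ (fun w => ⟪ν w, e⟫_ℝ) z (U z)| ≤ c := by
  intro z hz
  have hΩ := Ω.isOpen.mem_nhds hz
  have hgz : HasFDerivAt g (fderiv ℝ g z) z :=
    ((hg.smooth.contDiffAt hΩ).differentiableAt (by simp)).hasFDerivAt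
  have hνz : HasFDerivAt ν (fderiv ℝ ν z) z :=
    ((hν.contDiffAt hΩ).differentiableAt (by simp)).hasFDerivAt
  have hL : ContDiffOn ℝ ∞ (fderiv ℝ g) (Ω : Set (Eu m)) :=
    hg.smooth.fderiv_of_isOpen Ω.isOpen (by simp)
  have hν0 : ⟪ν z, ν z⟫_ℝ = 1 := by
    rw [real_inner_self_eq_norm_sq, hν1 z hz, one_pow]
  have he0 : ⟪e, e⟫_ℝ = 1 := by
    rw [real_inner_self_eq_norm_sq, he, one_pow]
  have hs : ⟪e, ν z⟫_ℝ = ⟪ν z, e⟫_ℝ := real_inner_comm _ _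
  constructor
  · have h1 : HasFDerivAt (fun w => ⟪g w, e⟫_ℝ) _ z := hgz.inner ℝ (hasFDerivAt_const e z)
    rw [h1.fderiv]
    simp only [ContinuousLinearMap.comp_apply, ContinuousLinearMap.prod_apply,
      fderivInnerCLM_apply, _root_.zero_apply, inner_zero_right, zero_add]
    rw [hU z hz, inner_sub_left, inner_smul_left, he0]
    simp only [RCLike.conj_to_real]
    ring
  · -- derivative of `⟪ν, e⟫`
    have h1 : HasFDerivAt (fun w => ⟪ν w, e⟫_ℝ) _ z := hνz.inner ℝ (hasFDerivAt_const e z)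
    have hval : fderiv ℝ (fun w => ⟪ν w, e⟫_ℝ) z (U z) = ⟪fderiv ℝ ν z (U z), e⟫_ℝ := by
      rw [h1.fderiv]
      simp only [ContinuousLinearMap.comp_apply, ContinuousLinearMap.prod_apply,
        fderivInnerCLM_apply, _root_.zero_apply, inner_zero_right, zero_add]
    -- `⟪Dν(U), ν⟫ = 0`
    have h2 : ⟪fderiv ℝ ν z (U z), ν z⟫_ℝ = 0 := by
      have h3 : HasFDerivAt (fun w => ⟪ν w, ν w⟫_ℝ) _ z := hνz.inner ℝ hνz
      have h4 : HasFDerivAt (fun w => ⟪ν w, ν w⟫_ℝ) (0 : Eu m →L[ℝ] ℝ) z := by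
        refine (hasFDerivAt_const (1 : ℝ) z).congr_of_eventuallyEq ?_
        filter_upwards [hΩ] with w hw
        rw [real_inner_self_eq_norm_sq, hν1 w hw, one_pow]
      have h5 := congrArg (fun L : Eu m →L[ℝ] ℝ => L (U z)) (h3.unique h4)
      simp only [ContinuousLinearMap.comp_apply, ContinuousLinearMap.prod_apply,
        fderivInnerCLM_apply, _root_.zero_apply] at h5
      rw [real_inner_comm (fderiv ℝ ν z (U z)) (ν z)] at h5
      linarith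
    -- differentiate `⟪ν w, Dg w V⟫ = 0`
    have hLV : HasFDerivAt (fun w => fderiv ℝ g w (U z))
        (fderiv ℝ (fun w => fderiv ℝ g w (U z)) z) z := by
      have h3 : ContDiffOn ℝ ∞ (fun w => fderiv ℝ g w (U z)) (Ω : Set (Eu m)) :=
        hL.clm_apply contDiffOn_const
      exact ((h3.contDiffAt hΩ).differentiableAt (by simp)).hasFDerivAt
    have h6 : ⟪fderiv ℝ ν z (U z), fderiv ℝ g z (U z)⟫_ℝ =
        - ⟪ν z, fderiv ℝ (fun w => fderiv ℝ g w (U z)) z (U z)⟫_ℝ := by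
      have h3 : HasFDerivAt (fun w => ⟪ν w, fderiv ℝ g w (U z)⟫_ℝ) _ z := hνz.inner ℝ hLV
      have h4 : HasFDerivAt (fun w => ⟪ν w, fderiv ℝ g w (U z)⟫_ℝ) (0 : Eu m →L[ℝ] ℝ) z := by
        refine (hasFDerivAt_const (0 : ℝ) z).congr_of_eventuallyEq ?_
        filter_upwards [hΩ] with w hw
        rw [hν2 w hw]
      have h5 := congrArg (fun L : Eu m →L[ℝ] ℝ => L (U z)) (h3.unique h4)
      simp only [ContinuousLinearMap.comp_apply, ContinuousLinearMap.prod_apply,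
        fderivInnerCLM_apply, _root_.zero_apply] at h5
      linarith
    have h7 : fderiv ℝ (fun w => ⟪ν w, e⟫_ℝ) z (U z) =
        - ⟪ν z, fderiv ℝ (fun w => fderiv ℝ g w (U z)) z (U z)⟫_ℝ := by
      rw [hval, ← h6, hU z hz, inner_sub_right, inner_smul_right, h2, mul_zero, sub_zero]
    have hνR : ν z ∈ (LinearMap.range (fderiv ℝ g z).toLinearMap)ᗮ := by
      rw [Submodule.mem_orthogonal']
      rintro _ ⟨v, rfl⟩
      exact hν2 z hz v
    have h8 : ⟪ν z, fderiv ℝ (fun w => fderiv ℝ g w (U z)) z (U z)⟫_ℝ =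
        ⟪ν z, nII g z (U z)⟫_ℝ := by
      unfold nII
      rw [← Submodule.inner_starProjection_left_eq_right,
        Submodule.starProjection_eq_self_iff.2 hνR]
    have h9 : ‖fderiv ℝ g z (U z)‖ ^ 2 ≤ 1 := by
      rw [← real_inner_self_eq_norm_sq, hU z hz, inner_sub_left, inner_sub_right,
        inner_sub_right, inner_smul_left, inner_smul_left, inner_smul_right, inner_smul_right,
        he0, hν0, hs]
      simp only [RCLike.conj_to_real]
      nlinarith [sq_nonneg ⟪ν z, e⟫_ℝ]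
    rw [h7, h8, abs_neg]
    calc |⟪ν z, nII g z (U z)⟫_ℝ| ≤ ‖ν z‖ * ‖nII g z (U z)‖ := abs_real_inner_le_norm _ _
      _ = ‖nII g z (U z)‖ := by rw [hν1 z hz, one_mul]
      _ ≤ c * ‖fderiv ℝ g z (U z)‖ ^ 2 := hcurv z hz _
      _ ≤ c * 1 := mul_le_mul_of_nonneg_left h9 hc
      _ = c := mul_one c

end Pool.Agent.helper8.MC
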