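import Pool.Agent.helper8.MC.Normal
import Pool.Agent.helper8.MC.Grad
import Pool.Agent.helper7.MC.Lower

/-!
# MC-L: the lower bound for the curvature of hypersurfaces
-/

open scoped Manifold ContDiff Topology InnerProductSpace

noncomputable section

namespace Pool.Agent.helper8.MC

variable {m : ℕ} {G : Type} [Group G] {Ω : TopologicalSpace.Opens (Eu m)} [MulAction G Ω]

/-- The affine maps of `γ` and `γ⁻¹` are inverse to each other everywhere. -/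
theorem LowerGlue_inv (a : AffAct m G Ω) (γ : G) {z : Eu m} (hz : z ∈ Ω) (x : Eu m) :
    a.A γ⁻¹ (a.A γ x + a.c γ) + a.c γ⁻¹ = x := by
  have h1 : ∀ y ∈ Ω, a.A γ⁻¹ (a.A γ y + a.c γ) + a.c γ⁻¹ = y := by
    intro y hy
    have e1 := a.smul_eq γ ⟨y, hy⟩
    have e2 := a.smul_eq γ⁻¹ (γ • ⟨y, hy⟩)
    rw [inv_smul_smul, e1] at e2
    exact e2.symm
  have h2 : HasFDerivAt (fun y : Eu m => a.A γ⁻¹ (a.A γ y + a.c γ) + a.c γ⁻¹)
      ((a.A γ⁻¹ : Eu m →L[ℝ] Eu m).comp (a.A γ : Eu m →L[ℝ] Eu m)) z := by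
    have e3 : HasFDerivAt (fun y : Eu m => a.A γ y + a.c γ) (a.A γ : Eu m →L[ℝ] Eu m) z :=
      (a.A γ : Eu m →L[ℝ] Eu m).hasFDerivAt.add_const _
    exact ((a.A γ⁻¹ : Eu m →L[ℝ] Eu m).hasFDerivAt.comp z e3).add_const _
  have h3 : HasFDerivAt (fun y : Eu m => a.A γ⁻¹ (a.A γ y + a.c γ) + a.c γ⁻¹)
      (ContinuousLinearMap.id ℝ (Eu m)) z := by
    refine (hasFDerivAt_id z).congr_of_eventuallyEq ?_
    filter_upwards [Ω.isOpen.mem_nhds hz] with y hy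
    exact h1 y hy
  have h4 := h2.unique h3
  have h5 : ∀ v : Eu m, a.A γ⁻¹ (a.A γ v) = v := by
    intro v
    have := congrArg (fun L : Eu m →L[ℝ] Eu m => L v) h4
    simpa using this
  have h6 := h1 z hz
  rw [map_add, h5] at h6
  rw [map_add, h5]
  have h7 : a.A γ⁻¹ (a.c γ) + a.c γ⁻¹ = 0 := by
    have h8 : z + (a.A γ⁻¹ (a.c γ) + a.c γ⁻¹) = z + 0 := by
      rw [add_zero, ← add_assoc]
      exact h6
    exact add_left_cancel h8
  rw [add_assoc, h7, add_zero]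

/-- The affine equivalence of `γ`. -/
def LowerGlue_aff (a : AffAct m G Ω) (γ : G) : Eu m ≃ᵃ[ℝ] Eu m :=
  (a.A γ).toLinearEquiv.toAffineEquiv.trans (AffineEquiv.constVAdd ℝ (Eu m) (a.c γ))

theorem LowerGlue_aff_apply (a : AffAct m G Ω) (γ : G) (x : Eu m) :
    LowerGlue_aff a γ x = a.A γ x + a.c γ := by
  show a.c γ + a.A γ x = _
  rw [add_comm]

theorem LowerGlue_aff_linear (a : AffAct m G Ω) (γ : G) (x : Eu m) :
    (LowerGlue_aff a γ).linear x = a.A γ x := rfl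

/-- THE LOWER BOUND.
PROOF. `exists_normal` gives `ν, χ`; `χ τ = -1`. Take a unit vector `e : Eu (m+1)`,
`exists_grad` gives `U`, `grad_smul` its equivariance, `α z = ⟪ν z, e⟫`, `h z = ⟪g z, e⟫`
(`|h| ≤ 1` on `Ω`), `grad_bounds` the derivative estimates. Then helper7's abstract lower bound
(`Pool/Agent/helper7/MC/Lower.lean`, Euler steps + Borsuk-Ulam), with the affine equivalences
`z ↦ A γ z + c γ`. -/
theorem lower_bound (a : AffAct m G Ω) (K : Set (Eu m)) (hK : IsCompact K) (hKΩ : K ⊆ Ω)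
    (hcov : ∀ x : Ω, ∃ γ : G, ((γ • x : Ω) : Eu m) ∈ K)
    (τ : G) (hτ : LinearMap.det ((a.A τ : Eu m →L[ℝ] Eu m) : Eu m →ₗ[ℝ] Eu m) < 0)
    {n : ℕ} (hn : 0 < n) (ι : Eu (n + 1) → Eu m) (hι : ContinuousOn ι {y | y ≠ 0})
    (hιΩ : ∀ y, y ≠ 0 → ι y ∈ Ω) (hιodd : ∀ y, y ≠ 0 → ι (-y) = a.A τ (ι y) + a.c τ)
    (g : Eu m → Eu (m + 1)) (hg : FlatImm g (Ω : Set (Eu m)))
    (hinv : ∀ (γ : G) (x : Ω), g ((γ • x : Ω) : Eu m) = g (x : Eu m))
    (hball : ∀ z ∈ Ω, ‖g z‖ ≤ 1) {c : ℝ} (hc : 0 ≤ c) (hcurv : CurvLE g (Ω : Set (Eu m)) c) :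
    (n : ℝ) ^ 2 ≤ 27 * c ^ 2 := by
  obtain ⟨ν, χ, n1, n2, n3, n4, n5, n6⟩ := exists_normal a g hg hinv
  obtain ⟨e, he⟩ : ∃ e : Eu (m + 1), ‖e‖ = 1 := ⟨EuclideanSpace.single 0 1, by simp⟩
  obtain ⟨U, u1, u2⟩ := exists_grad (Ω := Ω) g hg ν n2 n3 e
  have u3 := grad_smul a g hg hinv ν χ n4 n6 e U u2
  have u4 := grad_bounds (Ω := Ω) g hg ν n1 n2 n3 e he U u2 hc hcurv
  have hsp : ∀ y ∈ Metric.sphere (0 : EuclideanSpace ℝ (Fin (n + 1))) 1, y ≠ 0 := by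
    intro y hy h0
    rw [h0] at hy
    simp at hy
  obtain ⟨y0, hy0⟩ : ∃ y : Eu (n + 1), y ≠ 0 := by
    refine ⟨EuclideanSpace.single 0 1, ?_⟩
    intro h0
    have := congrArg (fun v => ‖v‖) h0
    simp at this
  have hz0 : ι y0 ∈ Ω := hιΩ y0 hy0
  have hmem : ∀ (γ : G) (x : Eu m), x ∈ Ω → LowerGlue_aff a γ x ∈ Ω := by
    intro γ x hx
    rw [LowerGlue_aff_apply, ← a.smul_eq γ ⟨x, hx⟩]
    exact (γ • (⟨x, hx⟩ : Ω)).2
  have hχ : ∀ γ, χ γ = 1 ∨ χ γ = -1 := fun γ => (abs_eq zero_le_one).1 (n4 γ)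
  have hsm : ∀ (γ : G) (x : Eu m) (hx : x ∈ Ω),
      ((γ • (⟨x, hx⟩ : Ω) : Ω) : Eu m) = LowerGlue_aff a γ x := fun γ x hx => by
    rw [LowerGlue_aff_apply, ← a.smul_eq γ ⟨x, hx⟩]
  have key := Pool.Agent.helper7.MC.lower_abstract (n := n) hn (c := c) (M := (Ω : Set (Eu m)))
    (K := K) Ω.isOpen hK hKΩ (Set.range (LowerGlue_aff a)) (by
      rintro _ ⟨γ, rfl⟩ x
      refine ⟨fun h => ?_, fun h => hmem γ x h⟩
      have h2 := hmem γ⁻¹ _ h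
      rw [LowerGlue_aff_apply, LowerGlue_aff_apply, LowerGlue_inv a γ hz0] at h2
      exact h2) (by
      intro x hx
      obtain ⟨γ, hγ⟩ := hcov ⟨x, hx⟩
      refine ⟨_, ⟨γ, rfl⟩, ?_⟩
      rw [← hsm γ x hx]
      exact hγ)
    (fun z => ⟪g z, e⟫_ℝ) (fun z => ⟪ν z, e⟫_ℝ) U
    ((hg.smooth.of_le (by exact_mod_cast le_top)).inner ℝ contDiffOn_const)
    ((n1.of_le (by exact_mod_cast le_top)).inner ℝ contDiffOn_const)
    u1.continuousOn (by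
      intro x hx
      refine (abs_real_inner_le_norm _ _).trans ?_
      rw [he, mul_one]
      exact hball x hx) (by
      rintro _ ⟨γ, rfl⟩ x hx
      rw [← hsm γ x hx, hinv γ ⟨x, hx⟩]) (by
      rintro _ ⟨γ, rfl⟩
      rcases hχ γ with h | h
      · left
        intro x hx
        rw [← hsm γ x hx, n6 γ ⟨x, hx⟩, h, one_smul]
      · right
        intro x hx
        rw [← hsm γ x hx, n6 γ ⟨x, hx⟩, h, neg_one_smul, inner_neg_left]) (by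
      rintro _ ⟨γ, rfl⟩ x hx
      rw [LowerGlue_aff_linear, ← hsm γ x hx, u3 γ ⟨x, hx⟩])
    (fun x hx => (u4 x hx).1) (fun x hx => (u4 x hx).2)
    (LowerGlue_aff a τ) ⟨τ, rfl⟩ (by
      intro x hx
      rw [← hsm τ x hx, n6 τ ⟨x, hx⟩, n5 τ hτ, neg_one_smul, inner_neg_left])
    ι (hι.mono fun y hy => hsp y hy) (fun y hy => hιΩ y (hsp y hy))
    (fun y hy => by rw [LowerGlue_aff_apply]; exact hιodd y (hsp y hy))
  have h3 : (0 : ℝ) < √3 := by positivity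
  have h33 : √3 * √3 = 3 := Real.mul_self_sqrt (by norm_num)
  rw [div_le_iff₀ (by positivity)] at key
  have h4 : (n : ℝ) * n ≤ (c * (3 * √3)) * (c * (3 * √3)) :=
    mul_self_le_mul_self (by positivity) key
  nlinarith [h4, h33]

end Pool.Agent.helper8.MC
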