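import Pool.Agent.helper8.MC.Flat
import Pool.Agent.helper7.MC.Gauss

/-!
# MC-N: the unit normal field of an immersed hypersurface and its behaviour under the group
-/

open scoped Manifold ContDiff Topology InnerProductSpace

noncomputable section

namespace Pool.Agent.helper8.MC

variable {m : ℕ} {G : Type} [Group G] {Ω : TopologicalSpace.Opens (Eu m)} [MulAction G Ω]

/-- the derivative of an invariant map at `γ x` -/
theorem fderiv_affAct (a : AffAct m G Ω) {N : ℕ} (g : Eu m → Eu N)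
    (hg : ContDiffOn ℝ ∞ g (Ω : Set (Eu m)))
    (hinv : ∀ (γ : G) (x : Ω), g ((γ • x : Ω) : Eu m) = g (x : Eu m)) (γ : G) (x : Ω) :
    fderiv ℝ g (x : Eu m) =
      (fderiv ℝ g ((γ • x : Ω) : Eu m)).comp (a.A γ : Eu m →L[ℝ] Eu m) := by
  have hx : (Ω : Set (Eu m)) ∈ 𝓝 (x : Eu m) := Ω.isOpen.mem_nhds x.2
  have hy : (Ω : Set (Eu m)) ∈ 𝓝 ((γ • x : Ω) : Eu m) := Ω.isOpen.mem_nhds (γ • x).2
  have h1 : (fun z : Eu m => g (a.A γ z + a.c γ)) =ᶠ[𝓝 (x : Eu m)] g := by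
    filter_upwards [hx] with z hz
    have := hinv γ ⟨z, hz⟩
    rw [a.smul_eq] at this
    exact this
  have hd : DifferentiableAt ℝ g ((γ • x : Ω) : Eu m) :=
    (hg.contDiffAt hy).differentiableAt (by simp)
  have h2 : HasFDerivAt (fun z : Eu m => a.A γ z + a.c γ) (a.A γ : Eu m →L[ℝ] Eu m) (x : Eu m) :=
    ((a.A γ : Eu m →L[ℝ] Eu m).hasFDerivAt).add_const _
  have hd' : HasFDerivAt g (fderiv ℝ g ((γ • x : Ω) : Eu m)) (a.A γ (x : Eu m) + a.c γ) := by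
    rw [← a.smul_eq]
    exact hd.hasFDerivAt
  have h3 := HasFDerivAt.comp (x : Eu m) hd' h2
  exact (h3.congr_of_eventuallyEq h1.symm).fderiv

/-- PROOF. For `z ∈ Ω`, `w : Eu (m+1)` let `D z w` be the determinant of the `(m+1) × (m+1)` matrix
with first column `w` and the other columns `fderiv ℝ g z (e_i)` (`e_i` the standard basis of
`Eu m`). It is linear in `w`; let `n z` be the vector with coordinates `D z (E_j)`, so
`D z w = ⟪n z, w⟫` (expansion along the first column, `Matrix.det_succ_column_zero`, or linearity).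
`n` is smooth on `Ω` (polynomial in the entries; `fderiv ℝ g` is smooth on the open set `Ω`).
`⟪n z, fderiv g z e_i⟫ = 0` (repeated column). `n z ≠ 0`: the columns `fderiv g z e_i` are linearly
independent, so there is `w` outside their span and then the determinant is not zero.
`ν := ‖n z‖⁻¹ • n z` (smooth where `n ≠ 0`).
For `γ`: `g (A γ z + c γ) = g z` on `Ω`, so `fderiv g z = (fderiv g (γ z)).comp (A γ)` and the matrix
of `z` is the matrix of `γ z` times the block matrix `diag (1, matrix of A γ)`, so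
`n z = det (A γ) • n (γ z)`, hence `ν (γ z) = sign (det (A γ)) • ν z`; put
`χ γ = 1` if `0 < det (A γ)` and `-1` otherwise (`det (A γ) ≠ 0`). -/
theorem exists_normal (a : AffAct m G Ω) (g : Eu m → Eu (m + 1)) (hg : FlatImm g (Ω : Set (Eu m)))
    (hinv : ∀ (γ : G) (x : Ω), g ((γ • x : Ω) : Eu m) = g (x : Eu m)) :
    ∃ (ν : Eu m → Eu (m + 1)) (χ : G → ℝ),
      ContDiffOn ℝ ∞ ν (Ω : Set (Eu m)) ∧
      (∀ z ∈ Ω, ‖ν z‖ = 1) ∧
      (∀ z ∈ Ω, ∀ v : Eu m, ⟪ν z, fderiv ℝ g z v⟫_ℝ = 0) ∧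
      (∀ γ : G, |χ γ| = 1) ∧
      (∀ γ : G, LinearMap.det ((a.A γ : Eu m →L[ℝ] Eu m) : Eu m →ₗ[ℝ] Eu m) < 0 → χ γ = -1) ∧
      (∀ (γ : G) (x : Ω), ν ((γ • x : Ω) : Eu m) = χ γ • ν (x : Eu m)) := by
  classical
  set b : Module.Basis (Fin m) ℝ (Eu m) := (EuclideanSpace.basisFun (Fin m) ℝ).toBasis with hb
  set n : Eu m → Eu (m + 1) := fun z =>
    Pool.Agent.helper7.MC.crossX b ((fderiv ℝ g z : Eu m →L[ℝ] Eu (m + 1)) : Eu m →ₗ[ℝ] Eu (m + 1))
    with hn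
  have hn0 : ∀ z ∈ Ω, n z ≠ 0 := fun z hz =>
    Pool.Agent.helper7.MC.crossX_ne_zero b _ (hg.inj z hz)
  have hns : ContDiffOn ℝ ∞ n (Ω : Set (Eu m)) := by
    have h1 : ContDiffOn ℝ ∞ (fderiv ℝ g) (Ω : Set (Eu m)) :=
      hg.smooth.fderiv_of_isOpen Ω.isOpen (by simp)
    exact ((Pool.Agent.helper7.MC.crossX_contDiff (m := m) b).of_le le_top).comp_contDiffOn h1
  have hnn : ∀ z ∈ Ω, ‖n z‖ ≠ 0 := fun z hz => norm_ne_zero_iff.2 (hn0 z hz)
  have hkey : ∀ (γ : G) (x : Ω), n (x : Eu m) =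
      LinearMap.det ((a.A γ : Eu m →L[ℝ] Eu m) : Eu m →ₗ[ℝ] Eu m) •
        n ((γ • x : Ω) : Eu m) := by
    intro γ x
    have h1 := fderiv_affAct a g hg.smooth hinv γ x
    show Pool.Agent.helper7.MC.crossX b _ = _
    rw [h1]
    exact Pool.Agent.helper7.MC.crossX_comp b
      ((fderiv ℝ g ((γ • x : Ω) : Eu m) : Eu m →L[ℝ] Eu (m + 1)) : Eu m →ₗ[ℝ] Eu (m + 1))
      ((a.A γ : Eu m →L[ℝ] Eu m) : Eu m →ₗ[ℝ] Eu m)
  have hdet : ∀ γ : G, LinearMap.det ((a.A γ : Eu m →L[ℝ] Eu m) : Eu m →ₗ[ℝ] Eu m) ≠ 0 := by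
    intro γ
    exact ((a.A γ).toLinearEquiv.isUnit_det').ne_zero
  refine ⟨fun z => ‖n z‖⁻¹ • n z,
    fun γ => if 0 < LinearMap.det ((a.A γ : Eu m →L[ℝ] Eu m) : Eu m →ₗ[ℝ] Eu m) then 1 else -1,
    ?_, ?_, ?_, ?_, ?_, ?_⟩
  · exact ((hns.norm ℝ hn0).inv hnn).smul hns
  · intro z hz
    rw [norm_smul, norm_inv, norm_norm, inv_mul_cancel₀ (hnn z hz)]
  · intro z hz v
    rw [real_inner_smul_left]
    have h1 : ⟪n z, fderiv ℝ g z v⟫_ℝ = 0 := Pool.Agent.helper7.MC.crossX_orth b _ v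
    rw [h1, mul_zero]
  · intro γ
    dsimp only
    split_ifs <;> simp
  · intro γ hγ
    exact if_neg (not_lt.2 hγ.le)
  · intro γ x
    dsimp only
    have hk := hkey γ x
    have hy : ‖n ((γ • x : Ω) : Eu m)‖ ≠ 0 := hnn _ (γ • x).2
    set d := LinearMap.det ((a.A γ : Eu m →L[ℝ] Eu m) : Eu m →ₗ[ℝ] Eu m) with hd
    rw [hk, norm_smul, Real.norm_eq_abs, smul_smul, smul_smul]
    congr 1
    have hd0 : d ≠ 0 := hdet γ
    split_ifs with h
    · rw [abs_of_pos h]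
      field_simp
    · rw [abs_of_neg (lt_of_le_of_ne (not_lt.1 h) hd0)]
      field_simp

end Pool.Agent.helper8.MC
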