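import Pool.Agent.helper8.MC.Quot2

/-!
# MC-ONE: every closed manifold of positive dimension has curvature at least one in the unit ball
-/

open scoped Manifold ContDiff Topology ENNReal

noncomputable section

namespace Pool.Agent.helper8.MC

/-- The second derivative of a real function at a local maximum is not positive. -/
theorem One.deriv2_le {φ : ℝ → ℝ} {x : ℝ} (hc : ContinuousAt φ x) (h : IsLocalMax φ x) :
    deriv (deriv φ) x ≤ 0 := by
  by_contra hcon
  push Not at hcon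
  have h1 : IsLocalMin φ x := isLocalMin_of_deriv_deriv_pos hcon h.deriv_eq_zero hc
  have h2 : φ =ᶠ[𝓝 x] fun _ => φ x := by
    filter_upwards [h, h1] with t ht ht1
    exact le_antisymm ht ht1
  have h3 : deriv φ =ᶠ[𝓝 x] deriv (fun _ => φ x) := h2.deriv
  rw [h3.deriv_eq] at hcon
  simp at hcon

/-- At a point where the norm of a curve is maximal, the acceleration points inwards. -/
theorem One.inner_acc {N : ℕ} {p : ℝ → Eu N} (hp : ContDiff ℝ ∞ p) (h : ∀ t, ‖p t‖ ≤ ‖p 0‖) :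
    inner ℝ (p 0) (iteratedDeriv 2 p 0) + ‖deriv p 0‖ ^ 2 ≤ 0 := by
  have hd : ∀ t, HasDerivAt p (deriv p t) t := fun t =>
    (hp.differentiable (by norm_num) t).hasDerivAt
  have hp' : ContDiff ℝ ∞ (deriv p) := by
    have := contDiff_infty_iff_deriv.1 hp
    exact this.2
  have hd2 : ∀ t, HasDerivAt (deriv p) (deriv (deriv p) t) t := fun t =>
    (hp'.differentiable (by norm_num) t).hasDerivAt
  have e1 : ∀ t, HasDerivAt (fun t => ‖p t‖ ^ 2) (2 * inner ℝ (p t) (deriv p t)) t := by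
    intro t
    exact (hd t).norm_sq
  have e2 : deriv (fun t => ‖p t‖ ^ 2) = fun t => 2 * inner ℝ (p t) (deriv p t) :=
    funext fun t => (e1 t).deriv
  have e3 : HasDerivAt (fun t => 2 * inner ℝ (p t) (deriv p t))
      (2 * (inner ℝ (p 0) (deriv (deriv p) 0) + inner ℝ (deriv p 0) (deriv p 0))) 0 :=
    ((hd 0).inner ℝ (hd2 0)).const_mul 2
  have h1 : IsLocalMax (fun t => ‖p t‖ ^ 2) 0 := by
    refine Filter.Eventually.of_forall fun t => ?_
    have := h t
    show ‖p t‖ ^ 2 ≤ ‖p 0‖ ^ 2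
    gcongr
  have h2 := One.deriv2_le (e1 0).continuousAt h1
  rw [e2, e3.deriv, real_inner_self_eq_norm_sq] at h2
  have h3 : iteratedDeriv 2 p = deriv (deriv p) := by
    rw [iteratedDeriv_succ, iteratedDeriv_one]
  rw [h3]
  linarith

/-- PROOF. `f` an immersion with `‖f‖ ≤ 1`, `x` a point where `‖f‖` is maximal
(`IsCompact.exists_isMaxOn`). For every smooth curve `γ` with `γ 0 = x`, `p = f ∘ γ` (smooth), the
function `‖p t‖ ^ 2` has a maximum at `0`, so `⟪p 0, p' 0⟫ = 0` and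
`⟪p 0, p'' 0⟫ + ‖p' 0‖ ^ 2 ≤ 0`. Every tangent vector is the velocity of a smooth curve
`γ t = (extChartAt _ x).symm (z + (δ sin (t / δ)) • v)`, `z = extChartAt _ x x`, `δ` small (the chart
target is open; `(extChartAt I x).symm` is smooth on the target: `contMDiffOn_extChartAt_symm`). So
`f x` is orthogonal to `tanSp m f x`, and for a vector with `‖p' 0‖ = 1` (exists: `m > 0` and the
derivative is injective; scale) `1 ≤ - ⟪f x, p'' 0⟫ = - ⟪f x, normAcc m f γ⟫ ≤ ‖normAcc m f γ‖`. -/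
theorem one_le_minCurv {m : ℕ} (hm : 0 < m) (X : Type) [TopologicalSpace X]
    [ChartedSpace (Eu m) X] [IsManifold (𝓡 m) ∞ X] [CompactSpace X] [Nonempty X] (N : ℕ) :
    1 ≤ minCurv m X N := by
  refine le_iInf fun f => le_iInf fun hf => le_iInf fun hb => ?_
  -- a point of maximal norm
  obtain ⟨x0, -, hx0⟩ := isCompact_univ.exists_isMaxOn (Set.univ_nonempty (α := X))
    (hf.smooth.continuous.norm.continuousOn)
  have hmax : ∀ x, ‖f x‖ ≤ ‖f x0‖ := fun x => hx0 (Set.mem_univ x)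
  -- the function in the chart
  let g : Eu m → Eu N := inChart m f x0
  let z : Eu m := extChartAt (𝓡 m) x0 x0
  have hgz : g z = f x0 := by
    show f ((extChartAt (𝓡 m) x0).symm (extChartAt (𝓡 m) x0 x0)) = f x0
    rw [extChartAt_to_inv]
  have hD : HasFDerivAt g (Q2.mfd (m := m) f x0) z :=
    Q2.hasFDerivAt_inChart f x0 ((hf.smooth x0).mdifferentiableAt (by norm_num))
  have hinj : Function.Injective (Q2.mfd (m := m) f x0) := hf.inj x0
  -- `f x0` is orthogonal to the tangent space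
  have horth : ∀ v : Eu m, inner ℝ (f x0) (Q2.mfd (m := m) f x0 v) = 0 := by
    intro v
    have h1 : IsLocalMax (fun y => ‖g y‖ ^ 2) z := by
      refine Filter.Eventually.of_forall fun y => ?_
      show ‖g y‖ ^ 2 ≤ ‖g z‖ ^ 2
      rw [hgz]
      have := hmax ((extChartAt (𝓡 m) x0).symm y)
      have h2 : ‖g y‖ ≤ ‖f x0‖ := this
      gcongr
    have h2 := h1.hasFDerivAt_eq_zero hD.norm_sq
    have h3 := congrArg (fun L => L v) h2
    simp only [hgz] at h3
    simpa using h3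
  -- the test curve
  let Ω : TopologicalSpace.Opens (Eu m) :=
    ⟨(extChartAt (𝓡 m) x0).target, isOpen_extChartAt_target x0⟩
  have hzΩ : z ∈ Ω := mem_extChartAt_target x0
  obtain ⟨v, hv⟩ : ∃ v : Eu m, v ≠ 0 := by
    have : Nonempty (Fin m) := ⟨⟨0, hm⟩⟩
    exact exists_ne 0
  have hv' : Q2.mfd (m := m) f x0 v ≠ 0 := by
    intro h
    exact hv (hinj (h.trans (map_zero _).symm))
  have hv'' : ‖Q2.mfd (m := m) f x0 v‖ ≠ 0 := norm_ne_zero_iff.2 hv'
  let w : Eu m := (‖Q2.mfd (m := m) f x0 v‖)⁻¹ • v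
  have hw : ‖Q2.mfd (m := m) f x0 w‖ = 1 := by
    show ‖Q2.mfd (m := m) f x0 ((‖Q2.mfd (m := m) f x0 v‖)⁻¹ • v)‖ = 1
    rw [map_smul, norm_smul, norm_inv, norm_norm, inv_mul_cancel₀ hv'']
  obtain ⟨u, hu, huΩ, hu0, hu1, -⟩ := Q2.exists_curve (Ω := Ω) hzΩ w
  let γ : ℝ → X := fun t => (extChartAt (𝓡 m) x0).symm (u t)
  have hγ : ContMDiff 𝓘(ℝ, ℝ) (𝓡 m) ∞ γ := by
    intro t
    have h1 : ContMDiffAt 𝓘(ℝ, Eu m) (𝓡 m) ∞ (extChartAt (𝓡 m) x0).symm (u t) :=
      (contMDiffOn_extChartAt_symm x0).contMDiffAt ((isOpen_extChartAt_target x0).mem_nhds (huΩ t))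
    exact h1.comp t hu.contDiffAt.contMDiffAt
  have hγ0 : γ 0 = x0 := by
    show (extChartAt (𝓡 m) x0).symm (u 0) = x0
    rw [hu0]
    exact extChartAt_to_inv x0
  have hpg : f ∘ γ = g ∘ u := rfl
  have hp : ContDiff ℝ ∞ (f ∘ γ) := (hf.smooth.comp hγ).contDiff
  have hp1 : deriv (f ∘ γ) 0 = Q2.mfd (m := m) f x0 w := by
    rw [hpg]
    have h2 : HasDerivAt u w 0 := by
      rw [← hu1]
      exact (hu.differentiable (by norm_num) 0).hasDerivAt
    have hD' : HasFDerivAt g (Q2.mfd (m := m) f x0) (u 0) := by rw [hu0]; exact hD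
    exact (hD'.comp_hasDerivAt (0 : ℝ) h2).deriv
  have hn : ‖deriv (f ∘ γ) 0‖ = 1 := by rw [hp1]; exact hw
  have hacc := One.inner_acc hp (fun t => by
    show ‖f (γ t)‖ ≤ ‖f (γ 0)‖
    rw [hγ0]
    exact hmax _)
  rw [hn] at hacc
  have hf0 : (f ∘ γ) 0 = f x0 := by
    show f (γ 0) = f x0
    rw [hγ0]
  rw [hf0] at hacc
  have hmem : f x0 ∈ (tanSp m f (γ 0))ᗮ := by
    rw [hγ0, Submodule.mem_orthogonal']
    rintro y ⟨v, rfl⟩
    exact horth v
  have hproj : inner ℝ (f x0) (iteratedDeriv 2 (f ∘ γ) 0) = inner ℝ (f x0) (normAcc m f γ) := by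
    have h1 := Submodule.inner_starProjection_left_eq_right ((tanSp m f (γ 0))ᗮ) (f x0)
      (iteratedDeriv 2 (f ∘ γ) 0)
    rw [(Submodule.starProjection_eq_self_iff).2 hmem] at h1
    exact h1
  rw [hproj] at hacc
  have hle : 1 ≤ ‖normAcc m f γ‖ := by
    have h1 : |inner ℝ (f x0) (normAcc m f γ)| ≤ ‖f x0‖ * ‖normAcc m f γ‖ :=
      abs_real_inner_le_norm _ _
    have h2 : ‖f x0‖ * ‖normAcc m f γ‖ ≤ 1 * ‖normAcc m f γ‖ :=
      mul_le_mul_of_nonneg_right (hb x0) (norm_nonneg _)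
    have h3 := (abs_le.1 h1).1
    linarith
  calc (1 : ℝ≥0∞) = ENNReal.ofReal 1 := ENNReal.ofReal_one.symm
    _ ≤ ENNReal.ofReal ‖normAcc m f γ‖ := ENNReal.ofReal_le_ofReal hle
    _ ≤ curv m f := by
      unfold curv
      exact le_iSup_of_le γ (le_iSup_of_le hγ (le_iSup_of_le hn le_rfl))

end Pool.Agent.helper8.MC
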