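import Pool.Agent.helper8.MC.Flat
import Pool.Agent.helper98.MC.QuotMan

/-!
# MC-Q1: the quotient of an open set by a free, properly discontinuous, affine action

`Quo G Ω` is Mathlib's quotient `MulAction.orbitRel.Quotient G Ω` with Mathlib's charted space
structure `MulAction.instChartedSpaceQuotient`
(file `Mathlib/Geometry/Manifold/Instances/Quotient.lean`, which uses
`IsLocalHomeomorph.chartedSpace` of `Mathlib/Geometry/Manifold/ChartedSpace.lean`).
-/

open scoped Manifold ContDiff Topology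

noncomputable section

namespace Pool.Agent.helper8.MC

instance instLC {m : ℕ} (Ω : TopologicalSpace.Opens (Eu m)) : LocallyCompactSpace Ω :=
  Ω.isOpen.locallyCompactSpace

section

variable {m N : ℕ} (G : Type) [Group G] (Ω : TopologicalSpace.Opens (Eu m)) [MulAction G Ω]

/-- The quotient. -/
abbrev Quo : Type := MulAction.orbitRel.Quotient G Ω

variable {Ω}

/-- The projection. -/
def pr (z : Ω) : Quo G Ω := Quotient.mk'' z

variable {G}

theorem pr_surjective : Function.Surjective (pr G : Ω → Quo G Ω) := Quotient.mk''_surjective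

theorem pr_smul (g : G) (z : Ω) : pr G (g • z) = pr G z :=
  Quotient.sound ⟨g, rfl⟩

open Classical in
/-- A function on the quotient, as a function on the Euclidean space (zero outside `Ω`). -/
def lift (f : Quo G Ω → Eu N) (z : Eu m) : Eu N :=
  if h : z ∈ Ω then f (pr G ⟨z, h⟩) else 0

theorem lift_coe (f : Quo G Ω → Eu N) (z : Ω) : lift f (z : Eu m) = f (pr G z) := by
  unfold lift
  rw [dif_pos z.2]

theorem lift_smul (f : Quo G Ω → Eu N) (g : G) (z : Ω) :
    lift f ((g • z : Ω) : Eu m) = lift f (z : Eu m) := by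
  rw [lift_coe, lift_coe, pr_smul]

/-- An invariant function descends to the quotient. -/
theorem exists_desc (g : Eu m → Eu N)
    (hg : ∀ (γ : G) (x : Ω), g ((γ • x : Ω) : Eu m) = g (x : Eu m)) :
    ∃ f : Quo G Ω → Eu N, ∀ z ∈ Ω, lift f z = g z := by
  refine ⟨Quotient.lift (fun z : Ω => g (z : Eu m)) ?_, ?_⟩
  · intro a b hab
    obtain ⟨γ, hγ⟩ := MulAction.mem_orbit_iff.1 (MulAction.orbitRel_apply.1 hab)
    show g (a : Eu m) = g (b : Eu m)
    rw [← hγ, hg]
  · intro z hz
    unfold lift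
    rw [dif_pos hz]
    rfl

theorem pr_eq_pr {a : Ω} {b : Ω} : pr G a = pr G b ↔ ∃ g : G, g • b = a :=
  Pool.Agent.helper98.MC.pr_eq_iff (G := G) (M := Ω)

variable [ProperlyDiscontinuousSMul G Ω] [ContinuousConstSMul G Ω] [IsCancelSMul G Ω]

/-- The projection is a local homeomorphism. -/
theorem isLocalHomeomorph_pr : IsLocalHomeomorph (pr G : Ω → Quo G Ω) :=
  Pool.Agent.helper98.MC.pr_lh G Ω

theorem continuous_pr : Continuous (pr G : Ω → Quo G Ω) := isLocalHomeomorph_pr.continuous

omit [ProperlyDiscontinuousSMul G Ω] [ContinuousConstSMul G Ω] [IsCancelSMul G Ω] in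
/-- the group acts by smooth maps -/
theorem contMDiff_smul (a : AffAct m G Ω) (g : G) :
    ContMDiff (𝓡 m) (𝓡 m) ∞ (fun x : Ω => g • x) := by
  rw [← ContMDiff.subtypeVal_comp_iff]
  have h1 : ContMDiff (𝓡 m) (𝓡 m) ∞ (fun y : Eu m => a.A g y + a.c g) := by
    rw [contMDiff_iff_contDiff]
    exact (a.A g).contDiff.add contDiff_const
  have h2 : ContMDiff (𝓡 m) (𝓡 m) ∞ (Subtype.val : Ω → Eu m) := contMDiff_subtype_val
  have h3 := h1.comp h2
  have h4 : (Subtype.val ∘ fun x : Ω => g • x)
      = (fun y : Eu m => a.A g y + a.c g) ∘ (Subtype.val : Ω → Eu m) := by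
    funext x
    exact a.smul_eq g x
  rw [h4]
  exact h3

/-- The quotient is a smooth manifold. -/
theorem isManifold_quo (a : AffAct m G Ω) : IsManifold (𝓡 m) ∞ (Quo G Ω) :=
  Pool.Agent.helper98.MC.isManifold_quot (n := ∞) (contMDiff_smul a)

/-- The projection is smooth. -/
theorem contMDiff_pr (a : AffAct m G Ω) :
    ContMDiff (𝓡 m) (𝓡 m) ∞ (pr G : Ω → Quo G Ω) :=
  Pool.Agent.helper98.MC.pr_contMDiff (n := ∞) (contMDiff_smul a)

/-- The local inverses of the projection are smooth. -/
theorem contMDiffAt_localInverse (a : AffAct m G Ω) (z : Ω) :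
    ContMDiffAt (𝓡 m) (𝓡 m) ∞
      ((isLocalHomeomorph_pr (G := G) (Ω := Ω)).localInverseAt z) (pr G z) :=
  Pool.Agent.helper98.MC.section_contMDiffAt (n := ∞) (contMDiff_smul a) z

/-- The preferred chart at a point `x` of the quotient is a local inverse of the projection near
some representative `z`. -/
theorem chart_symm (x : Quo G Ω) : ∃ z : Ω, pr G z = x ∧
    extChartAt (𝓡 m) x x = (z : Eu m) ∧
    ∀ᶠ w in 𝓝 (z : Eu m), ∃ h : w ∈ Ω, (extChartAt (𝓡 m) x).symm w = pr G ⟨w, h⟩ := by
  obtain ⟨z, hz, hch⟩ := Pool.Agent.helper98.MC.chartAt_quot (E := Eu m) (G := G) (M := Ω) x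
  refine ⟨z, hz, ?_, ?_⟩
  · rw [extChartAt_coe, hch]
    simp only [modelWithCornersSelf_coe, Function.comp_apply, id_eq,
      OpenPartialHomeomorph.coe_trans]
    have h1 : (Pool.Agent.helper98.MC.pr_lh G Ω).localInverseAt z x = z := by
      rw [← hz]
      exact (Pool.Agent.helper98.MC.pr_lh G Ω).localInverseAt_apply_self
    rw [h1]
    rfl
  · have h1 := TopologicalSpace.Opens.chartAt_subtype_val_symm_eventuallyEq (H := Eu m) Ω (x := z)
    have h2 : chartAt (Eu m) (z : Eu m) (z : Eu m) = (z : Eu m) := rfl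
    rw [h2] at h1
    filter_upwards [h1] with w hw
    have h3 : w = (((chartAt (Eu m) z).symm w : Ω) : Eu m) := hw
    have h4 : w ∈ Ω := by rw [h3]; exact Subtype.coe_prop _
    refine ⟨h4, ?_⟩
    rw [extChartAt_coe_symm, hch]
    simp only [modelWithCornersSelf_coe_symm, Function.comp_apply, id_eq,
      OpenPartialHomeomorph.coe_trans_symm]
    rw [(Pool.Agent.helper98.MC.pr_lh G Ω).localInverseAt_symm]
    have h5 : (chartAt (Eu m) z).symm w = (⟨w, h4⟩ : Ω) := Subtype.ext h3.symm
    rw [h5]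
    rfl

/-- The preferred chart at a point `x` of the quotient is a local inverse of the projection near
some representative `z`. -/
theorem chart_rep (x : Quo G Ω) : ∃ z : Ω, pr G z = x ∧
    extChartAt (𝓡 m) x x = (z : Eu m) ∧
    ∀ (N : ℕ) (f : Quo G Ω → Eu N), inChart m f x =ᶠ[𝓝 (z : Eu m)] lift f := by
  obtain ⟨z, h1, h2, h3⟩ := chart_symm x
  refine ⟨z, h1, h2, fun N f => ?_⟩
  filter_upwards [h3] with w hw
  obtain ⟨h, hw⟩ := hw
  unfold inChart lift
  rw [hw, dif_pos h]

omit [ProperlyDiscontinuousSMul G Ω] [ContinuousConstSMul G Ω] [IsCancelSMul G Ω] in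
/-- The quotient is compact if it is covered by the translates of a compact subset of `Ω`. -/
theorem compact_quo (K : Set (Eu m)) (hK : IsCompact K) (hKΩ : K ⊆ Ω)
    (hcov : ∀ x : Ω, ∃ g : G, ((g • x : Ω) : Eu m) ∈ K) : CompactSpace (Quo G Ω) := by
  have hK' : IsCompact ((Subtype.val : Ω → Eu m) ⁻¹' K) := by
    refine (Topology.IsInducing.subtypeVal.isCompact_preimage_iff ?_).2 hK
    rwa [Subtype.range_coe]
  have hc : Continuous (pr G : Ω → Quo G Ω) := continuous_quotient_mk'
  have him : (pr G : Ω → Quo G Ω) '' ((Subtype.val : Ω → Eu m) ⁻¹' K) = Set.univ := by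
    apply Set.eq_univ_of_forall
    intro q
    obtain ⟨z, rfl⟩ := pr_surjective (G := G) (Ω := Ω) q
    obtain ⟨g, hg⟩ := hcov z
    exact ⟨g • z, hg, pr_smul g z⟩
  exact ⟨him ▸ hK'.image hc⟩

instance t2_quo : T2Space (Quo G Ω) := inferInstance

instance secondCountable_quo : SecondCountableTopology (Quo G Ω) :=
  ContinuousConstSMul.secondCountableTopology

end

end Pool.Agent.helper8.MC
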