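import Pool.Agent.helper8.MC.Quot
import Pool.Agent.helper91.MC.Chart

/-!
# MC-Q2: immersions and curvature on the quotient in terms of the lifted function
-/

open scoped Manifold ContDiff Topology ENNReal
noncomputable section
namespace Pool.Agent.helper8.MC.Q2

section gen

variable {m N : ℕ} {X : Type*} [TopologicalSpace X] [ChartedSpace (Eu m) X]

/-- the derivative of `f` at `x`, with plain types -/
def mfd (f : X → Eu N) (x : X) : Eu m →L[ℝ] Eu N := mfderiv (𝓡 m) 𝓘(ℝ, Eu N) f x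

theorem tanSp_eq_mfd (f : X → Eu N) (x : X) : tanSp m f x = LinearMap.range (mfd (m := m) f x).toLinearMap :=
  rfl

theorem hasFDerivAt_inChart (f : X → Eu N) (x : X)
    (h : MDifferentiableAt (𝓡 m) 𝓘(ℝ, Eu N) f x) :
    HasFDerivAt (inChart m f x) (mfd f x) (extChartAt (𝓡 m) x x) := by
  have h2 : HasFDerivWithinAt (inChart m f x) (mfd f x) (Set.range (𝓡 m))
    (extChartAt (𝓡 m) x x) := h.hasMFDerivAt.2
  have h1 : Set.range (𝓡 m) = Set.univ := ModelWithCorners.range_eq_univ _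
  rw [h1, hasFDerivWithinAt_univ] at h2
  exact h2

theorem contMDiffAt_iff_inChart (f : X → Eu N) (x : X) :
    ContMDiffAt (𝓡 m) 𝓘(ℝ, Eu N) ∞ f x ↔
      ContDiffAt ℝ ∞ (inChart m f x) (extChartAt (𝓡 m) x x) := by
  rw [contMDiffAt_iff]
  have h1 : Set.range (𝓡 m) = Set.univ := ModelWithCorners.range_eq_univ _
  rw [h1, contDiffWithinAt_univ]
  constructor
  · intro h
    exact h.2
  · intro h
    refine ⟨?_, h⟩
    have h2 : f =ᶠ[𝓝 x] inChart m f x ∘ extChartAt (𝓡 m) x := by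
      filter_upwards [extChartAt_source_mem_nhds (I := 𝓡 m) x] with y hy
      unfold inChart
      rw [Function.comp_apply, (extChartAt (𝓡 m) x).left_inv hy]
    have h3 : ContinuousAt (inChart m f x ∘ extChartAt (𝓡 m) x) x :=
      ContinuousAt.comp h.continuousAt (continuousAt_extChartAt x)
    exact h3.congr h2.symm

end gen

section aff

variable {m N : ℕ} {G : Type} [Group G] {Ω : TopologicalSpace.Opens (Eu m)} [MulAction G Ω]

/-- The affine map of `g`. -/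
def aff (a : AffAct m G Ω) (g : G) (z : Eu m) : Eu m := a.A g z + a.c g

theorem aff_coe (a : AffAct m G Ω) (g : G) (z : Ω) : aff a g z = ((g • z : Ω) : Eu m) :=
  (a.smul_eq g z).symm

theorem aff_mem (a : AffAct m G Ω) (g : G) {z : Eu m} (hz : z ∈ Ω) : aff a g z ∈ Ω := by
  have := aff_coe a g ⟨z, hz⟩
  rw [this]
  exact (g • (⟨z, hz⟩ : Ω)).2

theorem lift_aff (a : AffAct m G Ω) (f : Quo G Ω → Eu N) (g : G) {z : Eu m} (hz : z ∈ Ω) :
    lift f (aff a g z) = lift f z := by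
  have h1 := aff_coe a g ⟨z, hz⟩
  have h2 := lift_smul f g ⟨z, hz⟩
  rw [h1]
  exact h2

theorem hasFDerivAt_aff (a : AffAct m G Ω) (g : G) (z : Eu m) :
    HasFDerivAt (aff a g) (a.A g : Eu m →L[ℝ] Eu m) z :=
  (a.A g).hasFDerivAt.add_const _

theorem contDiff_aff (a : AffAct m G Ω) (g : G) : ContDiff ℝ ∞ (aff a g) :=
  (a.A g).contDiff.add contDiff_const

theorem lift_aff_eventually (a : AffAct m G Ω) (f : Quo G Ω → Eu N) (g : G) {z : Eu m}
    (hz : z ∈ Ω) : lift f ∘ aff a g =ᶠ[𝓝 z] lift f := by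
  filter_upwards [Ω.isOpen.mem_nhds hz] with w hw
  exact lift_aff a f g hw

theorem contDiffAt_lift_of_aff (a : AffAct m G Ω) (f : Quo G Ω → Eu N) (g : G) {z : Eu m}
    (hz : z ∈ Ω) (h : ContDiffAt ℝ ∞ (lift f) (aff a g z)) : ContDiffAt ℝ ∞ (lift f) z :=
  (h.comp z (contDiff_aff a g).contDiffAt).congr_of_eventuallyEq (lift_aff_eventually a f g hz).symm

theorem fderiv_lift_aff (a : AffAct m G Ω) (f : Quo G Ω → Eu N) (g : G) {z : Eu m}
    (hz : z ∈ Ω) (h : DifferentiableAt ℝ (lift f) (aff a g z)) :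
    fderiv ℝ (lift f) z = (fderiv ℝ (lift f) (aff a g z)).comp (a.A g : Eu m →L[ℝ] Eu m) := by
  have h1 := (h.hasFDerivAt.comp z (hasFDerivAt_aff a g z))
  exact (h1.congr_of_eventuallyEq (lift_aff_eventually a f g hz).symm).fderiv

/-- Two points with the same class are related by an element of the group. -/
theorem exists_aff_of_pr_eq (a : AffAct m G Ω) {z w : Ω} (h : pr G z = pr G w) :
    ∃ g : G, aff a g z = w := by
  have h1 : (MulAction.orbitRel G Ω).r w z := by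
    exact Quotient.exact h.symm
  obtain ⟨g, hg⟩ := MulAction.orbitRel_apply.1 h1
  refine ⟨g, ?_⟩
  rw [aff_coe]
  exact congrArg Subtype.val hg

end aff


section secderiv

variable {m N : ℕ}

theorem one_add_one_le_inf : ((1 : ℕ∞ω) + 1) ≤ ((⊤ : ℕ∞) : ℕ∞ω) := by
  exact WithTop.coe_le_coe.2 le_top

theorem one_le_inf : (1 : ℕ∞ω) ≤ ((⊤ : ℕ∞) : ℕ∞ω) := by
  exact_mod_cast (le_top : (1 : ℕ∞) ≤ ⊤)

theorem fderiv_fderiv_apply {g : Eu m → Eu N} {z : Eu m} (hg : ContDiffAt ℝ ∞ g z) (v w : Eu m) :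
    fderiv ℝ (fun z' => fderiv ℝ g z' v) z w = fderiv ℝ (fderiv ℝ g) z w v := by
  have h1 : DifferentiableAt ℝ (fderiv ℝ g) z :=
    (hg.fderiv_right (m := 1) one_add_one_le_inf).differentiableAt (by norm_num)
  have h2 := h1.hasFDerivAt.clm_apply (hasFDerivAt_const v z)
  rw [h2.fderiv]
  simp

/-- The first two derivatives of `g` along a curve. -/
theorem deriv2_comp {g : Eu m → Eu N} {u : ℝ → Eu m} {z : Eu m} (hz : u 0 = z)
    (hg : ContDiffAt ℝ ∞ g z) (hu : ContDiffAt ℝ ∞ u 0) :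
    deriv (g ∘ u) 0 = fderiv ℝ g z (deriv u 0) ∧
    iteratedDeriv 2 (g ∘ u) 0 =
      fderiv ℝ (fun z' => fderiv ℝ g z' (deriv u 0)) z (deriv u 0)
        + fderiv ℝ g z (iteratedDeriv 2 u 0) := by
  subst hz
  have ev : ∀ᶠ t in 𝓝 (0 : ℝ), deriv (g ∘ u) t = fderiv ℝ g (u t) (deriv u t) := by
    have h1 : ∀ᶠ z' in 𝓝 (u 0), ContDiffAt ℝ 1 g z' :=
      (hg.of_le one_le_inf).eventually (by norm_num)
    have h2 : ∀ᶠ t in 𝓝 (0 : ℝ), ContDiffAt ℝ 1 u t :=
      (hu.of_le one_le_inf).eventually (by norm_num)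
    filter_upwards [hu.continuousAt.eventually h1, h2] with t h3 h4
    exact ((h3.differentiableAt (by norm_num)).hasFDerivAt.comp_hasDerivAt t
      (h4.differentiableAt (by norm_num)).hasDerivAt).deriv
  refine ⟨ev.self_of_nhds, ?_⟩
  have e2 : ∀ (F : ℝ → Eu N), iteratedDeriv 2 F = deriv (deriv F) := fun F => by
    rw [iteratedDeriv_succ, iteratedDeriv_one]
  have e3 : iteratedDeriv 2 u = deriv (deriv u) := by
    rw [iteratedDeriv_succ, iteratedDeriv_one]
  rw [e2, e3]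
  have ev' : deriv (g ∘ u) =ᶠ[𝓝 0] fun t => fderiv ℝ g (u t) (deriv u t) := ev
  rw [ev'.deriv_eq]
  have h1 : HasFDerivAt (fderiv ℝ g) (fderiv ℝ (fderiv ℝ g) (u 0)) (u 0) :=
    ((hg.fderiv_right (m := 1) one_add_one_le_inf).differentiableAt (by norm_num)).hasFDerivAt
  have h2 : HasDerivAt u (deriv u 0) 0 := (hu.differentiableAt (by norm_num)).hasDerivAt
  have h3 := h1.comp_hasDerivAt (0 : ℝ) h2
  have h4 : HasDerivAt (deriv u) (deriv (deriv u) 0) 0 := by
    have h5 : ContDiffAt ℝ 1 (deriv u) 0 := by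
      have h6 : ContDiffAt ℝ 1 (fun t => fderiv ℝ u t (1 : ℝ)) 0 :=
        (hu.fderiv_right (m := 1) one_add_one_le_inf).clm_apply contDiffAt_const
      exact h6
    exact (h5.differentiableAt (by norm_num)).hasDerivAt
  have h7 := (h3.clm_apply h4).deriv
  rw [fderiv_fderiv_apply hg]
  exact h7

end secderiv


theorem starProj_congr {N : ℕ} {S T : Submodule ℝ (Eu N)} (h : S = T) (x : Eu N) :
    (Sᗮ).starProjection x = (Tᗮ).starProjection x := by
  subst h
  rfl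

section rep

variable {m N : ℕ} {G : Type} [Group G] {Ω : TopologicalSpace.Opens (Eu m)} [MulAction G Ω]
  [ProperlyDiscontinuousSMul G Ω] [ContinuousConstSMul G Ω] [IsCancelSMul G Ω]

/-- Smoothness and derivative at a point of the quotient, at the representative given by the
chart. -/
theorem rep_at (f : Quo G Ω → Eu N) (x : Quo G Ω) : ∃ z : Ω, pr G z = x ∧
    extChartAt (𝓡 m) x x = (z : Eu m) ∧
    inChart m f x =ᶠ[𝓝 (z : Eu m)] lift f ∧
    (ContMDiffAt (𝓡 m) 𝓘(ℝ, Eu N) ∞ f x ↔ ContDiffAt ℝ ∞ (lift f) (z : Eu m)) ∧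
    (MDifferentiableAt (𝓡 m) 𝓘(ℝ, Eu N) f x → mfd f x = fderiv ℝ (lift f) (z : Eu m)) := by
  obtain ⟨z, hz, hxz, hs⟩ := Pool.Agent.helper91.MC.chart_symm x
  have h1 : inChart m f x =ᶠ[𝓝 (z : Eu m)] lift f := by
    filter_upwards [Ω.isOpen.mem_nhds z.2] with w hw
    unfold inChart
    rw [hs w hw]
    exact (lift_coe f ⟨w, hw⟩).symm
  refine ⟨z, hz, hxz, h1, ?_, ?_⟩
  · rw [contMDiffAt_iff_inChart, hxz]
    exact ⟨fun h => h.congr_of_eventuallyEq h1.symm, fun h => h.congr_of_eventuallyEq h1⟩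
  · intro h
    have h2 := hasFDerivAt_inChart f x h
    rw [hxz] at h2
    exact (h2.congr_of_eventuallyEq h1.symm).fderiv.symm

/-- A smooth function on the quotient lifts to a smooth function. -/
theorem contDiffAt_lift (a : AffAct m G Ω) (f : Quo G Ω → Eu N)
    (hf : ContMDiff (𝓡 m) 𝓘(ℝ, Eu N) ∞ f) {z : Eu m} (hz : z ∈ Ω) :
    ContDiffAt ℝ ∞ (lift f) z := by
  obtain ⟨z', hz', -, -, h1, -⟩ := rep_at f (pr G ⟨z, hz⟩)
  obtain ⟨g, hg⟩ := exists_aff_of_pr_eq a (z := ⟨z, hz⟩) (w := z') hz'.symm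
  have h2 := h1.1 (hf _)
  rw [← hg] at h2
  exact contDiffAt_lift_of_aff a f g hz h2

/-- The tangent space at a class. -/
theorem tanSp_pr (a : AffAct m G Ω) (f : Quo G Ω → Eu N)
    (hf : ContMDiff (𝓡 m) 𝓘(ℝ, Eu N) ∞ f) {z : Eu m} (hz : z ∈ Ω) :
    tanSp m f (pr G ⟨z, hz⟩) = LinearMap.range (fderiv ℝ (lift f) z).toLinearMap := by
  obtain ⟨z', hz', -, -, -, h1⟩ := rep_at f (pr G ⟨z, hz⟩)
  obtain ⟨g, hg⟩ := exists_aff_of_pr_eq a (z := ⟨z, hz⟩) (w := z') hz'.symm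
  rw [tanSp_eq_mfd, h1 ((hf _).mdifferentiableAt (by norm_num))]
  have h2 : DifferentiableAt ℝ (lift f) (aff a g z) := by
    have := contDiffAt_lift a f hf (aff_mem a g hz)
    exact this.differentiableAt (by norm_num)
  rw [fderiv_lift_aff a f g hz h2, ← hg]
  ext y
  constructor
  · rintro ⟨v, rfl⟩
    refine ⟨(a.A g).symm v, ?_⟩
    simp
  · rintro ⟨v, rfl⟩
    exact ⟨a.A g v, rfl⟩

/-- Immersions of the quotient are the invariant immersions of `Ω`.
PROOF. `IsManifold (𝓡 m) ∞ (Quo G Ω)` by `isManifold_quo a`. Smoothness of `f` at `x`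
(`contMDiffAt_iff` / `contMDiffAt_iff_source`) is smoothness of `inChart m f x` at
`extChartAt _ x x` (plus continuity), and `mfderiv f x = fderiv (inChart m f x) (extChartAt _ x x)`
(`mfderiv` unfolded, `writtenInExtChartAt`, `fderivWithin_univ`). By `chart_rep` this is smoothness
(and the derivative) of `lift f` at one representative `z` of `x`; all other points of the orbit of
`z` are of the form `A g z + c g`, and `lift f (A g w + c g) = lift f w` for `w` in `Ω`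
(`lift_smul`, `a.smul_eq`), so `lift f` is smooth there too and
`fderiv (lift f) (A g z + c g) ∘ A g = fderiv (lift f) z`. -/
theorem _root_.Pool.Agent.helper8.MC.isImm_iff (a : AffAct m G Ω) (f : Quo G Ω → Eu N) :
    IsImm m f ↔ FlatImm (lift f) (Ω : Set (Eu m)) := by
  constructor
  · intro hf
    refine ⟨fun z hz => (contDiffAt_lift a f hf.smooth hz).contDiffWithinAt, ?_⟩
    intro z hz
    obtain ⟨z', hz', -, -, -, h1⟩ := rep_at f (pr G ⟨z, hz⟩)
    obtain ⟨g, hg⟩ := exists_aff_of_pr_eq a (z := ⟨z, hz⟩) (w := z') hz'.symm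
    have h2 : DifferentiableAt ℝ (lift f) (aff a g z) :=
      (contDiffAt_lift a f hf.smooth (aff_mem a g hz)).differentiableAt (by norm_num)
    have h3 : Function.Injective (mfd f (pr G ⟨z, hz⟩)) := hf.inj (pr G ⟨z, hz⟩)
    rw [h1 ((hf.smooth _).mdifferentiableAt (by norm_num))] at h3
    rw [fderiv_lift_aff a f g hz h2, hg]
    exact h3.comp (a.A g).injective
  · intro hf
    have hs : ∀ z ∈ Ω, ContDiffAt ℝ ∞ (lift f) z := fun z hz =>
      (hf.smooth z hz).contDiffAt (Ω.isOpen.mem_nhds hz)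
    have hsm : ContMDiff (𝓡 m) 𝓘(ℝ, Eu N) ∞ f := by
      intro x
      obtain ⟨z, -, -, -, h1, -⟩ := rep_at f x
      exact h1.2 (hs z z.2)
    refine ⟨hsm, ?_⟩
    intro x
    obtain ⟨z, -, -, -, -, h1⟩ := rep_at f x
    have h2 : Function.Injective (mfd (m := m) f x) := by
      rw [h1 ((hsm _).mdifferentiableAt (by norm_num))]
      exact hf.inj z z.2
    exact h2

/-- The projection of a smooth curve in `Ω` is a smooth curve in the quotient. -/
theorem contMDiff_pr_comp (a : AffAct m G Ω) {u : ℝ → Eu m} (hu : ContDiff ℝ ∞ u)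
    (huΩ : ∀ t, u t ∈ Ω) :
    ContMDiff 𝓘(ℝ, ℝ) (𝓡 m) ∞ (fun t => pr G (⟨u t, huΩ t⟩ : Ω)) := by
  have := isManifold_quo a
  intro t
  obtain ⟨z, hz, hxz, hs⟩ := Pool.Agent.helper91.MC.chart_symm (pr G (⟨u t, huΩ t⟩ : Ω))
  obtain ⟨g, hg⟩ := exists_aff_of_pr_eq a (z := ⟨u t, huΩ t⟩) (w := z) hz.symm
  have h1 : (fun t => pr G (⟨u t, huΩ t⟩ : Ω)) =
      (extChartAt (𝓡 m) (pr G (⟨u t, huΩ t⟩ : Ω))).symm ∘ (fun s => aff a g (u s)) := by
    funext s
    rw [Function.comp_apply, hs _ (aff_mem a g (huΩ s))]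
    have h2 := pr_smul g (⟨u s, huΩ s⟩ : Ω)
    rw [← h2]
    unfold pr
    congr 1
    exact Subtype.ext (aff_coe a g ⟨u s, huΩ s⟩).symm
  have h3 : ContMDiffAt 𝓘(ℝ, Eu m) (𝓡 m) ∞
      (extChartAt (𝓡 m) (pr G (⟨u t, huΩ t⟩ : Ω))).symm (aff a g (u t)) := by
    rw [hg, ← hxz]
    exact (contMDiffOn_extChartAt_symm _).contMDiffAt (extChartAt_target_mem_nhds _)
  have h4 : ContMDiffAt 𝓘(ℝ, ℝ) 𝓘(ℝ, Eu m) ∞ (fun s => aff a g (u s)) t :=
    ((contDiff_aff a g).comp hu).contDiffAt.contMDiffAt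
  rw [h1]
  exact h3.comp t h4

/-- The test curve through `z` with velocity `w` and acceleration `0`. -/
theorem exists_curve {z : Eu m} (hz : z ∈ Ω) (w : Eu m) :
    ∃ u : ℝ → Eu m, ContDiff ℝ ∞ u ∧ (∀ t, u t ∈ Ω) ∧ u 0 = z ∧ deriv u 0 = w ∧
      iteratedDeriv 2 u 0 = 0 := by
  obtain ⟨ε, hε, hball⟩ := Metric.isOpen_iff.1 Ω.isOpen z hz
  have hw : 0 < ‖w‖ + 1 := by positivity
  let δ : ℝ := ε / (‖w‖ + 1)
  have hδ : 0 < δ := by positivity
  have hd : ∀ t : ℝ, HasDerivAt (fun t : ℝ => z + (δ * Real.sin (t / δ)) • w)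
      (Real.cos (t / δ) • w) t := by
    intro t
    have h1 : HasDerivAt (fun t : ℝ => δ * Real.sin (t / δ)) (Real.cos (t / δ)) t := by
      have h2 := ((hasDerivAt_id t).div_const δ).sin.const_mul δ
      refine h2.congr_deriv ?_
      field_simp
      simp
    exact (h1.smul_const w).const_add z
  refine ⟨fun t => z + (δ * Real.sin (t / δ)) • w, ?_, ?_, ?_, ?_, ?_⟩
  · fun_prop
  · intro t
    apply hball
    rw [Metric.mem_ball, dist_eq_norm, add_sub_cancel_left, norm_smul, Real.norm_eq_abs, abs_mul,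
      abs_of_pos hδ]
    have h1 : |Real.sin (t / δ)| ≤ 1 := Real.abs_sin_le_one _
    calc δ * |Real.sin (t / δ)| * ‖w‖ ≤ δ * 1 * ‖w‖ := by gcongr
      _ = ε * (‖w‖ / (‖w‖ + 1)) := by simp only [δ]; ring
      _ < ε * 1 := by
        apply mul_lt_mul_of_pos_left _ hε
        rw [div_lt_one hw]
        linarith
      _ = ε := mul_one _
  · simp
  · rw [(hd 0).deriv]
    simp
  · rw [iteratedDeriv_succ, iteratedDeriv_one]
    have h1 : deriv (fun t : ℝ => z + (δ * Real.sin (t / δ)) • w)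
        = fun t => Real.cos (t / δ) • w := funext fun t => (hd t).deriv
    rw [h1]
    have h2 : HasDerivAt (fun t : ℝ => Real.cos (t / δ)) (-Real.sin (0 / δ) * (1 / δ)) 0 := by
      exact ((hasDerivAt_id (0 : ℝ)).div_const δ).cos
    rw [(h2.smul_const w).deriv]
    simp

theorem nII_smul (g : Eu m → Eu N) {z : Eu m} (hg : ContDiffAt ℝ ∞ g z) (r : ℝ) (v : Eu m) :
    nII g z (r • v) = r ^ 2 • nII g z v := by
  unfold nII
  rw [fderiv_fderiv_apply hg, fderiv_fderiv_apply hg]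
  simp only [map_smul, smul_apply, smul_smul]
  rw [sq]

/-- PROOF. Let `z : Ω`, `v : Eu m`, `g = lift f` (smooth on `Ω`, `isImm_iff`). The curve
`γ t = pr G (z + (δ sin (t / δ)) • v)` (`δ > 0` so small that the segment lies in `Ω`; outside `Ω`
nothing is needed) is a smooth curve in the quotient (`pr G` is smooth: it is a local inverse of the
charts; or: near every point it is the composition of an affine curve with an inverse chart, use
`chart_rep` and the invariance), `f ∘ γ = g (z + φ t • v)` with `φ 0 = 0, φ' 0 = 1, φ'' 0 = 0`, so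
`deriv (f ∘ γ) 0 = fderiv g z v`, `iteratedDeriv 2 (f ∘ γ) 0 = D²g(v, v)` at `z`, and
`tanSp m f (pr G z) = range (fderiv g z)` (`chart_rep` at a representative, then invariance under
`A γ · + c γ`). Homogeneity in `v` (`nII g z (r • v) = r ^ 2 • nII g z v`) turns the supremum over
the vectors with `‖fderiv g z v‖ = 1` into the inequality for all `v` (`fderiv g z` is
injective). -/
theorem _root_.Pool.Agent.helper8.MC.curvLE_lift (a : AffAct m G Ω) (f : Quo G Ω → Eu N) (hf : IsImm m f) {c : ℝ} (hc : 0 ≤ c)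
    (h : curv m f ≤ ENNReal.ofReal c) : CurvLE (lift f) (Ω : Set (Eu m)) c := by
  intro z hz v
  have hg := contDiffAt_lift a f hf.smooth hz
  have key : ∀ w : Eu m, ‖fderiv ℝ (lift f) z w‖ = 1 → ‖nII (lift f) z w‖ ≤ c := by
    intro w hw
    obtain ⟨u, hu, huΩ, hu0, hu1, hu2⟩ := exists_curve hz w
    have h1 := contMDiff_pr_comp a hu huΩ
    have h2 : f ∘ (fun t => pr G (⟨u t, huΩ t⟩ : Ω)) = lift f ∘ u := by
      funext t
      exact (lift_coe f ⟨u t, huΩ t⟩).symm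
    have h3 := deriv2_comp hu0 hg hu.contDiffAt
    rw [hu1, hu2, map_zero, add_zero] at h3
    have h4 : ‖deriv (f ∘ fun t => pr G (⟨u t, huΩ t⟩ : Ω)) 0‖ = 1 := by
      rw [h2, h3.1, hw]
    have h5 : ENNReal.ofReal ‖normAcc m f (fun t => pr G (⟨u t, huΩ t⟩ : Ω))‖
        ≤ ENNReal.ofReal c := by
      refine le_trans ?_ h
      exact le_iSup_of_le _ (le_iSup_of_le h1 (le_iSup_of_le h4 le_rfl))
    have h6 : normAcc m f (fun t => pr G (⟨u t, huΩ t⟩ : Ω)) = nII (lift f) z w := by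
      unfold normAcc nII
      rw [h2, h3.2]
      refine starProj_congr ?_ _
      exact (tanSp_pr a f hf.smooth (huΩ 0)).trans (by rw [hu0])
    rw [h6] at h5
    exact (ENNReal.ofReal_le_ofReal_iff hc).1 h5
  by_cases hv : fderiv ℝ (lift f) z v = 0
  · have hv0 : v = 0 := by
      have h1 := ((isImm_iff a f).1 hf).inj z hz
      exact h1 (by rw [hv, map_zero])
    subst hv0
    have h1 := nII_smul (lift f) hg 0 (0 : Eu m)
    rw [zero_smul] at h1
    rw [h1]
    simp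
  · have hr : 0 < ‖fderiv ℝ (lift f) z v‖ := norm_pos_iff.2 hv
    obtain ⟨r, hrdef⟩ : ∃ r : ℝ, r = ‖fderiv ℝ (lift f) z v‖ := ⟨_, rfl⟩
    rw [← hrdef] at hr ⊢
    have h1 := key (r⁻¹ • v) (by
      rw [map_smul, norm_smul, ← hrdef, Real.norm_eq_abs, abs_of_pos (inv_pos.2 hr)]
      exact inv_mul_cancel₀ hr.ne')
    rw [nII_smul (lift f) hg, norm_smul, Real.norm_eq_abs, abs_of_nonneg (sq_nonneg _)] at h1
    have h2 : ‖nII (lift f) z v‖ = r ^ 2 * (r⁻¹ ^ 2 * ‖nII (lift f) z v‖) := by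
      field_simp
    rw [h2, mul_comm c]
    exact mul_le_mul_of_nonneg_left h1 (sq_nonneg r)

/-- PROOF. `iSup_le`. Let `γ` be a smooth curve, `x = γ 0`, `z` the representative of `chart_rep x`,
`u = extChartAt _ x ∘ γ` (smooth near `0`, `u 0 = z`). Near `0` one has
`f ∘ γ = inChart m f x ∘ u = g ∘ u`, `g = lift f`; so `deriv (f ∘ γ) 0 = fderiv g z (u' 0)` and
`iteratedDeriv 2 (f ∘ γ) 0 = D²g(u' 0, u' 0) + fderiv g z (u'' 0)`, whose normal component is
`nII g z (u' 0)`. `tanSp m f x = range (fderiv g z)`. -/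
theorem _root_.Pool.Agent.helper8.MC.curv_le (a : AffAct m G Ω) (f : Quo G Ω → Eu N) (hf : IsImm m f) {c : ℝ}
    (h : CurvLE (lift f) (Ω : Set (Eu m)) c) : curv m f ≤ ENNReal.ofReal c := by
  have := isManifold_quo a
  refine iSup_le fun γ => iSup_le fun hγ => iSup_le fun hsp => ENNReal.ofReal_le_ofReal ?_
  obtain ⟨z, hz, hxz, h1, h2, h3⟩ := rep_at f (γ 0)
  have hg := h2.1 (hf.smooth _)
  have hD := h3 ((hf.smooth _).mdifferentiableAt (by norm_num))
  -- the curve in the chart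
  have hu : ContDiffAt ℝ ∞ (fun t => extChartAt (𝓡 m) (γ 0) (γ t)) 0 := by
    have h4 : ContMDiffAt 𝓘(ℝ, ℝ) 𝓘(ℝ, Eu m) ∞ (fun t => extChartAt (𝓡 m) (γ 0) (γ t)) 0 :=
      (contMDiffAt_extChartAt).comp 0 (hγ 0)
    exact h4.contDiffAt
  have hu0 : (fun t => extChartAt (𝓡 m) (γ 0) (γ t)) 0 = (z : Eu m) := hxz
  have hev : f ∘ γ =ᶠ[𝓝 0] lift f ∘ (fun t => extChartAt (𝓡 m) (γ 0) (γ t)) := by
    have h5 : ∀ᶠ t in 𝓝 (0 : ℝ), γ t ∈ (extChartAt (𝓡 m) (γ 0)).source :=
      hγ.continuous.continuousAt.eventually (extChartAt_source_mem_nhds _)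
    have h6 : ∀ᶠ t in 𝓝 (0 : ℝ), inChart m f (γ 0) (extChartAt (𝓡 m) (γ 0) (γ t))
        = lift f (extChartAt (𝓡 m) (γ 0) (γ t)) := by
      have h7 := hu.continuousAt
      rw [ContinuousAt, hxz] at h7
      exact h7.eventually h1
    filter_upwards [h5, h6] with t h8 h9
    rw [Function.comp_apply, Function.comp_apply, ← h9]
    unfold inChart
    rw [(extChartAt (𝓡 m) (γ 0)).left_inv h8]
  obtain ⟨h10, h11⟩ := deriv2_comp hu0 hg hu
  have h12 : deriv (f ∘ γ) 0 = _ := hev.deriv_eq.trans h10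
  have h13 : iteratedDeriv 2 (f ∘ γ) 0 = _ := (hev.iteratedDeriv_eq 2).trans h11
  have h14 : normAcc m f γ = nII (lift f) z
      (deriv (fun t => extChartAt (𝓡 m) (γ 0) (γ t)) 0) := by
    unfold normAcc nII
    have h17 : tanSp m f (γ 0) = LinearMap.range (fderiv ℝ (lift f) (z : Eu m)).toLinearMap := by
      rw [tanSp_eq_mfd, hD]
    rw [starProj_congr h17, h13, map_add]
    have h15 : ((LinearMap.range (fderiv ℝ (lift f) (z : Eu m)).toLinearMap)ᗮ).starProjection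
        (fderiv ℝ (lift f) (z : Eu m)
          (iteratedDeriv 2 (fun t => extChartAt (𝓡 m) (γ 0) (γ t)) 0)) = 0 := by
      rw [Submodule.starProjection_apply_eq_zero_iff]
      apply Submodule.le_orthogonal_orthogonal
      exact ⟨_, rfl⟩
    rw [h15, add_zero]
  rw [h14]
  have h16 := h z z.2 (deriv (fun t => extChartAt (𝓡 m) (γ 0) (γ t)) 0)
  rw [← h12, hsp] at h16
  linarith

/-- Uniform lower bound for a continuous family of injective linear maps on a compact set. -/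
theorem lower_on_compact {L : Eu m → (Eu m →L[ℝ] Eu N)} {K : Set (Eu m)} (hK : IsCompact K)
    (hL : ContinuousOn L K) (hinj : ∀ z ∈ K, Function.Injective (L z)) :
    ∃ κ > 0, ∀ z ∈ K, ∀ v : Eu m, κ * ‖v‖ ≤ ‖L z v‖ := by
  have hS : IsCompact (K ×ˢ Metric.sphere (0 : Eu m) 1) := hK.prod (isCompact_sphere _ _)
  have hc : ContinuousOn (fun p : Eu m × Eu m => ‖L p.1 p.2‖) (K ×ˢ Metric.sphere (0 : Eu m) 1) := by
    have h1 : ContinuousOn (fun p : Eu m × Eu m => L p.1) (K ×ˢ Metric.sphere (0 : Eu m) 1) :=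
      hL.comp continuousOn_fst fun p hp => hp.1
    exact (h1.clm_apply continuousOn_snd).norm
  rcases (K ×ˢ Metric.sphere (0 : Eu m) 1).eq_empty_or_nonempty with he | hne
  · refine ⟨1, one_pos, fun z hz v => ?_⟩
    by_cases hv : v = 0
    · subst hv
      simp
    · exfalso
      have h1 : (z, (‖v‖⁻¹ : ℝ) • v) ∈ K ×ˢ Metric.sphere (0 : Eu m) 1 := by
        refine ⟨hz, ?_⟩
        rw [mem_sphere_zero_iff_norm, norm_smul, norm_inv, norm_norm]
        exact inv_mul_cancel₀ (norm_ne_zero_iff.2 hv)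
      rw [he] at h1
      exact h1
  · obtain ⟨p, hp, hmin⟩ := hS.exists_isMinOn hne hc
    have hpos : 0 < ‖L p.1 p.2‖ := by
      rw [norm_pos_iff]
      intro h0
      have h1 : p.2 = 0 := hinj p.1 hp.1 (by rw [h0, map_zero])
      have h2 := hp.2
      rw [h1, mem_sphere_zero_iff_norm, norm_zero] at h2
      exact zero_ne_one h2
    refine ⟨‖L p.1 p.2‖, hpos, fun z hz v => ?_⟩
    by_cases hv : v = 0
    · subst hv
      simp
    · have hv' : 0 < ‖v‖ := norm_pos_iff.2 hv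
      have h1 : (z, (‖v‖⁻¹ : ℝ) • v) ∈ K ×ˢ Metric.sphere (0 : Eu m) 1 := by
        refine ⟨hz, ?_⟩
        rw [mem_sphere_zero_iff_norm, norm_smul, norm_inv, norm_norm]
        exact inv_mul_cancel₀ hv'.ne'
      have h2 : ‖L p.1 p.2‖ ≤ ‖L z ((‖v‖⁻¹ : ℝ) • v)‖ :=
        isMinOn_iff.1 hmin (z, (‖v‖⁻¹ : ℝ) • v) h1
      rw [map_smul, norm_smul, norm_inv, norm_norm] at h2
      calc ‖L p.1 p.2‖ * ‖v‖ ≤ (‖v‖⁻¹ * ‖L z v‖) * ‖v‖ := by gcongr
        _ = ‖L z v‖ := by field_simp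

/-- Invariance of the normal part under the group. -/
theorem nII_lift_aff (a : AffAct m G Ω) (f : Quo G Ω → Eu N)
    (hf : ContMDiff (𝓡 m) 𝓘(ℝ, Eu N) ∞ f) (g : G) {z : Eu m} (hz : z ∈ Ω) (v : Eu m) :
    nII (lift f) z v = nII (lift f) (aff a g z) (a.A g v) := by
  have hd : ∀ w ∈ Ω, fderiv ℝ (lift f) w
      = (fderiv ℝ (lift f) (aff a g w)).comp (a.A g : Eu m →L[ℝ] Eu m) := fun w hw =>
    fderiv_lift_aff a f g hw
      ((contDiffAt_lift a f hf (aff_mem a g hw)).differentiableAt (by norm_num))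
  have h1 : LinearMap.range (fderiv ℝ (lift f) z).toLinearMap
      = LinearMap.range (fderiv ℝ (lift f) (aff a g z)).toLinearMap := by
    rw [hd z hz]
    ext y
    constructor
    · rintro ⟨v, rfl⟩
      exact ⟨a.A g v, rfl⟩
    · rintro ⟨v, rfl⟩
      refine ⟨(a.A g).symm v, ?_⟩
      simp
  unfold nII
  rw [starProj_congr h1]
  congr 1
  have hg := contDiffAt_lift a f hf (aff_mem a g hz)
  have h2 : HasFDerivAt (fun z' => fderiv ℝ (lift f) z' (a.A g v))
      (fderiv ℝ (fun z' => fderiv ℝ (lift f) z' (a.A g v)) (aff a g z)) (aff a g z) := by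
    have h3 : ContDiffAt ℝ 1 (fun z' => fderiv ℝ (lift f) z' (a.A g v)) (aff a g z) :=
      (hg.fderiv_right (m := 1) one_add_one_le_inf).clm_apply contDiffAt_const
    exact (h3.differentiableAt (by norm_num)).hasFDerivAt
  have h4 := h2.comp z (hasFDerivAt_aff a g z)
  have h5 : (fun z' => fderiv ℝ (lift f) z' v) =ᶠ[𝓝 z]
      (fun z' => fderiv ℝ (lift f) z' (a.A g v)) ∘ aff a g := by
    filter_upwards [Ω.isOpen.mem_nhds hz] with w hw
    rw [hd w hw]
    rfl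
  rw [h5.fderiv_eq, h4.fderiv]
  rfl

/-- The supremum of the curvature is finite.
PROOF. With `g = lift f`: on the compact set `K` the continuous function
`(z, v) ↦ ‖fderiv g z v‖` is positive on `K × unit sphere`, so at least `κ > 0`; the second
derivative is bounded by `B` on `K`. Hence `‖nII g z v‖ ≤ B ‖v‖ ^ 2 ≤ (B / κ ^ 2) ‖fderiv g z v‖ ^ 2`
for `z ∈ K`. Every orbit meets `K`, so as in `curvLE_lift` the estimate holds at all points of `Ω`.
Then `curv_le`. -/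
theorem _root_.Pool.Agent.helper8.MC.curv_lt_top (a : AffAct m G Ω) (f : Quo G Ω → Eu N) (hf : IsImm m f)
    (K : Set (Eu m)) (hK : IsCompact K) (hKΩ : K ⊆ Ω)
    (hcov : ∀ x : Ω, ∃ g : G, ((g • x : Ω) : Eu m) ∈ K) : curv m f < ⊤ := by
  have hF := (isImm_iff a f).1 hf
  have hg : ∀ z ∈ Ω, ContDiffAt ℝ ∞ (lift f) z := fun z hz => contDiffAt_lift a f hf.smooth hz
  -- lower bound of the first derivative
  have h1 : ContinuousOn (fderiv ℝ (lift f)) K := fun z hz =>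
    ((hg z (hKΩ hz)).fderiv_right (m := 1) one_add_one_le_inf).continuousAt.continuousWithinAt
  have h2 : ContinuousOn (fderiv ℝ (fderiv ℝ (lift f))) K := fun z hz => by
    have h3 : ContDiffAt ℝ ∞ (fderiv ℝ (lift f)) z := (hg z (hKΩ hz)).fderiv_right (m := ∞) (WithTop.coe_le_coe.2 le_top)
    exact (h3.fderiv_right (m := 1) one_add_one_le_inf).continuousAt.continuousWithinAt
  obtain ⟨B, hB⟩ : ∃ B, ∀ z ∈ K, ‖fderiv ℝ (fderiv ℝ (lift f)) z‖ ≤ B :=
    hK.exists_bound_of_continuousOn (f := fun z => fderiv ℝ (fderiv ℝ (lift f)) z) h2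
  obtain ⟨κ, hκ0, hκ⟩ : ∃ κ > 0, ∀ z ∈ K, ∀ v : Eu m, κ * ‖v‖ ≤ ‖fderiv ℝ (lift f) z v‖ :=
    lower_on_compact hK h1 fun z hz => hF.inj z (hKΩ hz)
  have hB' : ∀ z ∈ K, ‖fderiv ℝ (fderiv ℝ (lift f)) z‖ ≤ |B| := fun z hz =>
    (hB z hz).trans (le_abs_self _)
  have key : ∀ z ∈ K, ∀ v : Eu m,
      ‖nII (lift f) z v‖ ≤ (|B| / κ ^ 2) * ‖fderiv ℝ (lift f) z v‖ ^ 2 := by
    intro z hz v
    have h3 : ‖nII (lift f) z v‖ ≤ |B| * ‖v‖ ^ 2 := by
      unfold nII
      refine (Submodule.norm_starProjection_apply_le _ _).trans ?_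
      rw [fderiv_fderiv_apply (hg z (hKΩ hz))]
      refine (ContinuousLinearMap.le_opNorm₂ _ _ _).trans ?_
      rw [mul_assoc, ← sq]
      exact mul_le_mul_of_nonneg_right (hB' z hz) (sq_nonneg _)
    have h4 : (κ * ‖v‖) ^ 2 ≤ ‖fderiv ℝ (lift f) z v‖ ^ 2 :=
      pow_le_pow_left₀ (by positivity) (hκ z hz v) 2
    calc ‖nII (lift f) z v‖ ≤ |B| * ‖v‖ ^ 2 := h3
      _ = (|B| / κ ^ 2) * (κ * ‖v‖) ^ 2 := by field_simp
      _ ≤ _ := by gcongr
  refine lt_of_le_of_lt (curv_le a f hf (c := |B| / κ ^ 2) ?_) ENNReal.ofReal_lt_top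
  intro z hz v
  obtain ⟨g, hgK⟩ := hcov ⟨z, hz⟩
  rw [← aff_coe a g ⟨z, hz⟩] at hgK
  have h5 := key _ hgK (a.A g v)
  rw [← nII_lift_aff a f hf.smooth g hz v] at h5
  have h6 : fderiv ℝ (lift f) z v = fderiv ℝ (lift f) (aff a g z) (a.A g v) := by
    rw [fderiv_lift_aff a f g hz
      ((hg _ (aff_mem a g hz)).differentiableAt (by norm_num))]
    rfl
  rw [h6]
  exact h5

end rep

end Pool.Agent.helper8.MC.Q2
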