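import Pool.Agent.helper8.MC.Flat

/-!
# MC-S: the uniform Euler step
-/

open scoped Manifold ContDiff Topology InnerProductSpace

noncomputable section

namespace Pool.Agent.helper8.MC

variable {m : ℕ} {G : Type} [Group G] {Ω : TopologicalSpace.Opens (Eu m)} [MulAction G Ω]

/-- A `C¹` function is uniformly differentiable on a compact set.
PROOF. `K` compact in the open set `Ω`: there is `r > 0` with `Metric.cthickening r K ⊆ Ω`
(`IsCompact.exists_cthickening_subset_open`); on this compact set `fderiv ℝ F` is uniformly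
continuous, so for `η` there is `δ < r` with `‖fderiv F w - fderiv F x‖ ≤ η` for `x ∈ K`,
`‖w - x‖ ≤ δ`; mean value inequality on the ball (`Convex.norm_image_sub_le_of_norm_fderiv_le'`
or similar). -/
theorem uniform_diff (F : Eu m → ℝ) (hF : ContDiffOn ℝ 1 F (Ω : Set (Eu m)))
    (K : Set (Eu m)) (hK : IsCompact K) (hKΩ : K ⊆ Ω) {η : ℝ} (hη : 0 < η) :
    ∃ δ > 0, ∀ x ∈ K, ∀ u : Eu m, ‖u‖ ≤ δ → x + u ∈ Ω ∧
      |F (x + u) - F x - fderiv ℝ F x u| ≤ η * ‖u‖ := by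
  sorry

/-- The uniform Euler step in the field `U`, for the invariant function `h` and the semi-invariant
function `α`.
PROOF. On `K` the field `U` is bounded, `‖U‖ ≤ B`; apply `uniform_diff` with `η / (B + 1)` and
`u = ε • U x` to `h` and `α`. For a general `x : Ω` take `γ` with `γ • x ∈ K`:
`A γ (x + ε • U x) + c γ = γ • x + ε • U (γ • x)`. This point `q` is in `Ω`; so is
`x + ε • U x = γ⁻¹ • q` (`a.smul_eq` for `γ⁻¹` and `γ`: `A γ⁻¹ (A γ z + c γ) + c γ⁻¹ = z` holds for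
`z ∈ Ω`, an open set, so for all `z`, as affine maps that agree on a non-empty open set are equal;
there is a point `x` of `Ω`). Then use the invariance (`(α (γ • y)) ^ 2 = (α y) ^ 2`). -/
theorem euler_step (a : AffAct m G Ω) (K : Set (Eu m)) (hK : IsCompact K) (hKΩ : K ⊆ Ω)
    (hcov : ∀ x : Ω, ∃ γ : G, ((γ • x : Ω) : Eu m) ∈ K)
    (h α : Eu m → ℝ) (hh : ContDiffOn ℝ 1 h (Ω : Set (Eu m)))
    (hα : ContDiffOn ℝ 1 α (Ω : Set (Eu m)))
    (U : Eu m → Eu m) (hU : ContinuousOn U (Ω : Set (Eu m)))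
    (χ : G → ℝ) (hχ : ∀ γ, |χ γ| = 1)
    (hinv : ∀ (γ : G) (x : Ω), h ((γ • x : Ω) : Eu m) = h (x : Eu m))
    (αinv : ∀ (γ : G) (x : Ω), α ((γ • x : Ω) : Eu m) = χ γ * α (x : Eu m))
    (Uinv : ∀ (γ : G) (x : Ω), U ((γ • x : Ω) : Eu m) = a.A γ (U (x : Eu m)))
    (c : ℝ)
    (h1 : ∀ z ∈ Ω, fderiv ℝ h z (U z) = 1 - α z ^ 2)
    (h2 : ∀ z ∈ Ω, |fderiv ℝ α z (U z)| ≤ c) {η : ℝ} (hη : 0 < η) :
    ∃ ε0 > 0, ∀ ε : ℝ, 0 < ε → ε < ε0 → ∀ x ∈ Ω, x + ε • U x ∈ Ω ∧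
      h x + ε * (1 - α x ^ 2) - η * ε ≤ h (x + ε • U x) ∧
      |α (x + ε • U x) - α x| ≤ (c + η) * ε := by
  sorry

end Pool.Agent.helper8.MC
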