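import Pool.Agent.helper8.MC.Flat

/-!
# MC-T: an odd immersion of the torus in codimension one (iterated figure eight)
-/

open scoped Manifold ContDiff Topology InnerProductSpace

noncomputable section

namespace Pool.Agent.helper8.MC

/-- The period vectors of the torus `ℝⁿ / 2πℤⁿ`. -/
def per {n : ℕ} (k : Fin n → ℤ) : Eu n := WithLp.toLp 2 (fun i => 2 * Real.pi * (k i : ℝ))

/-! ### Compactness -/

/-- The fundamental cube. -/
def cube (n : ℕ) : Set (Eu n) :=
  (EuclideanSpace.equiv (Fin n) ℝ).symm '' (Set.pi Set.univ fun _ => Set.Icc 0 (2 * Real.pi))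

theorem cube_compact (n : ℕ) : IsCompact (cube n) :=
  (isCompact_univ_pi fun _ => isCompact_Icc).image
    (EuclideanSpace.equiv (Fin n) ℝ).symm.continuous

theorem exists_per_mem_cube {n : ℕ} (s : Eu n) : ∃ k, s + per k ∈ cube n := by
  have hpi : (0 : ℝ) < 2 * Real.pi := by positivity
  refine ⟨fun i => -⌊s i / (2 * Real.pi)⌋, ?_⟩
  refine ⟨fun i => 2 * Real.pi * Int.fract (s i / (2 * Real.pi)), ?_, ?_⟩
  · intro i _
    constructor
    · exact mul_nonneg hpi.le (Int.fract_nonneg _)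
    · have := (Int.fract_lt_one (s i / (2 * Real.pi))).le
      nlinarith
  · ext i
    simp only [per, PiLp.add_apply, Int.cast_neg]
    change 2 * Real.pi * Int.fract (s i / (2 * Real.pi)) = _
    have : s i = 2 * Real.pi * (s i / (2 * Real.pi)) := by field_simp
    rw [Int.fract]
    nth_rw 3 [this]
    ring

/-- A continuous function with a lower bound property on the cube: periodic functions are bounded. -/
theorem per_bdd {n : ℕ} {F : Type*} [NormedAddCommGroup F] (g : Eu n → F) (hg : Continuous g)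
    (hp : ∀ s k, g (s + per k) = g s) : ∃ B, 0 ≤ B ∧ ∀ s, ‖g s‖ ≤ B := by
  obtain ⟨B, hB⟩ := (cube_compact n).exists_bound_of_continuousOn hg.continuousOn
  refine ⟨max B 0, le_max_right _ _, fun s => ?_⟩
  obtain ⟨k, hk⟩ := exists_per_mem_cube s
  rw [← hp s k]
  exact (hB _ hk).trans (le_max_left _ _)

theorem fderiv_per {n : ℕ} {F : Type*} [NormedAddCommGroup F] [NormedSpace ℝ F] (g : Eu n → F)
    (hp : ∀ s k, g (s + per k) = g s) (s : Eu n) (k : Fin n → ℤ) :
    fderiv ℝ g (s + per k) = fderiv ℝ g s := by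
  have h : (fun s => g (s + per k)) = g := funext fun s => hp s k
  have h2 := fderiv_comp_add_right (𝕜 := ℝ) (f := g) (x := s) (per k)
  rw [h] at h2
  exact h2.symm

theorem per_upper {n : ℕ} {F : Type*} [NormedAddCommGroup F] [NormedSpace ℝ F] (g : Eu n → F)
    (hg : ContDiff ℝ ∞ g) (hp : ∀ s k, g (s + per k) = g s) :
    ∃ B, 0 ≤ B ∧ ∀ s u, ‖fderiv ℝ g s u‖ ≤ B * ‖u‖ := by
  obtain ⟨B, hB0, hB⟩ := per_bdd (fderiv ℝ g) (hg.continuous_fderiv (by simp))
    (fun s k => fderiv_per g hp s k)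
  exact ⟨B, hB0, fun s u => (ContinuousLinearMap.le_opNorm _ _).trans
    (mul_le_mul_of_nonneg_right (hB s) (norm_nonneg _))⟩

theorem per_lower {n : ℕ} {F : Type*} [NormedAddCommGroup F] [NormedSpace ℝ F] (g : Eu n → F)
    (hg : ContDiff ℝ ∞ g) (hp : ∀ s k, g (s + per k) = g s)
    (hi : ∀ s, Function.Injective (fderiv ℝ g s)) :
    ∃ κ, 0 < κ ∧ ∀ s u, κ * ‖u‖ ≤ ‖fderiv ℝ g s u‖ := by
  have hc : Continuous (fun p : Eu n × Eu n => ‖fderiv ℝ g p.1 p.2‖) :=
    ((hg.continuous_fderiv (by simp)).comp continuous_fst |>.clm_apply continuous_snd).norm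
  have hK : IsCompact (cube n ×ˢ Metric.sphere (0 : Eu n) 1) :=
    (cube_compact n).prod (isCompact_sphere _ _)
  -- a positive lower bound on the compact set
  have key : ∃ κ, 0 < κ ∧ ∀ p ∈ cube n ×ˢ Metric.sphere (0 : Eu n) 1,
      κ ≤ ‖fderiv ℝ g p.1 p.2‖ := by
    rcases (cube n ×ˢ Metric.sphere (0 : Eu n) 1).eq_empty_or_nonempty with h | h
    · exact ⟨1, one_pos, by simp [h]⟩
    · obtain ⟨p, hp1, hp2⟩ := hK.exists_isMinOn h hc.continuousOn
      refine ⟨‖fderiv ℝ g p.1 p.2‖, ?_, fun q hq => hp2 hq⟩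
      rw [norm_pos_iff]
      intro h0
      have : p.2 = 0 := hi p.1 (by rw [h0, map_zero])
      have h1 : ‖p.2‖ = 1 := by simpa using hp1.2
      rw [this] at h1
      simp at h1
  obtain ⟨κ, hκ, hmin⟩ := key
  refine ⟨κ, hκ, fun s u => ?_⟩
  by_cases hu : u = 0
  · simp [hu]
  obtain ⟨k, hk⟩ := exists_per_mem_cube s
  have hu' : 0 < ‖u‖ := norm_pos_iff.2 hu
  have h1 := hmin (s + per k, ‖u‖⁻¹ • u) ⟨hk, by
    simp only [mem_sphere_iff_norm, sub_zero, norm_smul, norm_inv, norm_norm]
    exact inv_mul_cancel₀ hu'.ne'⟩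
  simp only [fderiv_per g hp, map_smul, norm_smul, norm_inv, norm_norm] at h1
  rw [inv_mul_eq_div, le_div_iff₀ hu'] at h1
  exact h1

/-! ### Splitting off the last coordinate -/

/-- The first `n` coordinates. -/
def ini (n : ℕ) : Eu (n + 1) →L[ℝ] Eu n :=
  LinearMap.toContinuousLinearMap
    { toFun := fun u => WithLp.toLp 2 (fun i => u i.castSucc)
      map_add' := fun _ _ => rfl
      map_smul' := fun _ _ => rfl }

/-- The last coordinate. -/
def lst (n : ℕ) : Eu (n + 1) →L[ℝ] ℝ :=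
  LinearMap.toContinuousLinearMap
    { toFun := fun u => u (Fin.last n)
      map_add' := fun _ _ => rfl
      map_smul' := fun _ _ => rfl }

/-- Adding a last coordinate. -/
def emb (n : ℕ) : Eu n →L[ℝ] Eu (n + 1) :=
  LinearMap.toContinuousLinearMap
    { toFun := fun u => WithLp.toLp 2 (Fin.snoc (α := fun _ => ℝ) (fun i => u i) 0)
      map_add' := fun x y => by
        ext i
        refine Fin.lastCases ?_ (fun i => ?_) i <;> simp
      map_smul' := fun c x => by
        ext i
        refine Fin.lastCases ?_ (fun i => ?_) i <;> simp }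

/-- The last basis vector. -/
def eL (n : ℕ) : Eu (n + 1) := WithLp.toLp 2 (Fin.snoc (α := fun _ => ℝ) (fun _ => 0) 1)

@[simp] theorem ini_apply (n : ℕ) (u : Eu (n + 1)) (i : Fin n) : ini n u i = u i.castSucc := rfl

@[simp] theorem lst_apply (n : ℕ) (u : Eu (n + 1)) : lst n u = u (Fin.last n) := rfl

@[simp] theorem emb_castSucc (n : ℕ) (u : Eu n) (i : Fin n) : emb n u i.castSucc = u i := by
  simp [emb]

@[simp] theorem emb_last (n : ℕ) (u : Eu n) : emb n u (Fin.last n) = 0 := by
  simp [emb]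

@[simp] theorem eL_castSucc (n : ℕ) (i : Fin n) : eL n i.castSucc = 0 := by
  simp [eL]

@[simp] theorem eL_last (n : ℕ) : eL n (Fin.last n) = 1 := by
  simp [eL]

theorem inner_emb_emb (n : ℕ) (x y : Eu n) : ⟪emb n x, emb n y⟫_ℝ = ⟪x, y⟫_ℝ := by
  simp [PiLp.inner_apply, Fin.sum_univ_castSucc]

theorem inner_emb_eL (n : ℕ) (x : Eu n) : ⟪emb n x, eL n⟫_ℝ = 0 := by
  simp [PiLp.inner_apply, Fin.sum_univ_castSucc]

theorem inner_eL_emb (n : ℕ) (x : Eu n) : ⟪eL n, emb n x⟫_ℝ = 0 := by
  simp [PiLp.inner_apply, Fin.sum_univ_castSucc]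

theorem inner_eL_eL (n : ℕ) : ⟪eL n, eL n⟫_ℝ = 1 := by
  rw [PiLp.inner_apply, Fin.sum_univ_castSucc]
  simp

theorem emb_injective (n : ℕ) : Function.Injective (emb n) := by
  intro x y h
  ext i
  have := congrArg (fun z : Eu (n + 1) => z i.castSucc) h
  simpa using this

theorem emb_add_smul_eq_zero {n : ℕ} {x : Eu n} {c : ℝ} (h : emb n x + c • eL n = 0) :
    x = 0 ∧ c = 0 := by
  constructor
  · ext i
    have := congrArg (fun z : Eu (n + 1) => z i.castSucc) h
    simpa using this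
  · have := congrArg (fun z : Eu (n + 1) => z (Fin.last n)) h
    simpa using this

theorem ini_lst_eq_zero {n : ℕ} {u : Eu (n + 1)} (h1 : ini n u = 0) (h2 : lst n u = 0) :
    u = 0 := by
  ext i
  refine Fin.lastCases ?_ (fun i => ?_) i
  · simpa using h2
  · have := congrArg (fun z : Eu n => z i) h1
    simpa using this

theorem ini_per {n : ℕ} (k : Fin (n + 1) → ℤ) : ini n (per k) = per (fun i => k i.castSucc) := by
  ext i
  simp [per]

theorem lst_per {n : ℕ} (k : Fin (n + 1) → ℤ) : lst n (per k) = k (Fin.last n) * (2 * Real.pi) := by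
  simp [per, mul_comm]

/-! ### The step -/

theorem q_pos {ε : ℝ} (hε : 0 < ε) (t : ℝ) :
    0 < (2 * Real.cos (2 * t)) ^ 2 + (ε * Real.cos t) ^ 2 := by
  by_cases h : Real.cos t = 0
  · have : Real.cos (2 * t) = -1 := by rw [Real.cos_two_mul, h]; norm_num
    rw [h, this]
    norm_num
  · positivity

/-- The data of the induction without the bounds. -/
structure Dat (n : ℕ) (f N : Eu n → Eu (n + 1)) : Prop where
  sf : ContDiff ℝ ∞ f
  sN : ContDiff ℝ ∞ N
  odd : ∀ s, f (-s) = -f s
  even : ∀ s, N (-s) = N s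
  pf : ∀ s k, f (s + per k) = f s
  pN : ∀ s k, N (s + per k) = N s
  unit : ∀ s, ‖N s‖ = 1
  perp : ∀ s u, ⟪N s, fderiv ℝ f s u⟫_ℝ = 0
  inj : ∀ s, Function.Injective (fderiv ℝ f s)

theorem dat_zero : ∃ f N : Eu 0 → Eu 1, Dat 0 f N := by
  refine ⟨fun _ => 0, fun _ => eL 0, ?_, ?_, ?_, ?_, ?_, ?_, ?_, ?_, ?_⟩
  · exact contDiff_const
  · exact contDiff_const
  · intro s; simp
  · intro s; rfl
  · intro s k; rfl
  · intro s k; rfl
  · intro s
    have := inner_eL_eL 0
    rw [real_inner_self_eq_norm_sq] at this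
    have h0 := norm_nonneg (eL 0)
    nlinarith
  · intro s u; simp
  · intro s x y _
    exact Subsingleton.elim _ _

/-- The new immersion. -/
def newf {n : ℕ} (f N : Eu n → Eu (n + 1)) (ε : ℝ) (u : Eu (n + 1)) : Eu (n + 2) :=
  emb (n + 1) (f (ini n u) + (ε * Real.sin (lst n u)) • N (ini n u)) +
    (Real.sin (2 * lst n u)) • eL (n + 1)

/-- The new normal. -/
def newN {n : ℕ} (N : Eu n → Eu (n + 1)) (ε : ℝ) (u : Eu (n + 1)) : Eu (n + 2) :=
  (Real.sqrt ((2 * Real.cos (2 * lst n u)) ^ 2 + (ε * Real.cos (lst n u)) ^ 2))⁻¹ •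
    (emb (n + 1) ((2 * Real.cos (2 * lst n u)) • N (ini n u)) -
      (ε * Real.cos (lst n u)) • eL (n + 1))

theorem newf_fderiv {n : ℕ} {f N : Eu n → Eu (n + 1)} (h : Dat n f N) (ε : ℝ)
    (s w : Eu (n + 1)) :
    fderiv ℝ (newf f N ε) s w =
      emb (n + 1) (fderiv ℝ f (ini n s) (ini n w) +
        (ε * Real.sin (lst n s)) • fderiv ℝ N (ini n s) (ini n w) +
        (ε * Real.cos (lst n s) * lst n w) • N (ini n s)) +
      (2 * Real.cos (2 * lst n s) * lst n w) • eL (n + 1) := by
  have hf : HasFDerivAt f (fderiv ℝ f (ini n s)) (ini n s) :=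
    (h.sf.differentiable (by simp) _).hasFDerivAt
  have hN : HasFDerivAt N (fderiv ℝ N (ini n s)) (ini n s) :=
    (h.sN.differentiable (by simp) _).hasFDerivAt
  have hi : HasFDerivAt (fun u => ini n u) (ini n) s := (ini n).hasFDerivAt
  have hl : HasFDerivAt (fun u => lst n u) (lst n) s := (lst n).hasFDerivAt
  have h1 := hf.comp s hi
  have h2 := hN.comp s hi
  have h3 := (hl.sin).const_mul ε
  have h4 := h3.smul h2
  have h5 := (emb (n + 1)).hasFDerivAt.comp s (h1.add h4)
  have h6 := ((hl.const_mul 2).sin).smul_const (eL (n + 1))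
  have h7 := h5.add h6
  have h8 : HasFDerivAt (newf f N ε) _ s := h7
  rw [h8.fderiv]
  simp only [add_apply, ContinuousLinearMap.comp_apply,
    smul_apply, ContinuousLinearMap.smulRight_apply, smul_eq_mul,
    Function.comp_apply, map_add, map_smul]
  module

theorem dat_step {n : ℕ} {f N : Eu n → Eu (n + 1)} (h : Dat n f N) :
    ∃ f' N' : Eu (n + 1) → Eu (n + 2), Dat (n + 1) f' N' := by
  obtain ⟨κ, hκ, hlow⟩ := per_lower f h.sf h.pf h.inj
  obtain ⟨B, hB, hup⟩ := per_upper N h.sN h.pN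
  obtain ⟨ε, hε, hεB⟩ : ∃ ε : ℝ, 0 < ε ∧ ε * B < κ := by
    refine ⟨κ / (B + 1), by positivity, ?_⟩
    rw [div_mul_eq_mul_div, div_lt_iff₀ (by positivity)]
    nlinarith
  have hq : ∀ t : ℝ, 0 < Real.sqrt ((2 * Real.cos (2 * t)) ^ 2 + (ε * Real.cos t) ^ 2) :=
    fun t => Real.sqrt_pos.2 (q_pos hε t)
  have hNN : ∀ s u, ⟪N s, fderiv ℝ N s u⟫_ℝ = 0 := by
    intro s u
    have hN : HasFDerivAt N (fderiv ℝ N s) s := (h.sN.differentiable (by simp) _).hasFDerivAt
    have h1 := hN.norm_sq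
    have h2 : (fun x => ‖N x‖ ^ 2) = fun _ => (1 : ℝ) := by
      funext x; rw [h.unit x]; norm_num
    rw [h2] at h1
    have h3 := h1.unique (hasFDerivAt_const (1 : ℝ) s)
    have h4 := congrArg (fun L : Eu n →L[ℝ] ℝ => L u) h3
    simpa using h4
  refine ⟨newf f N ε, newN N ε, ?_, ?_, ?_, ?_, ?_, ?_, ?_, ?_, ?_⟩
  · -- smooth
    have hs : ContDiff ℝ ∞ (fun u => Real.sin (lst n u)) :=
      Real.contDiff_sin.comp (lst n).contDiff
    have hs2 : ContDiff ℝ ∞ (fun u => Real.sin (2 * lst n u)) :=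
      Real.contDiff_sin.comp (contDiff_const.mul (lst n).contDiff)
    exact ((emb (n + 1)).contDiff.comp ((h.sf.comp (ini n).contDiff).add
      ((contDiff_const.mul hs).smul (h.sN.comp (ini n).contDiff)))).add
      (hs2.smul contDiff_const)
  · have hc : ContDiff ℝ ∞ (fun u => Real.cos (lst n u)) :=
      Real.contDiff_cos.comp (lst n).contDiff
    have hc2 : ContDiff ℝ ∞ (fun u => Real.cos (2 * lst n u)) :=
      Real.contDiff_cos.comp (contDiff_const.mul (lst n).contDiff)
    refine ContDiff.smul (ContDiff.inv (ContDiff.sqrt ?_ ?_) ?_) ?_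
    · exact ((contDiff_const.mul hc2).pow 2).add ((contDiff_const.mul hc).pow 2)
    · intro x; exact (q_pos hε _).ne'
    · intro x; exact (hq _).ne'
    · exact ((emb (n + 1)).contDiff.comp ((contDiff_const.mul hc2).smul
        (h.sN.comp (ini n).contDiff))).sub ((contDiff_const.mul hc).smul contDiff_const)
  · intro s
    simp only [newf, map_neg, h.odd, h.even, Real.sin_neg, mul_neg, neg_smul]
    rw [show -f (ini n s) + -((ε * Real.sin (lst n s)) • N (ini n s)) =
      -(f (ini n s) + (ε * Real.sin (lst n s)) • N (ini n s)) by abel, map_neg]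
    abel
  · intro s
    simp only [newN, map_neg, h.even, Real.cos_neg, mul_neg]
  · intro s k
    have e1 : Real.sin (lst n s + k (Fin.last n) * (2 * Real.pi)) = Real.sin (lst n s) :=
      Real.sin_add_int_mul_two_pi _ _
    have e2 : Real.sin (2 * (lst n s + k (Fin.last n) * (2 * Real.pi))) =
        Real.sin (2 * lst n s) := by
      have := Real.sin_add_int_mul_two_pi (2 * lst n s) (2 * k (Fin.last n))
      rw [← this]
      congr 1
      push_cast
      ring
    simp only [newf, map_add, ini_per, lst_per, h.pf, h.pN, e1, e2]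
  · intro s k
    have e1 : Real.cos (lst n s + k (Fin.last n) * (2 * Real.pi)) = Real.cos (lst n s) :=
      Real.cos_add_int_mul_two_pi _ _
    have e2 : Real.cos (2 * (lst n s + k (Fin.last n) * (2 * Real.pi))) =
        Real.cos (2 * lst n s) := by
      have := Real.cos_add_int_mul_two_pi (2 * lst n s) (2 * k (Fin.last n))
      rw [← this]
      congr 1
      push_cast
      ring
    simp only [newN, map_add, ini_per, lst_per, h.pN, e1, e2]
  · intro s
    have hpos := hq (lst n s)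
    set q := Real.sqrt ((2 * Real.cos (2 * lst n s)) ^ 2 + (ε * Real.cos (lst n s)) ^ 2) with hqdef
    have hv : ‖emb (n + 1) ((2 * Real.cos (2 * lst n s)) • N (ini n s)) -
        (ε * Real.cos (lst n s)) • eL (n + 1)‖ = q := by
      rw [hqdef, eq_comm, Real.sqrt_eq_iff_mul_self_eq (q_pos hε _).le (norm_nonneg _)]
      rw [← real_inner_self_eq_norm_mul_norm]
      simp only [inner_sub_left, inner_sub_right, map_smul, inner_smul_left, inner_smul_right,
        inner_emb_emb, inner_emb_eL, inner_eL_emb, inner_eL_eL]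
      rw [real_inner_self_eq_norm_sq, h.unit]
      simp
      ring
    rw [newN, norm_smul, hv, norm_inv, Real.norm_of_nonneg hpos.le]
    exact inv_mul_cancel₀ hpos.ne'
  · intro s w
    rw [newf_fderiv h]
    have hself : ⟪N (ini n s), N (ini n s)⟫_ℝ = 1 := by
      rw [real_inner_self_eq_norm_sq, h.unit]; norm_num
    simp only [newN, inner_smul_left, inner_sub_left, inner_add_right, map_add, map_smul,
      inner_smul_right, inner_emb_emb, inner_emb_eL, inner_eL_emb, inner_eL_eL, h.perp, hNN,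
      hself]
    simp
    ring
  · intro s
    rw [injective_iff_map_eq_zero]
    intro w hw
    rw [newf_fderiv h] at hw
    obtain ⟨h1, h2⟩ := emb_add_smul_eq_zero hw
    have h3 : ε * Real.cos (lst n s) * lst n w = 0 := by
      have := congrArg (fun z => ⟪N (ini n s), z⟫_ℝ) h1
      simpa [inner_add_right, inner_smul_right, h.perp, hNN, real_inner_self_eq_norm_sq,
        h.unit] using this
    have h4 : lst n w = 0 := by
      by_contra hne
      have hc : Real.cos (lst n s) = 0 := by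
        rcases mul_eq_zero.1 h3 with h | h
        · rcases mul_eq_zero.1 h with h | h
          · exact absurd h hε.ne'
          · exact h
        · exact absurd h hne
      have hc2 : Real.cos (2 * lst n s) = 0 := by
        rcases mul_eq_zero.1 h2 with h | h
        · rcases mul_eq_zero.1 h with h | h
          · norm_num at h
          · exact h
        · exact absurd h hne
      have := q_pos hε (lst n s)
      rw [hc, hc2] at this
      norm_num at this
    have h5 : ini n w = 0 := by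
      rw [h3, zero_smul, add_zero] at h1
      have h6 : fderiv ℝ f (ini n s) (ini n w) =
          -((ε * Real.sin (lst n s)) • fderiv ℝ N (ini n s) (ini n w)) :=
        eq_neg_of_add_eq_zero_left h1
      have h7 := hlow (ini n s) (ini n w)
      rw [h6, norm_neg, norm_smul, norm_mul, Real.norm_of_nonneg hε.le] at h7
      have h8 := hup (ini n s) (ini n w)
      have h9 : ‖Real.sin (lst n s)‖ ≤ 1 := by
        rw [Real.norm_eq_abs]; exact Real.abs_sin_le_one _
      by_contra hne
      have h10 : 0 < ‖ini n w‖ := norm_pos_iff.2 hne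
      have h11 : ε * ‖Real.sin (lst n s)‖ * ‖fderiv ℝ N (ini n s) (ini n w)‖ ≤
          ε * 1 * (B * ‖ini n w‖) := by gcongr
      nlinarith
    exact ini_lst_eq_zero h5 h4

theorem exists_dat (n : ℕ) : ∃ f N : Eu n → Eu (n + 1), Dat n f N := by
  induction n with
  | zero => exact dat_zero
  | succ n ih =>
    obtain ⟨f, N, h⟩ := ih
    exact dat_step h

/-- Induction statement: `f : ℝⁿ → ℝⁿ⁺¹` smooth periodic odd immersion, `N` smooth periodic even unit
normal field, with quantitative bounds.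
PROOF. Induction on `n`. `n = 0`: `f = 0`, `N =` the unit vector (`Eu 0` is a point).
Step (write `Eu (n+1) ≃ Eu n × ℝ`, `Eu (n+2) ≃ Eu (n+1) × ℝ` by linear isometries, for example
`Fin.snoc`/`Fin.init`; the first one must send `per k` to `(per (k ∘ castSucc), 2 π k (last))`):
`f' (s, t) = (f s + (ε sin t) • N s, sin (2 t))`,
`N' (s, t) = q⁻¹ • ((2 cos 2t) • N s, - ε cos t)`, `q = √(4 cos² 2t + ε² cos² t) > 0`.
Odd/even, periodic, smooth: clear. `N' ⊥ Df'`: `N ⊥ Df`, `⟪N, DN u⟫ = 0` (unit).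
Derivative: `Df' (u, v) = (Df u + ε sin t • DN u + (ε cos t v) • N, 2 cos (2t) v)`. With
`κ ‖u‖ ≤ ‖Df u‖`, `‖DN u‖ ≤ B ‖u‖` choose `0 < ε ≤ 1` with `ε B ≤ κ / 2`: the first component has
tangential part (orthogonal to `N`) of norm `≥ (κ/2) ‖u‖`, and normal part `ε cos t v`; and
`ε² cos² t + 4 cos² 2t` is bounded below by a positive constant. So `κ'` exists. `B'` exists: the
derivative of `N'` is bounded by explicit formulas (or: `N'` is smooth and periodic, its derivative is
continuous and periodic, hence bounded by compactness of `[0, 2π]^{n+1}`; the same argument gives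
`κ'` too, from injectivity). -/
theorem torus_ind (n : ℕ) :
    ∃ (f N : Eu n → Eu (n + 1)) (κ B : ℝ), 0 < κ ∧ 0 ≤ B ∧ ContDiff ℝ ∞ f ∧ ContDiff ℝ ∞ N ∧
      (∀ s, f (-s) = -f s) ∧ (∀ s, N (-s) = N s) ∧
      (∀ s k, f (s + per k) = f s) ∧ (∀ s k, N (s + per k) = N s) ∧
      (∀ s, ‖N s‖ = 1) ∧ (∀ s u, ⟪N s, fderiv ℝ f s u⟫_ℝ = 0) ∧
      (∀ s u, κ * ‖u‖ ≤ ‖fderiv ℝ f s u‖) ∧ (∀ s u, ‖fderiv ℝ N s u‖ ≤ B * ‖u‖) := by
  obtain ⟨f, N, h⟩ := exists_dat n
  obtain ⟨κ, hκ, hlow⟩ := per_lower f h.sf h.pf h.inj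
  obtain ⟨B, hB, hup⟩ := per_upper N h.sN h.pN
  exact ⟨f, N, κ, B, hκ, hB, h.sf, h.sN, h.odd, h.even, h.pf, h.pN, h.unit, h.perp, hlow, hup⟩

/-- The odd torus immersion. PROOF. From `torus_ind`, after multiplication of `f` by a small positive
constant (`f` is continuous and periodic, hence bounded). -/
theorem exists_odd_torus (n : ℕ) :
    ∃ f : Eu n → Eu (n + 1), ContDiff ℝ ∞ f ∧ (∀ s, Function.Injective (fderiv ℝ f s)) ∧
      (∀ s, f (-s) = -f s) ∧ (∀ s k, f (s + per k) = f s) ∧ ∀ s, ‖f s‖ ≤ 1 / 2 := by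
  obtain ⟨f, N, h⟩ := exists_dat n
  obtain ⟨B, hB, hbd⟩ := per_bdd f h.sf.continuous h.pf
  set c : ℝ := (2 * (B + 1))⁻¹ with hc
  have hcpos : 0 < c := by positivity
  refine ⟨fun s => c • f s, h.sf.const_smul c, ?_, ?_, ?_, ?_⟩
  · intro s x y hxy
    have e : fderiv ℝ (fun s => c • f s) s = c • fderiv ℝ f s :=
      fderiv_const_smul (h.sf.differentiable (by simp) _) c
    rw [e] at hxy
    simp only [smul_apply] at hxy
    exact h.inj s (smul_right_injective _ hcpos.ne' hxy)
  · intro s; simp [h.odd]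
  · intro s k; simp [h.pf]
  · intro s
    rw [norm_smul, Real.norm_of_nonneg hcpos.le, hc, inv_mul_le_iff₀ (by positivity)]
    have := hbd s
    linarith

end Pool.Agent.helper8.MC
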