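import Pool.Agent.helper8.MC.CDat

/-!
# MC: definitions for the derivatives along great circles
-/

open scoped Manifold ContDiff Topology InnerProductSpace

noncomputable section

namespace Pool.Agent.helper8.MC

variable {n : ℕ} {V W H : Type} [NormedAddCommGroup V] [InnerProductSpace ℝ V]
  [NormedAddCommGroup W] [InnerProductSpace ℝ W] [NormedAddCommGroup H] [InnerProductSpace ℝ H]

/-- the great circle -/
def cY (y u : Eu (n + 1)) (k t : ℝ) : Eu (n + 1) := Real.cos (k * t) • y + Real.sin (k * t) • u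

theorem norm_cY {y u : Eu (n + 1)} (hy : ‖y‖ = 1) (hu : ‖u‖ = 1) (hyu : ⟪y, u⟫_ℝ = 0) (k t : ℝ) :
    ‖cY y u k t‖ = 1 := by
  have h : ‖cY y u k t‖ ^ 2 = 1 := by
    unfold cY
    rw [norm_add_sq_real, norm_smul, norm_smul, real_inner_smul_left, real_inner_smul_right, hyu,
      hy, hu]
    simp
  nlinarith [norm_nonneg (cY y u k t)]

/-- The two blocks of an element of `ℝᵇ`. -/
def fstB (κ : RB n) : Eu (n + 1) := WithLp.toLp 2 (fun i => κ (Sum.inl i))
def midB (κ : RB n) : Eu n := WithLp.toLp 2 (fun i => κ (Sum.inr i.castSucc))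
def lastB (κ : RB n) : ℝ := κ (Sum.inr (Fin.last n))

/-- The map `J` precomposed with the orthogonal projection on `{u ⟂ y}`. -/
def CDat.QQ (D : CDat n V W H) (y : Eu (n + 1)) (s : Eu n) (κ : RB n) : H :=
  D.JJ y s (fstB κ - ⟪y, fstB κ⟫_ℝ • y) (midB κ) (lastB κ)

/-- the speed -/
def spd (k : ℝ) (σ : Eu n) : ℝ := Real.sqrt (n * k ^ 2 + ‖σ‖ ^ 2)

end Pool.Agent.helper8.MC
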