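import Pool.Agent.helper8.MC.UDef
import Pool.Agent.helper7.MC.Bridge

/-!
# MC: the jet of `φ`
-/

open scoped Manifold ContDiff Topology InnerProductSpace

noncomputable section

namespace Pool.Agent.helper8.MC

variable {n : ℕ} {V W H : Type} [NormedAddCommGroup V] [InnerProductSpace ℝ V]
  [NormedAddCommGroup W] [InnerProductSpace ℝ W] [NormedAddCommGroup H] [InnerProductSpace ℝ H]

/-- velocity of the great circle -/
def UJa_cY1 (y u : Eu (n + 1)) (k t : ℝ) : Eu (n + 1) :=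
  (-(k * Real.sin (k * t))) • y + (k * Real.cos (k * t)) • u

theorem UJa_hasDerivAt_cY (y u : Eu (n + 1)) (k t : ℝ) :
    HasDerivAt (cY y u k) (UJa_cY1 y u k t) t := by
  have h0 : HasDerivAt (fun t : ℝ => k * t) k t := by
    simpa using (hasDerivAt_id t).const_mul k
  have h1 := (h0.cos.smul_const y).add (h0.sin.smul_const u)
  have e : (-Real.sin (k * t) * k) • y + (Real.cos (k * t) * k) • u = UJa_cY1 y u k t := by
    unfold UJa_cY1
    congr 2 <;> ring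
  rw [← e]
  exact h1

theorem UJa_hasDerivAt_cY1 (y u : Eu (n + 1)) (k t : ℝ) :
    HasDerivAt (UJa_cY1 y u k) (-(k ^ 2) • cY y u k t) t := by
  have h0 : HasDerivAt (fun t : ℝ => k * t) k t := by
    simpa using (hasDerivAt_id t).const_mul k
  have h1 := ((((h0.sin).const_mul k).neg).smul_const y).add (((h0.cos).const_mul k).smul_const u)
  have e : (-(k * (Real.cos (k * t) * k))) • y + (k * (-Real.sin (k * t) * k)) • u
      = -(k ^ 2) • cY y u k t := by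
    unfold cY
    rw [smul_add, smul_smul, smul_smul]
    congr 2 <;> ring
  rw [← e]
  exact h1

/-- U1a: the jet of `φ`. -/
theorem phi_jet (D : CDat n V W H) (hn : 1 ≤ n) {y u : Eu (n + 1)} (hy : ‖y‖ = 1) (hu : ‖u‖ = 1)
    (hyu : ⟪y, u⟫_ℝ = 0) (k : ℝ) (hk : 0 ≤ k) (s σ : Eu n) :
    ∃ φ1 φ2 : ℝ → H, (∀ t, HasDerivAt (fun t => D.phi (cY y u k t) (s + t • σ)) (φ1 t) t) ∧
      (∀ t, HasDerivAt φ1 (φ2 t) t) ∧ ‖φ1 0‖ ≤ 4 * spd k σ ∧ ‖φ2 0‖ ≤ 6 * spd k σ ^ 2 ∧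
      ⟪D.JJ y s (Real.sqrt n • k • u) σ 0, φ1 0⟫_ℝ = spd k σ ^ 2 := by
  have c0 : cY y u k 0 = y := by simp [cY]
  have c1 : UJa_cY1 y u k 0 = k • u := by simp [UJa_cY1]
  have n1 : ‖UJa_cY1 y u k 0‖ = k := by
    rw [c1, norm_smul, hu, mul_one, Real.norm_eq_abs, abs_of_nonneg hk]
  have o1 : ⟪cY y u k 0, UJa_cY1 y u k 0⟫_ℝ = 0 := by
    rw [c0, c1, real_inner_smul_right, hyu, mul_zero]
  have hX : 0 ≤ spd k σ := Real.sqrt_nonneg _
  have hX2 : n * ‖UJa_cY1 y u k 0‖ ^ 2 + ‖σ‖ ^ 2 = spd k σ ^ 2 := by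
    rw [n1]
    exact (Real.sq_sqrt (by positivity)).symm
  refine ⟨Pool.Agent.helper7.MC.Phi1 (Pool.Agent.helper7.MC.ofC D) D.j (cY y u k)
    (UJa_cY1 y u k) s σ, fun t => Pool.Agent.helper7.MC.Phi2 (Pool.Agent.helper7.MC.ofC D) D.j
    (cY y u k) (UJa_cY1 y u k) s σ (-(k ^ 2) • cY y u k t) t, ?_, ?_, ?_, ?_, ?_⟩
  · intro t
    have h1 := Pool.Agent.helper7.MC.Phi_hasDerivAt (Pool.Agent.helper7.MC.ofC D) D.j (cY y u k)
      (UJa_cY1 y u k) s σ t (UJa_hasDerivAt_cY y u k t)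
    simp only [Pool.Agent.helper7.MC.ofC_Phi] at h1
    exact h1
  · intro t
    exact Pool.Agent.helper7.MC.Phi1_hasDerivAt (Pool.Agent.helper7.MC.ofC D) D.j (cY y u k)
      (UJa_cY1 y u k) s σ t _ (UJa_hasDerivAt_cY y u k t) (UJa_hasDerivAt_cY1 y u k t)
  · refine (Pool.Agent.helper7.MC.Phi1_bound (Pool.Agent.helper7.MC.ofC D) D.j (cY y u k)
      (UJa_cY1 y u k) s σ hn D.norm_j (by rw [c0, hy]) o1 hX hX2).trans ?_
    linarith
  · have h1 := Pool.Agent.helper7.MC.Phi2_bound (Pool.Agent.helper7.MC.ofC D) D.j (cY y u k)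
      (UJa_cY1 y u k) s σ hn D.norm_j (by rw [c0, hy]) hX hX2
    rw [n1] at h1
    exact h1
  · have e0 := Pool.Agent.helper7.MC.Phi1_eq (Pool.Agent.helper7.MC.ofC D) D.j (cY y u k)
      (UJa_cY1 y u k) s σ o1
    have h3 : ⟪y, Real.sqrt n • k • u⟫_ℝ = 0 := by
      rw [real_inner_smul_right, real_inner_smul_right, hyu, mul_zero, mul_zero]
    rw [c0, c1, Pool.Agent.helper7.MC.ofC_JJ, h3, zero_smul, zero_smul, add_zero, sub_zero] at e0
    rw [e0, inner_add_right, real_inner_self_eq_norm_sq, D.norm_JJ hy]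
    have h4 : ∀ a, ⟪D.JJ y s (Real.sqrt n • k • u) σ 0, D.tens (D.j (k • u)) a⟫_ℝ = 0 := by
      intro a
      unfold CDat.JJ
      rw [inner_sub_left, D.inner_tens, D.inner_j, D.incl_tens, real_inner_smul_right, hyu]
      ring
    have h5 := h4 (Real.sqrt n • (Pool.Agent.helper7.MC.ofC D).α y +
      (Pool.Agent.helper7.MC.ofC D).β (Pool.Agent.helper7.MC.sinv s))
    have h6 : ⟪D.JJ y s (Real.sqrt n • k • u) σ 0, (Pool.Agent.helper7.MC.ofC D).T (D.j (k • u))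
      (Real.sqrt n • (Pool.Agent.helper7.MC.ofC D).α y +
      (Pool.Agent.helper7.MC.ofC D).β (Pool.Agent.helper7.MC.sinv s))⟫_ℝ = 0 := h5
    rw [h6, norm_smul, norm_smul, hu]
    unfold spd
    rw [Real.sq_sqrt (by positivity), mul_pow, mul_pow, Real.norm_eq_abs, sq_abs, Real.norm_eq_abs,
      sq_abs, Real.sq_sqrt (Nat.cast_nonneg n)]
    ring

end Pool.Agent.helper8.MC
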