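import Pool.Agent.helper8.MC.UDef

/-!
# MC: the jet of `J`
-/

open scoped Manifold ContDiff Topology InnerProductSpace

noncomputable section

namespace Pool.Agent.helper8.MC

variable {n : ℕ} {V W H : Type} [NormedAddCommGroup V] [InnerProductSpace ℝ V]
  [NormedAddCommGroup W] [InnerProductSpace ℝ W] [NormedAddCommGroup H] [InnerProductSpace ℝ H]

/-- U1b: the jet of `J`. -/
theorem QQ_jet (D : CDat n V W H) (hn : 1 ≤ n) {y u : Eu (n + 1)} (hy : ‖y‖ = 1) (hu : ‖u‖ = 1)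
    (hyu : ⟪y, u⟫_ℝ = 0) (k : ℝ) (hk : 0 ≤ k) (s σ : Eu n) (κ : RB n)
    (hκ : ⟪y, fstB κ⟫_ℝ = 0) :
    ∃ q1 q2 : ℝ → H, (∀ t, HasDerivAt (fun t => D.QQ (cY y u k t) (s + t • σ) κ) (q1 t) t) ∧
      (∀ t, HasDerivAt q1 (q2 t) t) ∧ ‖q1 0‖ ≤ 4 * spd k σ * ‖κ‖ ∧
      ‖q2 0‖ ≤ 9 * spd k σ ^ 2 * ‖κ‖ := by
  sorry

end Pool.Agent.helper8.MC
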