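import Pool.Agent.helper8.MC.UDef

/-!
# MC: the jet of `Θ`
-/

open scoped Manifold ContDiff Topology InnerProductSpace

noncomputable section

namespace Pool.Agent.helper8.MC

variable {n : ℕ} {V W H : Type} [NormedAddCommGroup V] [InnerProductSpace ℝ V]
  [NormedAddCommGroup W] [InnerProductSpace ℝ W] [NormedAddCommGroup H] [InnerProductSpace ℝ H]

/-- U1c: `Θ` along smooth curves is twice differentiable. -/
theorem Th_jet (D : CDat n V W H) {y u : Eu (n + 1)} (k : ℝ) (s σ : Eu n)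
    {v v1 v2 : ℝ → W × (ℝ × Eu n)} (hv : ∀ᶠ t in 𝓝 0, HasDerivAt v (v1 t) t)
    (hv1 : HasDerivAt v1 (v2 0) 0) :
    ∃ (q1 : ℝ → H) (q2 : H), (∀ᶠ t in 𝓝 0, HasDerivAt (fun t => D.Th (cY y u k t) (s + t • σ) (v t)) (q1 t) t) ∧
      HasDerivAt q1 q2 0 ∧ (k = 0 → σ = 0 → q1 0 = D.Th y s (v1 0)) := by
  sorry

end Pool.Agent.helper8.MC
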