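import Pool.Agent.helper8.MC.F0b
import Pool.Agent.helper8.MC.UJa
import Pool.Agent.helper8.MC.UJb
import Pool.Agent.helper8.MC.UJc
import Pool.Agent.helper29.MC.Abs
import Pool.Agent.helper29.MC.Curve

/-!
# MC: the curvature of `F₀`
-/

open scoped Manifold ContDiff Topology InnerProductSpace

noncomputable section

namespace Pool.Agent.helper8.MC

variable {n : ℕ} {V W H : Type} [NormedAddCommGroup V] [InnerProductSpace ℝ V]
  [NormedAddCommGroup W] [InnerProductSpace ℝ W] [NormedAddCommGroup H] [InnerProductSpace ℝ H]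

/-- U2a: `F₀` has curvature at most `2000`. -/
theorem F0_curv [FiniteDimensional ℝ H] (D : CDat n V W H) (hn : 1 ≤ n) {p : EE n W} (hp : p ∈ MM n W)
    (w : EE n W) (ν : H) (hν : ∀ u, ⟪fderiv ℝ D.F0 p u, ν⟫_ℝ = 0) :
    |⟪fderiv ℝ (fun z => fderiv ℝ D.F0 z w) p w, ν⟫_ℝ| ≤
      2000 * ‖fderiv ℝ D.F0 p w‖ ^ 2 * ‖ν‖ := by
  sorry

/-- U2b: the kernel of `D F₀` is spanned by the two radial directions. -/
theorem F0_inj [FiniteDimensional ℝ H] (D : CDat n V W H) (hn : 1 ≤ n) {p : EE n W} (hp : p ∈ MM n W)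
    (w : EE n W) (h : fderiv ℝ D.F0 p w = 0) (h1 : ⟪p.1, w.1⟫_ℝ = 0) (h2 : ip p.2.2 w.2.2 = 0) :
    w = 0 := by
  sorry

end Pool.Agent.helper8.MC
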