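import Pool.Agent.helper8.MC.Torus

/-!
# MC: vectors
-/

open scoped Manifold ContDiff Topology InnerProductSpace

noncomputable section

namespace Pool.Agent.helper8.MC

variable {n : ℕ}

/-- the index set of the `b = 2 (n + 1)` copies -/
abbrev Bt (n : ℕ) : Type := Fin (n + 1) ⊕ Fin (n + 1)

/-- `ℝᵇ` -/
abbrev RB (n : ℕ) : Type := EuclideanSpace ℝ (Bt n)

/-- concatenation of two blocks -/
def cat (a a' : Eu (n + 1)) : RB n := WithLp.toLp 2 (Sum.elim a a')

/-- append a last coordinate -/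
def sn (χ : Eu n) (c : ℝ) : Eu (n + 1) := WithLp.toLp 2 (Fin.snoc (α := fun _ => ℝ) χ c)

/-- componentwise product -/
def hm (χ ψ : Eu n) : Eu n := WithLp.toLp 2 (fun i => χ i * ψ i)

/-- componentwise sine and cosine -/
def sinv (s : Eu n) : Eu n := WithLp.toLp 2 (fun i => Real.sin (s i))
def cosv (s : Eu n) : Eu n := WithLp.toLp 2 (fun i => Real.cos (s i))

@[simp] theorem cat_inl (a a' : Eu (n + 1)) (i : Fin (n + 1)) : cat a a' (Sum.inl i) = a i := rfl
@[simp] theorem cat_inr (a a' : Eu (n + 1)) (i : Fin (n + 1)) : cat a a' (Sum.inr i) = a' i := rfl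
@[simp] theorem sn_castSucc (χ : Eu n) (c : ℝ) (i : Fin n) : sn χ c i.castSucc = χ i := by
  simp [sn]
@[simp] theorem sn_last (χ : Eu n) (c : ℝ) : sn χ c (Fin.last n) = c := by
  simp [sn]
@[simp] theorem hm_apply (χ ψ : Eu n) (i : Fin n) : hm χ ψ i = χ i * ψ i := rfl
@[simp] theorem sinv_apply (s : Eu n) (i : Fin n) : sinv s i = Real.sin (s i) := rfl
@[simp] theorem cosv_apply (s : Eu n) (i : Fin n) : cosv s i = Real.cos (s i) := rfl

theorem inner_Eu {k : ℕ} (x y : Eu k) : ⟪x, y⟫_ℝ = ∑ i, x i * y i := by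
  rw [PiLp.inner_apply]
  refine Finset.sum_congr rfl fun i _ => ?_
  rw [RCLike.inner_apply]; simp [mul_comm]

theorem inner_RB (x y : RB n) : ⟪x, y⟫_ℝ = ∑ i, x i * y i := by
  rw [PiLp.inner_apply]
  refine Finset.sum_congr rfl fun i _ => ?_
  rw [RCLike.inner_apply]; simp [mul_comm]

theorem inner_cat (a a' b b' : Eu (n + 1)) : ⟪cat a a', cat b b'⟫_ℝ = ⟪a, b⟫_ℝ + ⟪a', b'⟫_ℝ := by
  rw [inner_RB, Fintype.sum_sum_type, inner_Eu, inner_Eu]; rfl

theorem norm_cat (a a' : Eu (n + 1)) : ‖cat a a'‖ ^ 2 = ‖a‖ ^ 2 + ‖a'‖ ^ 2 := by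
  rw [← real_inner_self_eq_norm_sq, inner_cat, real_inner_self_eq_norm_sq,
    real_inner_self_eq_norm_sq]

theorem inner_sn (χ ψ : Eu n) (c d : ℝ) : ⟪sn χ c, sn ψ d⟫_ℝ = ⟪χ, ψ⟫_ℝ + c * d := by
  rw [inner_Eu, Fin.sum_univ_castSucc, inner_Eu]; simp

theorem norm_sn (χ : Eu n) (c : ℝ) : ‖sn χ c‖ ^ 2 = ‖χ‖ ^ 2 + c ^ 2 := by
  rw [← real_inner_self_eq_norm_sq, inner_sn, real_inner_self_eq_norm_sq]; ring

theorem hm_add (a b c : Eu n) : hm (a + b) c = hm a c + hm b c := by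
  ext i; simp [add_mul]
theorem hm_smul (r : ℝ) (a c : Eu n) : hm (r • a) c = r • hm a c := by
  ext i; simp [mul_assoc]
theorem hm_comm (a b : Eu n) : hm a b = hm b a := by
  ext i; simp [mul_comm]
theorem hm_add' (a b c : Eu n) : hm a (b + c) = hm a b + hm a c := by
  ext i; simp [mul_add]
theorem hm_smul' (r : ℝ) (a c : Eu n) : hm a (r • c) = r • hm a c := by
  ext i; simp; ring
theorem hm_assoc (a b c : Eu n) : hm (hm a b) c = hm a (hm b c) := by
  ext i; simp [mul_assoc]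
@[simp] theorem hm_neg (a c : Eu n) : hm (-a) c = -hm a c := by
  ext i; simp
@[simp] theorem hm_neg' (a c : Eu n) : hm a (-c) = -hm a c := by
  ext i; simp
@[simp] theorem hm_zero (c : Eu n) : hm 0 c = 0 := by
  ext i; simp
@[simp] theorem hm_zero' (c : Eu n) : hm c 0 = 0 := by
  ext i; simp
theorem sn_add (a b : Eu n) (c d : ℝ) : sn (a + b) (c + d) = sn a c + sn b d := by
  ext i; refine Fin.lastCases ?_ (fun j => ?_) i <;> simp
theorem sn_smul (r : ℝ) (a : Eu n) (c : ℝ) : sn (r • a) (r * c) = r • sn a c := by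
  ext i; refine Fin.lastCases ?_ (fun j => ?_) i <;> simp
theorem cat_add (a b a' b' : Eu (n + 1)) : cat (a + b) (a' + b') = cat a a' + cat b b' := by
  ext i; rcases i with i | i <;> simp
theorem cat_smul (r : ℝ) (a a' : Eu (n + 1)) : cat (r • a) (r • a') = r • cat a a' := by
  ext i; rcases i with i | i <;> simp
@[simp] theorem cat_zero : cat (0 : Eu (n + 1)) 0 = 0 := by
  ext i; rcases i with i | i <;> simp
@[simp] theorem sn_zero : sn (0 : Eu n) 0 = 0 := by
  ext i; refine Fin.lastCases ?_ (fun j => ?_) i <;> simp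
@[simp] theorem sinv_neg (s : Eu n) : sinv (-s) = -sinv s := by
  ext i; simp
@[simp] theorem cosv_neg (s : Eu n) : cosv (-s) = cosv s := by
  ext i; simp

theorem sinv_per (s : Eu n) (k : Fin n → ℤ) : sinv (s + per k) = sinv s := by
  ext i
  simp only [sinv_apply, PiLp.add_apply, per]
  rw [mul_comm (2 * Real.pi)]
  exact Real.sin_add_int_mul_two_pi _ _

theorem cosv_per (s : Eu n) (k : Fin n → ℤ) : cosv (s + per k) = cosv s := by
  ext i
  simp only [cosv_apply, PiLp.add_apply, per]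
  rw [mul_comm (2 * Real.pi)]
  exact Real.cos_add_int_mul_two_pi _ _

/-- multiplication by sines and cosines is an isometric pair -/
theorem inner_hm_sin_cos (s a b : Eu n) :
    ⟪hm a (sinv s), hm b (sinv s)⟫_ℝ + ⟪hm a (cosv s), hm b (cosv s)⟫_ℝ = ⟪a, b⟫_ℝ := by
  rw [inner_Eu, inner_Eu, inner_Eu, ← Finset.sum_add_distrib]
  refine Finset.sum_congr rfl fun i _ => ?_
  simp only [hm_apply, sinv_apply, cosv_apply]
  linear_combination (a i * b i) * (Real.sin_sq_add_cos_sq (s i))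

theorem inner_hm_comm (s a b : Eu n) :
    ⟪hm a (sinv s), hm b (cosv s)⟫_ℝ = ⟪hm a (cosv s), hm b (sinv s)⟫_ℝ := by
  rw [inner_Eu, inner_Eu]
  refine Finset.sum_congr rfl fun i _ => ?_
  simp only [hm_apply, sinv_apply, cosv_apply]; ring

theorem norm_hm_le (a b : Eu n) : ‖hm a b‖ ≤ ‖a‖ * ‖b‖ := by
  have h : ‖hm a b‖ ^ 2 ≤ (‖a‖ * ‖b‖) ^ 2 := by
    rw [mul_pow, EuclideanSpace.norm_sq_eq, EuclideanSpace.norm_sq_eq, EuclideanSpace.norm_sq_eq,
      Finset.sum_mul_sum]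
    refine Finset.sum_le_sum fun i _ => ?_
    have h1 : ‖(hm a b) i‖ ^ 2 = ‖a i‖ ^ 2 * ‖b i‖ ^ 2 := by simp [mul_pow]
    rw [h1]
    exact Finset.single_le_sum (f := fun j => ‖a i‖ ^ 2 * ‖b j‖ ^ 2)
      (fun j _ => by positivity) (Finset.mem_univ i)
  exact le_of_sq_le_sq h (by positivity)

/-- multiplication by a vector with components of modulus at most one does not increase the norm -/
theorem norm_hm_le_of_le_one (a b : Eu n) (hb : ∀ i, |b i| ≤ 1) : ‖hm a b‖ ≤ ‖a‖ := by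
  have h : ‖hm a b‖ ^ 2 ≤ ‖a‖ ^ 2 := by
    rw [EuclideanSpace.norm_sq_eq, EuclideanSpace.norm_sq_eq]
    refine Finset.sum_le_sum fun i _ => ?_
    have h1 : ‖(hm a b) i‖ ^ 2 = |a i| ^ 2 * |b i| ^ 2 := by simp [mul_pow]
    rw [h1, Real.norm_eq_abs]
    have h2 : |b i| ^ 2 ≤ 1 := by
      have := hb i
      have h0 := abs_nonneg (b i)
      nlinarith
    have h3 : 0 ≤ |a i| ^ 2 := by positivity
    nlinarith
  exact le_of_sq_le_sq h (by positivity)

theorem norm_hm_sinv_le (a s : Eu n) : ‖hm a (sinv s)‖ ≤ ‖a‖ :=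
  norm_hm_le_of_le_one _ _ fun _ => Real.abs_sin_le_one _

theorem norm_hm_cosv_le (a s : Eu n) : ‖hm a (cosv s)‖ ≤ ‖a‖ :=
  norm_hm_le_of_le_one _ _ fun _ => Real.abs_cos_le_one _

/-- `cat` as a continuous linear map -/
def catL (n : ℕ) : (Eu (n + 1) × Eu (n + 1)) →L[ℝ] RB n :=
  LinearMap.toContinuousLinearMap
    { toFun := fun p => cat p.1 p.2
      map_add' := fun _ _ => cat_add _ _ _ _
      map_smul' := fun _ _ => cat_smul _ _ _ }

theorem catL_apply (a a' : Eu (n + 1)) : catL n (a, a') = cat a a' := rfl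

/-- `sn` as a continuous linear map -/
def snL (n : ℕ) : (Eu n × ℝ) →L[ℝ] Eu (n + 1) :=
  LinearMap.toContinuousLinearMap
    { toFun := fun p => sn p.1 p.2
      map_add' := fun _ _ => sn_add _ _ _ _
      map_smul' := fun _ _ => sn_smul _ _ _ }

theorem snL_apply (a : Eu n) (c : ℝ) : snL n (a, c) = sn a c := rfl

/-- `hm` as a continuous bilinear map -/
def hmL (n : ℕ) : Eu n →L[ℝ] Eu n →L[ℝ] Eu n :=
  LinearMap.toContinuousLinearMap
    { toFun := fun a => LinearMap.toContinuousLinearMap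
        { toFun := fun b => hm a b
          map_add' := fun _ _ => hm_add' _ _ _
          map_smul' := fun _ _ => hm_smul' _ _ _ }
      map_add' := fun a b => by ext c : 1; exact hm_add _ _ _
      map_smul' := fun r a => by ext c : 1; exact hm_smul _ _ _ }

theorem hmL_apply (a b : Eu n) : hmL n a b = hm a b := rfl

theorem contDiff_sinv : ContDiff ℝ ∞ (sinv : Eu n → Eu n) := by
  rw [contDiff_euclidean]
  intro i
  have : ContDiff ℝ ∞ (fun s : Eu n => s i) := contDiff_euclidean.1 contDiff_id i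
  exact this.sin

theorem contDiff_cosv : ContDiff ℝ ∞ (cosv : Eu n → Eu n) := by
  rw [contDiff_euclidean]
  intro i
  have : ContDiff ℝ ∞ (fun s : Eu n => s i) := contDiff_euclidean.1 contDiff_id i
  exact this.cos

theorem hasDerivAt_Eu {k : ℕ} {f : ℝ → Eu k} {f' : Eu k} {t : ℝ}
    (h : ∀ i, HasDerivAt (fun x => f x i) (f' i) t) : HasDerivAt f f' t := by
  have h1 : HasDerivAt (fun x => (EuclideanSpace.equiv (Fin k) ℝ) (f x))
      ((EuclideanSpace.equiv (Fin k) ℝ) f') t := by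
    rw [hasDerivAt_pi]
    exact h
  have h2 := (EuclideanSpace.equiv (Fin k) ℝ).symm.toContinuousLinearMap.hasFDerivAt.comp_hasDerivAt
    t h1
  exact h2

theorem HasDerivAt.apply_Eu {k : ℕ} {f : ℝ → Eu k} {f' : Eu k} {t : ℝ}
    (h : HasDerivAt f f' t) (i : Fin k) : HasDerivAt (fun x => f x i) (f' i) t := by
  have h2 := (EuclideanSpace.proj (𝕜 := ℝ) i : Eu k →L[ℝ] ℝ).hasFDerivAt.comp_hasDerivAt t h
  exact h2

theorem hasDerivAt_sinv {S : ℝ → Eu n} {S' : Eu n} {t : ℝ} (h : HasDerivAt S S' t) :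
    HasDerivAt (fun x => sinv (S x)) (hm S' (cosv (S t))) t := by
  apply hasDerivAt_Eu
  intro i
  have := (HasDerivAt.apply_Eu h i).sin
  simpa [mul_comm] using this

theorem hasDerivAt_cosv {S : ℝ → Eu n} {S' : Eu n} {t : ℝ} (h : HasDerivAt S S' t) :
    HasDerivAt (fun x => cosv (S x)) (-hm S' (sinv (S t))) t := by
  apply hasDerivAt_Eu
  intro i
  have := (HasDerivAt.apply_Eu h i).cos
  simpa [mul_comm] using this

end Pool.Agent.helper8.MC
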